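import Mathlib

/-!
Functions on the lattice of subspaces of a finite vector space: basic definitions.
-/

open Module Submodule
open scoped Classical

namespace BrauerPP

noncomputable section

variable {F V 𝕜 : Type*} [Field F] [AddCommGroup V] [Module F V] [Field 𝕜]

/-- The transvection `v ↦ v + l v • h`. -/
abbrev tv (l : Dual F V) (h : V) (hl : l h = 0) : V ≃ₗ[F] V := LinearEquiv.transvection hl

theorem tv_apply (l : Dual F V) (h : V) (hl : l h = 0) (x : V) : tv l h hl x = x + l x • h := rfl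

/-- image of a subspace under a linear equivalence -/
abbrev mp (g : V ≃ₗ[F] V) (W : Submodule F V) : Submodule F V := W.map (g : V →ₗ[F] V)

theorem mem_mp {g : V ≃ₗ[F] V} {W : Submodule F V} {x : V} : x ∈ mp g W ↔ g.symm x ∈ W := by
  rw [mp, Submodule.mem_map]
  constructor
  · rintro ⟨y, hy, rfl⟩; simpa using hy
  · intro h; exact ⟨g.symm x, h, by simp⟩

theorem mp_mp (g h : V ≃ₗ[F] V) (W : Submodule F V) : mp g (mp h W) = mp (h.trans g) W := by
  ext x; simp

theorem mp_le_mp {g : V ≃ₗ[F] V} {W Z : Submodule F V} : mp g W ≤ mp g Z ↔ W ≤ Z :=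
  Submodule.map_le_map_iff_of_injective g.injective W Z

theorem finrank_mp (g : V ≃ₗ[F] V) (W : Submodule F V) : finrank F (mp g W) = finrank F W :=
  LinearEquiv.finrank_map_eq g W

/-- the bijection of the subspace lattice induced by `g` -/
def mpE (g : V ≃ₗ[F] V) : Submodule F V ≃ Submodule F V where
  toFun := mp g
  invFun := mp g.symm
  left_inv W := by ext x; simp
  right_inv W := by ext x; simp

@[simp] theorem mpE_apply (g : V ≃ₗ[F] V) (W : Submodule F V) : mpE g W = mp g W := rfl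

theorem mp_refl (W : Submodule F V) : mp (LinearEquiv.refl F V) W = W := by
  ext x; simp

theorem mp_symm_mp (g : V ≃ₗ[F] V) (W : Submodule F V) : mp g.symm (mp g W) = W :=
  (mpE g).left_inv W

theorem mp_mp_symm (g : V ≃ₗ[F] V) (W : Submodule F V) : mp g (mp g.symm W) = W :=
  (mpE g).right_inv W

/-- (right) action of `g` on functions on the subspace lattice -/
def act (g : V ≃ₗ[F] V) : (Submodule F V → 𝕜) →ₗ[𝕜] (Submodule F V → 𝕜) :=
  LinearMap.funLeft 𝕜 𝕜 (mp g)

@[simp] theorem act_apply (g : V ≃ₗ[F] V) (f : Submodule F V → 𝕜) (W : Submodule F V) :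
    act g f W = f (mp g W) := rfl

theorem act_act (g h : V ≃ₗ[F] V) (f : Submodule F V → 𝕜) :
    act g (act h f) = act (g.trans h) f := by
  ext W; simp [mp_mp]

theorem act_refl (f : Submodule F V → 𝕜) : act (LinearEquiv.refl F V) f = f := by
  ext W; simp [mp_refl]

theorem act_symm_act (g : V ≃ₗ[F] V) (f : Submodule F V → 𝕜) : act g.symm (act g f) = f := by
  rw [act_act]; simp [act_refl]

theorem act_act_symm (g : V ≃ₗ[F] V) (f : Submodule F V → 𝕜) : act g (act g.symm f) = f := by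
  rw [act_act]; simp [act_refl]

section fin

variable [Fintype (Submodule F V)]

/-- sum of `f` over all subspaces containing `Z` -/
def up : (Submodule F V → 𝕜) →ₗ[𝕜] (Submodule F V → 𝕜) where
  toFun f Z := ∑ W, if Z ≤ W then f W else 0
  map_add' f g := by
    ext Z; simp only [Pi.add_apply]; rw [← Finset.sum_add_distrib]
    exact Finset.sum_congr rfl fun W _ => by split_ifs <;> simp
  map_smul' c f := by
    ext Z; simp only [Pi.smul_apply, smul_eq_mul, RingHom.id_apply]; rw [Finset.mul_sum]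
    exact Finset.sum_congr rfl fun W _ => by split_ifs <;> simp

theorem up_apply (f : Submodule F V → 𝕜) (Z : Submodule F V) :
    up f Z = ∑ W, if Z ≤ W then f W else 0 := rfl

theorem up_act (g : V ≃ₗ[F] V) (f : Submodule F V → 𝕜) : up (act g f) = act g (up f) := by
  ext Z
  simp only [up_apply, act_apply]
  refine Fintype.sum_equiv (mpE g) _ _ fun _ => ?_
  simp only [mpE_apply, mp_le_mp]

/-- the standard bilinear pairing -/
def pr (f g : Submodule F V → 𝕜) : 𝕜 := ∑ W, f W * g W

theorem pr_comm (f g : Submodule F V → 𝕜) : pr f g = pr g f :=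
  Finset.sum_congr rfl fun W _ => mul_comm _ _

theorem pr_add_left (f f' g : Submodule F V → 𝕜) : pr (f + f') g = pr f g + pr f' g := by
  simp [pr, add_mul, Finset.sum_add_distrib]

theorem pr_smul_left (c : 𝕜) (f g : Submodule F V → 𝕜) : pr (c • f) g = c * pr f g := by
  simp [pr, Finset.mul_sum, mul_assoc]

theorem pr_add_right (f g g' : Submodule F V → 𝕜) : pr f (g + g') = pr f g + pr f g' := by
  rw [pr_comm, pr_add_left, pr_comm g, pr_comm g']

theorem pr_smul_right (c : 𝕜) (f g : Submodule F V → 𝕜) : pr f (c • g) = c * pr f g := by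
  rw [pr_comm, pr_smul_left, pr_comm]

theorem pr_neg_left (f g : Submodule F V → 𝕜) : pr (-f) g = - pr f g := by
  simp [pr]

theorem pr_sub_left (f f' g : Submodule F V → 𝕜) : pr (f - f') g = pr f g - pr f' g := by
  rw [sub_eq_add_neg, pr_add_left, pr_neg_left, sub_eq_add_neg]

theorem pr_sub_right (f g g' : Submodule F V → 𝕜) : pr f (g - g') = pr f g - pr f g' := by
  rw [pr_comm, pr_sub_left, pr_comm g, pr_comm g']

theorem pr_zero_left (g : Submodule F V → 𝕜) : pr 0 g = 0 := by simp [pr]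
theorem pr_zero_right (g : Submodule F V → 𝕜) : pr g 0 = 0 := by simp [pr]

theorem pr_sum_left {ι : Type*} (s : Finset ι) (f : ι → Submodule F V → 𝕜)
    (g : Submodule F V → 𝕜) : pr (∑ i ∈ s, f i) g = ∑ i ∈ s, pr (f i) g := by
  induction s using Finset.induction_on with
  | empty => simp [pr_zero_left]
  | insert a s ha ih => rw [Finset.sum_insert ha, Finset.sum_insert ha, pr_add_left, ih]

theorem pr_sum_right {ι : Type*} (s : Finset ι) (f : ι → Submodule F V → 𝕜)
    (g : Submodule F V → 𝕜) : pr g (∑ i ∈ s, f i) = ∑ i ∈ s, pr g (f i) := by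
  rw [pr_comm, pr_sum_left]; exact Finset.sum_congr rfl fun i _ => pr_comm _ _

theorem pr_act_act (g : V ≃ₗ[F] V) (f f' : Submodule F V → 𝕜) :
    pr (act g f) (act g f') = pr f f' :=
  Fintype.sum_equiv (mpE g) _ _ fun _ => rfl

theorem pr_act_left (g : V ≃ₗ[F] V) (f f' : Submodule F V → 𝕜) :
    pr (act g f) f' = pr f (act g.symm f') := by
  rw [← pr_act_act g f (act g.symm f'), act_act_symm]

/-- functions supported on `k`-dimensional subspaces of `A` -/
def Mo (A : Submodule F V) (k : ℕ) : Submodule 𝕜 (Submodule F V → 𝕜) where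
  carrier := {f | ∀ W, f W ≠ 0 → W ≤ A ∧ finrank F W = k}
  add_mem' := by
    intro f g hf hg W h
    by_cases h1 : f W = 0
    · refine hg W ?_
      intro h2; exact h (by simp [h1, h2])
    · exact hf W h1
  zero_mem' := by intro W h; exact absurd rfl h
  smul_mem' := by
    intro c f hf W h
    exact hf W fun h1 => h (by simp [h1])

omit [Fintype (Submodule F V)] in
theorem mem_Mo {A : Submodule F V} {k : ℕ} {f : Submodule F V → 𝕜} :
    f ∈ Mo A k ↔ ∀ W, f W ≠ 0 → W ≤ A ∧ finrank F W = k := Iff.rfl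

omit [Fintype (Submodule F V)] in
theorem Mo_eq_zero {A : Submodule F V} {k : ℕ} {f : Submodule F V → 𝕜} (hf : f ∈ Mo A k)
    {W : Submodule F V} (h : ¬ (W ≤ A ∧ finrank F W = k)) : f W = 0 := by
  by_contra h1; exact h (hf W h1)

/-- the Specht-like kernel intersection -/
def Sp (A : Submodule F V) (k : ℕ) : Submodule 𝕜 (Submodule F V → 𝕜) where
  carrier := {f | f ∈ Mo A k ∧ ∀ Z : Submodule F V, finrank F Z < k → up f Z = 0}
  add_mem' := by
    rintro f g ⟨hf, hf'⟩ ⟨hg, hg'⟩
    exact ⟨add_mem hf hg, fun Z hZ => by simp [hf' Z hZ, hg' Z hZ]⟩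
  zero_mem' := ⟨zero_mem _, fun Z _ => by simp⟩
  smul_mem' := by
    rintro c f ⟨hf, hf'⟩
    exact ⟨Submodule.smul_mem _ _ hf, fun Z hZ => by simp [hf' Z hZ]⟩

theorem mem_Sp {A : Submodule F V} {k : ℕ} {f : Submodule F V → 𝕜} :
    f ∈ Sp A k ↔ f ∈ Mo A k ∧ ∀ Z : Submodule F V, finrank F Z < k → up f Z = 0 := Iff.rfl

/-- the radical of the form on `S` -/
def Rad (S : Submodule 𝕜 (Submodule F V → 𝕜)) : Submodule 𝕜 (Submodule F V → 𝕜) where
  carrier := {f | f ∈ S ∧ ∀ g ∈ S, pr f g = 0}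
  add_mem' := by
    rintro f g ⟨hf, hf'⟩ ⟨hg, hg'⟩
    exact ⟨add_mem hf hg, fun Z hZ => by simp [pr_add_left, hf' Z hZ, hg' Z hZ]⟩
  zero_mem' := ⟨zero_mem _, fun Z _ => pr_zero_left _⟩
  smul_mem' := by
    rintro c f ⟨hf, hf'⟩
    exact ⟨Submodule.smul_mem _ _ hf, fun Z hZ => by simp [pr_smul_left, hf' Z hZ]⟩

theorem mem_Rad {S : Submodule 𝕜 (Submodule F V → 𝕜)} {f : Submodule F V → 𝕜} :
    f ∈ Rad S ↔ f ∈ S ∧ ∀ g ∈ S, pr f g = 0 := Iff.rfl

theorem Rad_le (S : Submodule 𝕜 (Submodule F V → 𝕜)) : Rad S ≤ S := fun _ h => h.1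

/-- invariance under all transvections with centre in `A` -/
def TI (A : Submodule F V) (U : Submodule 𝕜 (Submodule F V → 𝕜)) : Prop :=
  ∀ (l : Dual F V) (h : V) (hl : l h = 0), h ∈ A → ∀ f ∈ U, act (tv l h hl) f ∈ U

end fin

theorem tv_symm (l : Dual F V) (h : V) (hl : l h = 0) :
    (tv l h hl).symm = tv l (-h) (by simp [hl]) :=
  LinearEquiv.transvection.symm_eq hl (by simp [hl])

theorem mp_tv_le {A : Submodule F V} {l : Dual F V} {h : V} (hl : l h = 0) (hA : h ∈ A)
    {W : Submodule F V} : mp (tv l h hl) W ≤ A ↔ W ≤ A := by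
  constructor
  · intro H x hx
    have : tv l h hl x ∈ A := H (Submodule.mem_map_of_mem hx)
    rw [tv_apply] at this
    simpa using A.sub_mem this (A.smul_mem (l x) hA)
  · rintro H x hx
    rw [mem_mp, tv_symm, tv_apply] at hx
    have := H hx
    simpa using A.sub_mem this (A.smul_mem (l x) (A.neg_mem hA))

section fin
variable [Fintype (Submodule F V)]

theorem act_Mo {A : Submodule F V} {k : ℕ} {l : Dual F V} {h : V} (hl : l h = 0) (hA : h ∈ A)
    {f : Submodule F V → 𝕜} (hf : f ∈ Mo A k) : act (tv l h hl) f ∈ Mo A k := by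
  intro W hW
  have := hf _ hW
  rwa [mp_tv_le hl hA, finrank_mp] at this

theorem TI_Mo (A : Submodule F V) (k : ℕ) : TI A (Mo A k : Submodule 𝕜 (Submodule F V → 𝕜)) :=
  fun _ _ hl hA _ hf => act_Mo hl hA hf

theorem TI_Sp (A : Submodule F V) (k : ℕ) : TI A (Sp A k : Submodule 𝕜 (Submodule F V → 𝕜)) := by
  intro l h hl hA f hf
  refine ⟨act_Mo hl hA hf.1, fun Z hZ => ?_⟩
  rw [up_act, act_apply]
  exact hf.2 _ (by rwa [finrank_mp])

theorem TI_Rad {A : Submodule F V} {S : Submodule 𝕜 (Submodule F V → 𝕜)} (hS : TI A S) :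
    TI A (Rad S) := by
  intro l h hl hA f hf
  refine ⟨hS l h hl hA f hf.1, fun g hg => ?_⟩
  rw [pr_act_left]
  apply hf.2
  rw [tv_symm]
  exact hS _ _ _ (A.neg_mem hA) g hg

end fin

end

end BrauerPP
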