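import Pool.Agent.Lib.MP_4b46f5_al.Const

/-!
The base cases of the recursions.
-/

open Module Submodule
open scoped Classical

set_option linter.unusedSectionVars false
set_option linter.unusedSimpArgs false

namespace BrauerPP

noncomputable section

theorem gz_map {R S : Type*} [Semiring R] [Semiring S] (f : R →+* S) (q : R) (n k : ℕ) :
    gz (f q) n k = f (gz q n k) := by
  induction n generalizing k with
  | zero => cases k <;> simp
  | succ n ih => cases k with
    | zero => simp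
    | succ k => rw [gz_succ, gz_succ, map_add, map_mul, map_pow, ih, ih]

theorem gz_neg_cast {R : Type*} [Ring R] (n k : ℕ) :
    gz (-1 : R) n k = ((gz (-1 : ℤ) n k : ℤ) : R) := by
  have := gz_map (Int.castRingHom R) (-1) n k
  simpa using this

variable {F V 𝕜 : Type*} [Field F] [AddCommGroup V] [Module F V] [Field 𝕜]
variable {A B : Submodule F V}
variable [Fintype (Submodule F V)] [Finite V] [Finite F]

theorem cst_ne {k : ℕ} (h : k ≤ finrank F B) : cst 𝕜 B k ≠ 0 := by
  obtain ⟨W, hW, hW'⟩ : ∃ W : Submodule F V, W ≤ B ∧ finrank F W = k := by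
    have h1 := card_interval (F := F) (V := V) ⊥ (finrank F B) B bot_le (by simp) k
    have h2 : 0 < gz (Nat.card F) (finrank F B) k := by
      have hF : 0 < Nat.card F := Nat.card_pos
      have key : ∀ n k : ℕ, k ≤ n → 0 < gz (Nat.card F) n k := by
        intro n
        induction n with
        | zero => intro k hk; rw [Nat.le_zero.1 hk]; simp
        | succ n ih =>
          intro k hk
          cases k with
          | zero => simp
          | succ k =>
            rw [gz_succ]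
            have := ih k (by omega)
            have : 0 < Nat.card F ^ (n - k) * gz (Nat.card F) n k :=
              Nat.mul_pos (pow_pos hF _) this
            omega
      exact key _ _ h
    rw [← h1, Finset.card_pos] at h2
    obtain ⟨W, hW⟩ := h2
    simp only [Finset.mem_filter, Finset.mem_univ, true_and, finrank_bot, zero_add] at hW
    exact ⟨W, hW.2.1, hW.2.2⟩
  intro h1
  have := congrFun h1 W
  rw [cst, if_pos ⟨hW, hW'⟩] at this
  exact one_ne_zero this

theorem dd_cst {i : ℕ} : dd B i (cst 𝕜 B (i + 2)) =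
    gz (Nat.card F : 𝕜) (finrank F B - i) 2 • cst 𝕜 B i := by
  ext Z
  rw [dd_apply, Pi.smul_apply, smul_eq_mul, cst]
  split_ifs with h
  · rw [up_cst h.1 (i := 2) (by omega), h.2, mul_one]
  · rw [mul_zero]

theorem DK_main {i : ℕ}
    (hcoef : ∀ i' < i, gz (Nat.card F : 𝕜) (i + 2 - i') (i - i') ≠ 0)
    (hκ : ∀ c ∈ (Mo B i : Submodule 𝕜 (Submodule F V → 𝕜)),
      dd B i (dn B (i + 2) c) = 0 → IsC B i c)
    (hg : gz (Nat.card F : 𝕜) (i + 2) i ≠ 0) (hm : i + 2 ≤ finrank F B) :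
    (∀ f ∈ (Rad (Kk B (i + 2)) : Submodule 𝕜 (Submodule F V → 𝕜)), IsC B (i + 2) f) ∧
    (gz (Nat.card F : 𝕜) (finrank F B - i) 2 ≠ 0 → DK 𝕜 B (i + 2)
      (gz (Nat.card F) (finrank F B) (i + 2) - gz (Nat.card F) (finrank F B) i)) ∧
    (gz (Nat.card F : 𝕜) (finrank F B - i) 2 = 0 → DK 𝕜 B (i + 2)
      (gz (Nat.card F) (finrank F B) (i + 2) - gz (Nat.card F) (finrank F B) i - 1)) := by
  have hinj : ∀ c ∈ (Mo B i : Submodule 𝕜 (Submodule F V → 𝕜)), dn B (i + 2) c = 0 → c = 0 := by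
    intro c hc h0
    obtain ⟨s, rfl⟩ := (hκ c hc (by rw [h0, map_zero])).eq_smul hc
    rw [map_smul, dn_cst, smul_smul, smul_eq_zero] at h0
    rcases h0 with h0 | h0
    · rw [(mul_eq_zero.1 h0).resolve_right hg, zero_smul]
    · exact absurd h0 (cst_ne hm)
  have hK := finrank_Kk hcoef hinj
  have hR := finrank_Rad_Kk hcoef hinj
  have hle := Submodule.finrank_mono (Rad_le (Kk B (i + 2) : Submodule 𝕜 (Submodule F V → 𝕜)))
  refine ⟨?_, ?_, ?_⟩
  · intro f hf
    rw [Rad_Kk_eq hcoef] at hf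
    obtain ⟨c, hc, rfl⟩ := hf
    obtain ⟨s, rfl⟩ := (hκ c hc.1 hc.2).eq_smul hc.1
    rw [map_smul, dn_cst, smul_smul]
    exact isC_smul _ _
  · intro hne
    have hT : TT 𝕜 B i = ⊥ := by
      rw [eq_bot_iff]
      rintro c ⟨hc, hc'⟩
      obtain ⟨s, rfl⟩ := (hκ c hc hc').eq_smul hc
      have h1 : dd B i (dn B (i + 2) (s • cst 𝕜 B i)) = 0 := hc'
      rw [map_smul, map_smul, dn_cst, map_smul, dd_cst, smul_smul, smul_smul,
        smul_eq_zero] at h1
      rcases h1 with h1 | h1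
      · have h2 := (mul_eq_zero.1 h1).resolve_left
        rcases mul_eq_zero.1 h1 with h3 | h3
        · rw [(mul_eq_zero.1 h3).resolve_right hg, zero_smul]; exact Submodule.zero_mem _
        · exact absurd h3 hne
      · exact absurd h1 (cst_ne (by omega))
    rw [hT, finrank_bot] at hR
    rw [DK, hR]
    omega
  · intro he
    have hT : TT 𝕜 B i = span 𝕜 {cst 𝕜 B i} := by
      apply le_antisymm
      · rintro c ⟨hc, hc'⟩
        obtain ⟨s, rfl⟩ := (hκ c hc hc').eq_smul hc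
        exact Submodule.smul_mem _ _ (mem_span_singleton_self _)
      · rw [Submodule.span_singleton_le_iff_mem]
        refine mem_TT.2 ⟨cst_Mo _, ?_⟩
        rw [dn_cst, map_smul, dd_cst, he, zero_smul, smul_zero]
    rw [hT, finrank_span_singleton (cst_ne (by omega))] at hR
    rw [hR] at hle
    rw [DK, hR]
    omega

theorem DK_one (B : Submodule F V) : DK 𝕜 B 1 (gz (Nat.card F) (finrank F B) 1) := by
  have h1 : (Kk B 1 : Submodule 𝕜 (Submodule F V → 𝕜)) = Mo B 1 := by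
    ext f
    exact ⟨fun h => h.1, fun h => ⟨h, fun Z hZ => by omega⟩⟩
  have h2 : Rad (Kk B 1 : Submodule 𝕜 (Submodule F V → 𝕜)) = ⊥ := by
    rw [eq_bot_iff, h1]
    rintro f ⟨hf, hf'⟩
    exact Mo_perp hf hf'
  rw [DK, h2, finrank_bot, h1, finrank_Mo, zero_add]

theorem isC_zero (f : Submodule F V → 𝕜) : IsC B 0 f := by
  rintro W W' ⟨_, hW⟩ ⟨_, hW'⟩
  rw [Submodule.finrank_eq_zero.1 hW, Submodule.finrank_eq_zero.1 hW']

theorem DK_two (hm : 2 ≤ finrank F B) :
    (∀ f ∈ (Rad (Kk B 2) : Submodule 𝕜 (Submodule F V → 𝕜)), IsC B 2 f) ∧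
    (gz (Nat.card F : 𝕜) (finrank F B) 2 ≠ 0 → DK 𝕜 B 2
      (gz (Nat.card F) (finrank F B) 2 - 1)) ∧
    (gz (Nat.card F : 𝕜) (finrank F B) 2 = 0 → DK 𝕜 B 2
      (gz (Nat.card F) (finrank F B) 2 - 1 - 1)) := by
  have h := DK_main (𝕜 := 𝕜) (B := B) (i := 0) (by omega) (fun c _ _ => isC_zero c)
    (by simp) (by omega)
  simpa using h

theorem up_dn_self {i : ℕ} {s t : 𝕜} {c : Submodule F V → 𝕜} (hc : c ∈ Mo B i)
    (hs : gz (Nat.card F : 𝕜) (finrank F B - i) 2 = s)
    (ht : ∀ r, i < r → r ≤ 2 * i → r ≤ i + 2 ∧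
      gz (Nat.card F : 𝕜) (finrank F B - r) (i + 2 - r) = t)
    {Z : Submodule F V} (hZ : Z ≤ B ∧ finrank F Z = i) :
    up (dn B (i + 2) c) Z = (s - t) * c Z + t * ∑ Y, c Y := by
  rw [up_dn hc hZ.1 rfl]
  have h1 : ∀ Y, c Y * (if finrank F (Z ⊔ Y : Submodule F V) ≤ i + 2 then
      gz (Nat.card F : 𝕜) (finrank F B - finrank F (Z ⊔ Y : Submodule F V))
        (i + 2 - finrank F (Z ⊔ Y : Submodule F V)) else 0) =
      (if Y = Z then (s - t) * c Y else 0) + t * c Y := by
    intro Y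
    by_cases h2 : c Y = 0
    · simp [h2]
    · have hY := hc Y h2
      by_cases h3 : Y = Z
      · subst h3
        rw [sup_idem, if_pos rfl, if_pos (by omega), hY.2]
        have : i + 2 - i = 2 := by omega
        rw [this, hs]
        ring
      · have h4 : Z < Z ⊔ Y := by
          refine lt_of_le_of_ne le_sup_left fun h => h3 ?_
          have h5 : Y ≤ Z := by rw [h]; exact le_sup_right
          exact Submodule.eq_of_le_of_finrank_eq h5 (by rw [hY.2, hZ.2])
        have h6 := Submodule.finrank_lt_finrank_of_lt h4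
        have h7 := Submodule.finrank_add_le_finrank_add_finrank Z Y
        have h8 := ht (finrank F (Z ⊔ Y : Submodule F V)) (by omega) (by omega)
        rw [if_neg h3, if_pos h8.1, h8.2]
        ring
  simp_rw [h1]
  rw [Finset.sum_add_distrib, ← Finset.mul_sum, Finset.sum_ite_eq' Finset.univ Z]
  simp

theorem DK_63 (hq1 : (Nat.card F : 𝕜) = -1) (h2 : (2 : 𝕜) ≠ 0) (hm : finrank F B = 6) :
    (∀ f ∈ (Rad (Kk B 3) : Submodule 𝕜 (Submodule F V → 𝕜)), IsC B 3 f) ∧
    DK 𝕜 B 3 (gz (Nat.card F) 6 3 - gz (Nat.card F) 6 1) := by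
  have h := DK_main (𝕜 := 𝕜) (B := B) (i := 1) ?_ ?_ ?_ (by omega)
  · refine ⟨h.1, ?_⟩
    have h3 := h.2.1 ?_
    · rw [hm] at h3; exact h3
    · rw [hm, hq1, gz_neg_cast]
      simpa [gz] using h2
  · intro i' hi'
    have : i' = 0 := by omega
    subst this
    rw [hq1, gz_neg_cast]
    simp [gz]
  · intro c hc h0 W W' hW hW'
    have key : ∀ Z, (Z ≤ B ∧ finrank F Z = 1) → c Z = 0 := by
      intro Z hZ
      have h3 := congrFun h0 Z
      rw [dd_apply, if_pos hZ, up_dn_self (s := 2) (t := 0) hc ?_ ?_ hZ, Pi.zero_apply] at h3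
      · rw [sub_zero, zero_mul, add_zero] at h3
        exact (mul_eq_zero.1 h3).resolve_left h2
      · rw [hm, hq1, gz_neg_cast]; simp [gz]
      · intro r hr1 hr2
        have : r = 2 := by omega
        subst this
        refine ⟨by omega, ?_⟩
        rw [hm, hq1, gz_neg_cast]; simp [gz]
    rw [key W hW, key W' hW']
  · rw [hq1, gz_neg_cast]; simp [gz]

theorem DK_84 (hq1 : (Nat.card F : 𝕜) = -1) (h3 : (3 : 𝕜) = 0) (hm : finrank F B = 8) :
    (∀ f ∈ (Rad (Kk B 4) : Submodule 𝕜 (Submodule F V → 𝕜)), IsC B 4 f) ∧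
    DK 𝕜 B 4 (gz (Nat.card F) 8 4 - gz (Nat.card F) 8 2 - 1) := by
  have h2 : (2 : 𝕜) ≠ 0 := by
    intro h
    have : (1 : 𝕜) = 0 := by linear_combination h3 - h
    exact one_ne_zero this
  have h := DK_main (𝕜 := 𝕜) (B := B) (i := 2) ?_ ?_ ?_ (by omega)
  · refine ⟨h.1, ?_⟩
    have h4 := h.2.2 ?_
    · rw [hm] at h4; exact h4
    · rw [hm, hq1, gz_neg_cast]
      simpa [gz] using h3
  · intro i' hi'
    have : i' = 0 ∨ i' = 1 := by omega
    rcases this with rfl | rfl
    · rw [hq1, gz_neg_cast]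
      simpa [gz] using h2
    · rw [hq1, gz_neg_cast]
      simp [gz]
  · intro c hc h0 W W' hW hW'
    have key : ∀ Z, (Z ≤ B ∧ finrank F Z = 2) → 2 * c Z = - ∑ Y, c Y := by
      intro Z hZ
      have h4 := congrFun h0 Z
      rw [dd_apply, if_pos hZ, up_dn_self (s := 3) (t := 1) hc ?_ ?_ hZ, Pi.zero_apply] at h4
      · linear_combination h4
      · rw [hm, hq1, gz_neg_cast]; simp [gz]
      · intro r hr1 hr2
        have : r = 3 ∨ r = 4 := by omega
        refine ⟨by omega, ?_⟩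
        rcases this with rfl | rfl
        · rw [hm, hq1, gz_neg_cast]; simp [gz]
        · rw [hm, hq1, gz_neg_cast]; simp [gz]
    have h5 : (2 : 𝕜) * (c W - c W') = 0 := by rw [mul_sub, key W hW, key W' hW', sub_self]
    exact sub_eq_zero.1 ((mul_eq_zero.1 h5).resolve_left h2)
  · rw [hq1, gz_neg_cast]; simpa [gz] using h2

theorem Mo_zero_rank : finrank 𝕜 (Mo A 0 : Submodule 𝕜 (Submodule F V → 𝕜)) = 1 := by
  rw [finrank_Mo, gz_zero]

theorem Sp_zero : (Sp A 0 : Submodule 𝕜 (Submodule F V → 𝕜)) = Mo A 0 := by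
  ext f
  exact ⟨fun h => h.1, fun h => ⟨h, fun Z hZ => by omega⟩⟩

theorem Rad_zero : Rad (Sp A 0 : Submodule 𝕜 (Submodule F V → 𝕜)) = ⊥ := by
  rw [eq_bot_iff, Sp_zero]
  rintro f ⟨hf, hf'⟩
  exact Mo_perp hf hf'

theorem Dm_zero : Dm 𝕜 A 0 1 := by
  rw [Dm, Rad_zero, finrank_bot, Sp_zero, Mo_zero_rank]

theorem Irr_zero : Irr 𝕜 A 0 := by
  intro U _ _ h2
  rw [Rad_zero]
  have h3 := Submodule.finrank_mono h2
  rw [Sp_zero, Mo_zero_rank] at h3
  rcases Nat.eq_zero_or_pos (finrank 𝕜 U) with h4 | h4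
  · left; exact Submodule.finrank_eq_zero.1 h4
  · right
    refine Submodule.eq_of_le_of_finrank_le h2 ?_
    rw [Sp_zero, Mo_zero_rank]; exact h4

end

end BrauerPP
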