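import Pool.Agent.Lib.MP_4b46f5_al.Cases

/-!
The irreducible quotients used for the three kinds of characteristics.
-/

open Module Submodule
open scoped Classical

set_option linter.unusedSectionVars false
set_option linter.unusedSimpArgs false

namespace BrauerPP

noncomputable section

variable {F V 𝕜 : Type*} [Field F] [AddCommGroup V] [Module F V] [Field 𝕜]
variable {A : Submodule F V}
variable [Fintype (Submodule F V)] [Finite V] [Finite F]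

theorem dm1_odd {ψ : AddChar F 𝕜} (hψ : ψ ≠ 1) (hq1 : (Nat.card F : 𝕜) = -1) {n : ℕ}
    (hn : finrank F A = n + 1) (he : Even n) :
    Dm 𝕜 A 1 (gz (Nat.card F) n 1 + (Nat.card F ^ n - 1) * 1) := by
  refine Dm_odd (j := 0) hψ hq1 hn he (Nat.zero_le _) (fun H _ hH => ?_) fun K _ _ => Dm_zero
  have := DK_one (𝕜 := 𝕜) H
  rwa [hH] at this

theorem dm1_even {ψ : AddChar F 𝕜} (hψ : ψ ≠ 1) (hq1 : (Nat.card F : 𝕜) = -1) {n : ℕ}
    (hn : finrank F A = n + 2) (he : Even n) :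
    Dm 𝕜 A 1 ((gz (Nat.card F) n 1 + (Nat.card F ^ n - 1) * 1) +
      (Nat.card F ^ (n + 1) - 1) * 1) :=
  Dm_even (j := 0) hψ hq1 hn (Even.add_one he) (Nat.zero_le _)
    (fun H _ hH => dm1_odd hψ hq1 hH he) fun K _ _ => Dm_zero

theorem dm2_odd {ψ : AddChar F 𝕜} (hψ : ψ ≠ 1) (hq1 : (Nat.card F : 𝕜) = -1) {n : ℕ}
    (hn : finrank F A = n + 3) (he : Even n) (h2 : gz (-1 : 𝕜) (n + 2) 2 ≠ 0) :
    Dm 𝕜 A 2 ((gz (Nat.card F) (n + 2) 2 - 1) + (Nat.card F ^ (n + 2) - 1) *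
      (gz (Nat.card F) n 1 + (Nat.card F ^ n - 1) * 1)) := by
  refine Dm_odd (j := 1) hψ hq1 hn (by
    rcases he with ⟨r, hr⟩; exact ⟨r + 1, by omega⟩) (by omega) (fun H _ hH => ?_)
    fun K _ hK => dm1_odd hψ hq1 (by omega) he
  have := (DK_two (𝕜 := 𝕜) (B := H) (by omega)).2.1
  rw [hH, hq1] at this
  exact this h2

theorem dm2_odd' {ψ : AddChar F 𝕜} (hψ : ψ ≠ 1) (hq1 : (Nat.card F : 𝕜) = -1) {n : ℕ}
    (hn : finrank F A = n + 3) (he : Even n) (h2 : gz (-1 : 𝕜) (n + 2) 2 = 0) :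
    Dm 𝕜 A 2 ((gz (Nat.card F) (n + 2) 2 - 1 - 1) + (Nat.card F ^ (n + 2) - 1) *
      (gz (Nat.card F) n 1 + (Nat.card F ^ n - 1) * 1)) := by
  refine Dm_odd (j := 1) hψ hq1 hn (by
    rcases he with ⟨r, hr⟩; exact ⟨r + 1, by omega⟩) (by omega) (fun H _ hH => ?_)
    fun K _ hK => dm1_odd hψ hq1 (by omega) he
  have := (DK_two (𝕜 := 𝕜) (B := H) (by omega)).2.2
  rw [hH, hq1] at this
  exact this h2

theorem inv2_odd {ψ : AddChar F 𝕜} (hψ : ψ ≠ 1) (hq1 : (Nat.card F : 𝕜) = -1) {n : ℕ}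
    (hn : finrank F A = n + 3) (he : Even n) : Inv 𝕜 A 2 := by
  refine Inv_odd (j := 0) hψ hq1 hn (by rcases he with ⟨r, hr⟩; exact ⟨r + 1, by omega⟩)
    (by omega) fun H _ hH => ?_
  exact (DK_two (𝕜 := 𝕜) (B := H) (by omega)).1

theorem irr1 {ψ : AddChar F 𝕜} (hψ : ψ ≠ 1) (hq1 : (Nat.card F : 𝕜) = -1)
    (hn : 3 ≤ finrank F A) : Irr 𝕜 A 1 := by
  have hq : (Nat.card F : 𝕜) ≠ 0 := by rw [hq1]; simp
  exact Irr_step hψ hq hn (fun K _ _ => Irr_zero) (Inv_one hq A)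

/-- degree for `p ≥ 5` -/
def deg5 (N t : ℕ) : ℕ :=
  ((gz N (2 * t + 4) 2 - 1) + (N ^ (2 * t + 4) - 1) *
      (gz N (2 * t + 2) 1 + (N ^ (2 * t + 2) - 1) * 1)) +
    (N ^ (2 * t + 5) - 1) * ((gz N (2 * t + 2) 1 + (N ^ (2 * t + 2) - 1) * 1) +
      (N ^ (2 * t + 2 + 1) - 1) * 1)

theorem main5 {ψ : AddChar F 𝕜} (hψ : ψ ≠ 1) (hq1 : (Nat.card F : 𝕜) = -1) {t : ℕ}
    (hn : finrank F A = 2 * t + 6) (h2 : gz (-1 : 𝕜) (2 * t + 4) 2 ≠ 0) :
    Irr 𝕜 A 2 ∧ Dm 𝕜 A 2 (deg5 (Nat.card F) t) := by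
  have hq : (Nat.card F : 𝕜) ≠ 0 := by rw [hq1]; simp
  have ho : Odd (2 * t + 5) := ⟨t + 2, by omega⟩
  have he : Even (2 * t + 2) := ⟨t + 1, by omega⟩
  constructor
  · refine Irr_step hψ hq (by omega) (fun K _ hK => irr1 hψ hq1 (by omega)) ?_
    exact Inv_even (j := 1) hψ hq1 hn ho (by omega) fun H _ hH =>
      inv2_odd (n := 2 * t + 2) hψ hq1 (by omega) he
  · refine Dm_even (j := 1) hψ hq1 hn ho (by omega) (fun H _ hH => ?_) fun K _ hK => ?_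
    · exact dm2_odd (n := 2 * t + 2) hψ hq1 (by omega) he h2
    · exact dm1_even (n := 2 * t + 2) hψ hq1 (by omega) he

/-- degree for `p = 2` -/
def deg2 (N : ℕ) : ℕ :=
  (gz N 4 2 - 1 - 1) + (N ^ 4 - 1) * (gz N 2 1 + (N ^ 2 - 1) * 1)

theorem main2 {ψ : AddChar F 𝕜} (hψ : ψ ≠ 1) (hq1 : (Nat.card F : 𝕜) = -1)
    (hn : finrank F A = 5) (h2 : (2 : 𝕜) = 0) :
    Irr 𝕜 A 2 ∧ Dm 𝕜 A 2 (deg2 (Nat.card F)) := by
  have hq : (Nat.card F : 𝕜) ≠ 0 := by rw [hq1]; simp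
  constructor
  · exact Irr_step hψ hq (by omega) (fun K _ hK => irr1 hψ hq1 (by omega))
      (inv2_odd (n := 2) hψ hq1 (by omega) (by decide))
  · refine dm2_odd' (n := 2) hψ hq1 (by omega) (by decide) ?_
    rw [gz_neg_cast]
    simpa [gz] using h2

/-- degree for `p = 3` -/
def e31 (N : ℕ) : ℕ := gz N 2 1 + (N ^ 2 - 1) * 1
/-- degree for `p = 3` -/
def e41 (N : ℕ) : ℕ := e31 N + (N ^ 3 - 1) * 1
/-- degree for `p = 3` -/
def e52 (N : ℕ) : ℕ := (gz N 4 2 - 1) + (N ^ 4 - 1) * e31 N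
/-- degree for `p = 3` -/
def e62 (N : ℕ) : ℕ := e52 N + (N ^ 5 - 1) * e41 N
/-- degree for `p = 3` -/
def e73 (N : ℕ) : ℕ := (gz N 6 3 - gz N 6 1) + (N ^ 6 - 1) * e52 N
/-- degree for `p = 3` -/
def e83 (N : ℕ) : ℕ := e73 N + (N ^ 7 - 1) * e62 N
/-- degree for `p = 3` -/
def e94 (N : ℕ) : ℕ := (gz N 8 4 - gz N 8 2 - 1) + (N ^ 8 - 1) * e73 N
/-- degree for `p = 3` -/
def deg3 (N : ℕ) : ℕ := e94 N + (N ^ 9 - 1) * e83 N

theorem main3 {ψ : AddChar F 𝕜} (hψ : ψ ≠ 1) (hq1 : (Nat.card F : 𝕜) = -1)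
    (hn : finrank F A = 10) (h3 : (3 : 𝕜) = 0) :
    Irr 𝕜 A 4 ∧ Dm 𝕜 A 4 (deg3 (Nat.card F)) := by
  have hq : (Nat.card F : 𝕜) ≠ 0 := by rw [hq1]; simp
  have h2 : (2 : 𝕜) ≠ 0 := by
    intro h
    have : (1 : 𝕜) = 0 := by linear_combination h3 - h
    exact one_ne_zero this
  have h422 : gz (-1 : 𝕜) (2 + 2) 2 ≠ 0 := by
    rw [gz_neg_cast]; simpa [gz] using h2
  -- dimensions
  have d31 : ∀ B : Submodule F V, finrank F B = 3 → Dm 𝕜 B 1 (e31 (Nat.card F)) :=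
    fun B hB => dm1_odd hψ hq1 (n := 2) hB (by decide)
  have d41 : ∀ B : Submodule F V, finrank F B = 4 → Dm 𝕜 B 1 (e41 (Nat.card F)) :=
    fun B hB => dm1_even hψ hq1 (n := 2) hB (by decide)
  have d52 : ∀ B : Submodule F V, finrank F B = 5 → Dm 𝕜 B 2 (e52 (Nat.card F)) :=
    fun B hB => dm2_odd hψ hq1 (n := 2) hB (by decide) h422
  have d62 : ∀ B : Submodule F V, finrank F B = 6 → Dm 𝕜 B 2 (e62 (Nat.card F)) :=
    fun B hB => Dm_even (j := 1) (n := 5) hψ hq1 hB (by decide) (by omega)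
      (fun H _ hH => d52 H hH) fun K _ hK => d41 K (by omega)
  have d73 : ∀ B : Submodule F V, finrank F B = 7 → Dm 𝕜 B 3 (e73 (Nat.card F)) :=
    fun B hB => Dm_odd (j := 2) (n := 6) hψ hq1 hB (by decide) (by omega)
      (fun H _ hH => (DK_63 hq1 h2 hH).2) fun K _ hK => d52 K (by omega)
  have d83 : ∀ B : Submodule F V, finrank F B = 8 → Dm 𝕜 B 3 (e83 (Nat.card F)) :=
    fun B hB => Dm_even (j := 2) (n := 7) hψ hq1 hB (by decide) (by omega)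
      (fun H _ hH => d73 H hH) fun K _ hK => d62 K (by omega)
  have d94 : ∀ B : Submodule F V, finrank F B = 9 → Dm 𝕜 B 4 (e94 (Nat.card F)) :=
    fun B hB => Dm_odd (j := 3) (n := 8) hψ hq1 hB (by decide) (by omega)
      (fun H _ hH => (DK_84 hq1 h3 hH).2) fun K _ hK => d73 K (by omega)
  -- invariants
  have i52 : ∀ B : Submodule F V, finrank F B = 5 → Inv 𝕜 B 2 :=
    fun B hB => inv2_odd (n := 2) hψ hq1 hB (by decide)
  have i62 : ∀ B : Submodule F V, finrank F B = 6 → Inv 𝕜 B 2 :=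
    fun B hB => Inv_even (j := 1) (n := 5) hψ hq1 hB (by decide) (by omega)
      fun H _ hH => i52 H hH
  have i73 : ∀ B : Submodule F V, finrank F B = 7 → Inv 𝕜 B 3 :=
    fun B hB => Inv_odd (j := 1) (n := 6) hψ hq1 hB (by decide) (by omega)
      fun H _ hH => (DK_63 hq1 h2 hH).1
  have i83 : ∀ B : Submodule F V, finrank F B = 8 → Inv 𝕜 B 3 :=
    fun B hB => Inv_even (j := 2) (n := 7) hψ hq1 hB (by decide) (by omega)
      fun H _ hH => i73 H hH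
  have i94 : ∀ B : Submodule F V, finrank F B = 9 → Inv 𝕜 B 4 :=
    fun B hB => Inv_odd (j := 2) (n := 8) hψ hq1 hB (by decide) (by omega)
      fun H _ hH => (DK_84 hq1 h3 hH).1
  have i104 : Inv 𝕜 A 4 := Inv_even (j := 3) (n := 9) hψ hq1 hn (by decide) (by omega)
      fun H _ hH => i94 H hH
  -- irreducibility
  have r62 : ∀ B : Submodule F V, finrank F B = 6 → Irr 𝕜 B 2 :=
    fun B hB => Irr_step hψ hq (by omega) (fun K _ hK => irr1 hψ hq1 (by omega)) (i62 B hB)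
  have r83 : ∀ B : Submodule F V, finrank F B = 8 → Irr 𝕜 B 3 :=
    fun B hB => Irr_step hψ hq (by omega) (fun K _ hK => r62 K (by omega)) (i83 B hB)
  refine ⟨Irr_step hψ hq (by omega) (fun K _ hK => r83 K (by omega)) i104, ?_⟩
  exact Dm_even (j := 3) (n := 9) hψ hq1 hn (by decide) (by omega)
      (fun H _ hH => d94 H hH) fun K _ hK => d83 K (by omega)

end

end BrauerPP
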