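import Pool.Agent.Lib.MP_4b46f5_al.Dim

/-!
Functions invariant under transvections are constant; consequences for invariants.
-/

open Module Submodule
open scoped Classical

set_option linter.unusedSectionVars false
set_option linter.unusedSimpArgs false

namespace BrauerPP

noncomputable section

variable {F V 𝕜 : Type*} [Field F] [AddCommGroup V] [Module F V] [Field 𝕜]
variable {A B : Submodule F V} {l : Dual F V} {v0 : V}
variable [Fintype (Submodule F V)] [Finite V] [Finite F]

theorem isC_of_inv {k : ℕ} {a : Submodule F V → 𝕜}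
    (H : ∀ (l : Dual F V) (h : V) (hl : l h = 0), h ∈ B → ∀ W : Submodule F V,
      W ≤ B ∧ finrank F W = k → a (mp (tv l h hl) W) = a W) : IsC B k a := by
  have key : ∀ (d : ℕ) (W W' : Submodule F V), (W ≤ B ∧ finrank F W = k) →
      (W' ≤ B ∧ finrank F W' = k) → finrank F (W ⊓ W' : Submodule F V) + d = k →
      a W = a W' := by
    intro d
    induction d using Nat.strong_induction_on with
    | _ d ih =>
    intro W W' hW hW' hd
    by_cases hWW : W = W'
    · rw [hWW]
    · have h1 : ¬ W ≤ W' := fun h =>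
        hWW (Submodule.eq_of_le_of_finrank_eq h (by rw [hW.2, hW'.2]))
      have h2 : ¬ W' ≤ W := fun h =>
        hWW (Submodule.eq_of_le_of_finrank_eq h (by rw [hW.2, hW'.2])).symm
      obtain ⟨w, hw, hw'⟩ := SetLike.not_le_iff_exists.1 h1
      obtain ⟨w', hw1, hw1'⟩ := SetLike.not_le_iff_exists.1 h2
      have h3 : w ∉ (W ⊓ W') ⊔ span F {w' - w} := by
        intro h4
        obtain ⟨y, hy, z, hz, hyz⟩ := Submodule.mem_sup.1 h4
        obtain ⟨c, rfl⟩ := Submodule.mem_span_singleton.1 hz
        by_cases hc : c = 0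
        · rw [hc, zero_smul, add_zero] at hyz
          rw [← hyz] at hw'
          exact hw' hy.2
        · apply hw1'
          have h5 : w' = c⁻¹ • ((w - y) + c • w) := by
            rw [← hyz]
            have : y + c • (w' - w) - y + c • (y + c • (w' - w)) =
              c • (w' - w) + c • (y + c • (w' - w)) := by abel
            rw [this, hyz, ← smul_add, smul_smul, inv_mul_cancel₀ hc, one_smul]
            abel
          rw [h5]
          exact W.smul_mem _ (W.add_mem (W.sub_mem hw hy.1) (W.smul_mem _ hw))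
      obtain ⟨μ', hμ1, hμ2⟩ := Submodule.exists_le_ker_of_notMem h3
      set μ : Dual F V := (μ' w)⁻¹ • μ' with hμ
      have hμw : μ w = 1 := by simp [hμ, hμ1]
      have hμ0 : ∀ x ∈ (W ⊓ W') ⊔ span F {w' - w}, μ x = 0 := by
        intro x hx
        have : μ' x = 0 := hμ2 hx
        simp [hμ, this]
      have hμc : μ (w' - w) = 0 :=
        hμ0 _ ((le_sup_right : span F {w' - w} ≤ _) (mem_span_singleton_self _))
      have hcB : w' - w ∈ B := B.sub_mem (hW'.1 hw1) (hW.1 hw)
      set τ := tv μ (w' - w) hμc with hτ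
      have hW2 : mp τ W ≤ B ∧ finrank F (mp τ W) = k := by
        rw [hτ, mp_tv_le hμc hcB, finrank_mp]; exact hW
      have hτw : τ w = w' := by rw [hτ, tv_apply, hμw, one_smul]; abel
      have hsub : (W ⊓ W') ⊔ span F {w'} ≤ mp τ W ⊓ W' := by
        apply sup_le
        · intro x hx
          refine ⟨?_, hx.2⟩
          have h6 : τ x = x := by
            rw [hτ, tv_apply, hμ0 x ((le_sup_left : W ⊓ W' ≤ _) hx), zero_smul, add_zero]
          rw [← h6]
          exact Submodule.mem_map_of_mem hx.1
        · rw [Submodule.span_singleton_le_iff_mem]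
          refine ⟨?_, hw1⟩
          rw [← hτw]
          exact Submodule.mem_map_of_mem hw
      have hrk : finrank F ((W ⊓ W') ⊔ span F {w'} : Submodule F V) =
          finrank F (W ⊓ W' : Submodule F V) + 1 :=
        finrank_sup_span_singleton fun h => hw1' h.1
      have h7 := Submodule.finrank_mono hsub
      have h8 : finrank F (mp τ W ⊓ W' : Submodule F V) ≤ k := by
        rw [← hW'.2]; exact Submodule.finrank_mono inf_le_right
      have h9 : a (mp τ W) = a W := H μ (w' - w) hμc hcB W hW
      rw [← h9]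
      exact ih (k - finrank F (mp τ W ⊓ W' : Submodule F V)) (by omega) _ _ hW2 hW' (by omega)
  intro W W' hW hW'
  have h8 : finrank F (W ⊓ W' : Submodule F V) ≤ k := by
    rw [← hW.2]; exact Submodule.finrank_mono inf_le_left
  exact key (k - finrank F (W ⊓ W' : Submodule F V)) W W' hW hW' (by omega)

theorem inv_of_const {k : ℕ} {S : Submodule 𝕜 (Submodule F V → 𝕜)} (hSM : S ≤ Mo B k)
    (hq : (Nat.card F : 𝕜) ≠ 0)
    (hS0 : ∀ g ∈ S, up g ⊥ = 0) (hR : ∀ f ∈ Rad S, IsC B k f) {a : Submodule F V → 𝕜}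
    (ha : a ∈ S) (hinv : ∀ (l : Dual F V) (h : V) (hl : l h = 0), h ∈ B →
      act (tv l h hl) a - a ∈ Rad S) : a ∈ Rad S := by
  have h1 : ∀ (l : Dual F V) (h : V) (hl : l h = 0), h ∈ B → ∀ W : Submodule F V,
      W ≤ B ∧ finrank F W = k → a (mp (tv l h hl) W) = a W := by
    intro l h hl hh W hW
    set c := a (mp (tv l h hl) W) - a W with hc
    have hcc : ∀ W', W' ≤ B ∧ finrank F W' = k → a (mp (tv l h hl) W') = a W' + c := by
      intro W' hW'
      have h2 := hR _ (hinv l h hl hh) W' W hW' hW
      simp only [Pi.sub_apply, act_apply] at h2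
      rw [hc, ← h2]; ring
    have hi : ∀ i : ℕ, ∀ W', W' ≤ B ∧ finrank F W' = k →
        a (mp (tv l ((i : F) • h) (by simp [hl])) W') = a W' + i * c := by
      intro i
      induction i with
      | zero =>
        intro W' _
        have : tv l (((0 : ℕ) : F) • h) (by simp [hl]) = LinearEquiv.refl F V := by
          ext v; simp
        rw [this, mp_refl]; simp
      | succ i ih =>
        intro W' hW'
        have h3 : mp (tv l (((i + 1 : ℕ) : F) • h) (by simp [hl])) W' =
            mp (tv l h hl) (mp (tv l ((i : F) • h) (by simp [hl])) W') := by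
          rw [mp_mp]
          congr 1
          ext v
          rw [LinearEquiv.trans_apply, tv_apply, tv_apply, tv_apply, map_add, map_smul, map_smul,
            hl, smul_zero, smul_zero, add_zero]
          push_cast
          module
        have h4 : mp (tv l ((i : F) • h) (by simp [hl])) W' ≤ B ∧
            finrank F (mp (tv l ((i : F) • h) (by simp [hl])) W') = k := by
          rw [mp_tv_le (by simp [hl]) (B.smul_mem _ hh), finrank_mp]; exact hW'
        rw [h3, hcc _ h4, ih W' hW']
        push_cast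
        ring
    have h5 := hi (Nat.card F) W hW
    have h6 : ((Nat.card F : ℕ) : F) = 0 := by
      have := Fintype.ofFinite F
      rw [Nat.card_eq_fintype_card]; exact Nat.cast_card_eq_zero F
    have h7 : tv l (((Nat.card F : ℕ) : F) • h) (by simp [hl]) = LinearEquiv.refl F V := by
      ext v; simp [h6]
    rw [h7, mp_refl] at h5
    have h8 : (Nat.card F : 𝕜) * c = 0 := by linear_combination -h5
    have h9 := (mul_eq_zero.1 h8).resolve_left hq
    rw [hc] at h9
    exact sub_eq_zero.1 h9
  obtain ⟨c, hc⟩ := (isC_of_inv h1).eq_smul (hSM ha)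
  refine ⟨ha, fun g hg => ?_⟩
  rw [hc, pr_smul_left, pr_cst (hSM hg), hS0 g hg, mul_zero]

theorem Inv_one (hq : (Nat.card F : 𝕜) ≠ 0) (B : Submodule F V) : Inv 𝕜 B 1 := by
  intro f hf hinv
  refine inv_of_const (B := B) (k := 1) (S := Sp B 1) (fun g hg => hg.1) hq
    (fun g hg => hg.2 ⊥ (by simp)) ?_ hf hinv
  intro g hg W W' hW hW'
  have h1 : dl 𝕜 W - dl 𝕜 W' ∈ Sp B 1 := by
    refine ⟨Submodule.sub_mem _ (dl_Mo hW) (dl_Mo hW'), fun Z hZ => ?_⟩
    have hZ0 : Z = ⊥ := Submodule.finrank_eq_zero.1 (by omega)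
    have h2 : ∀ W : Submodule F V, up (dl 𝕜 W) ⊥ = 1 := by
      intro W
      rw [up_apply, Finset.sum_eq_single W]
      · simp [dl]
      · intro W' _ h; simp [dl, h]
      · intro h; exact absurd (Finset.mem_univ _) h
    rw [hZ0, map_sub, Pi.sub_apply, h2, h2, sub_self]
  have h2 := hg.2 _ h1
  rw [pr_sub_right, pr_dl, pr_dl] at h2
  exact sub_eq_zero.1 h2

theorem Inv_odd {ψ : AddChar F 𝕜} (hψ : ψ ≠ 1) (hq1 : (Nat.card F : 𝕜) = -1)
    {j n : ℕ} (hn : finrank F A = n + 1) (heven : Even n) (hj : j + 1 ≤ n)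
    (h1 : ∀ H : Submodule F V, H ≤ A → finrank F H = n →
      ∀ f ∈ (Rad (Kk H (j + 2)) : Submodule 𝕜 (Submodule F V → 𝕜)), IsC H (j + 2) f) :
    Inv 𝕜 A (j + 2) := by
  have hq : (Nat.card F : 𝕜) ≠ 0 := by rw [hq1]; simp
  obtain ⟨l, v0, hD⟩ := exists_HD (A := A) (by omega)
  have hfr := hD.finrank_hy
  have hH : finrank F (hy A l) = n := by omega
  have hc := cc_even (𝕜 := 𝕜) hq1 (B := hy A l) (j := j + 1) (hH.symm ▸ heven) (hH.symm ▸ hj)
  refine Inv_reduce hψ hq hD fun a ha hinv => ?_
  rw [RB_eq_Rad hc] at hinv ⊢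
  refine inv_of_const (B := hy A l) (k := j + 2) (S := Kk (hy A l) (j + 2)) (fun g hg => hg.1) hq
    (fun g hg => hg.2 ⊥ (by simp)) (h1 _ inf_le_left hH) ha hinv

end

end BrauerPP
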