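import Pool.Agent.Lib.MP_4b46f5_al.Step

/-!
Counting subspaces.
-/

open Module Submodule
open scoped Classical

set_option linter.unusedSectionVars false
set_option linter.unusedSimpArgs false

namespace BrauerPP

noncomputable section

variable {F V 𝕜 : Type*} [Field F] [AddCommGroup V] [Module F V] [Field 𝕜]

/-- Gaussian binomial coefficients, by recursion -/
def gz {R : Type*} [Semiring R] (q : R) : ℕ → ℕ → R
  | _, 0 => 1
  | 0, _ + 1 => 0
  | n + 1, k + 1 => gz q n (k + 1) + q ^ (n - k) * gz q n k

@[simp] theorem gz_zero {R : Type*} [Semiring R] (q : R) (n : ℕ) : gz q n 0 = 1 := by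
  cases n <;> rfl

@[simp] theorem gz_zero_succ {R : Type*} [Semiring R] (q : R) (k : ℕ) : gz q 0 (k + 1) = 0 := rfl

theorem gz_succ {R : Type*} [Semiring R] (q : R) (n k : ℕ) :
    gz q (n + 1) (k + 1) = gz q n (k + 1) + q ^ (n - k) * gz q n k := rfl

theorem gz_of_lt {R : Type*} [Semiring R] (q : R) {n k : ℕ} (h : n < k) : gz q n k = 0 := by
  induction n generalizing k with
  | zero => cases k with
    | zero => omega
    | succ k => rfl
  | succ n ih => cases k with
    | zero => omega
    | succ k => rw [gz_succ, ih (by omega), ih (by omega)]; simp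

theorem gz_cast {R : Type*} [Semiring R] (q : ℕ) (n k : ℕ) :
    ((gz q n k : ℕ) : R) = gz (q : R) n k := by
  induction n generalizing k with
  | zero => cases k <;> simp
  | succ n ih => cases k with
    | zero => simp
    | succ k => rw [gz_succ, gz_succ, Nat.cast_add, Nat.cast_mul, Nat.cast_pow, ih, ih]

theorem gz_self {R : Type*} [Semiring R] (q : R) (n : ℕ) : gz q n n = 1 := by
  induction n with
  | zero => rfl
  | succ n ih => rw [gz_succ, gz_of_lt q (by omega), ih]; simp

theorem gz_one {R : Type*} [Semiring R] (q : R) (n : ℕ) :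
    gz q n 1 = ∑ i ∈ Finset.range n, q ^ i := by
  induction n with
  | zero => rfl
  | succ n ih => rw [gz_succ, ih, Finset.sum_range_succ]; simp

theorem gz_pred {R : Type*} [Semiring R] (q : R) (n : ℕ) :
    gz q (n + 1) n = ∑ i ∈ Finset.range (n + 1), q ^ i := by
  induction n with
  | zero => simp
  | succ n ih =>
    rw [gz_succ, gz_self, ih, Finset.sum_range_succ' _ (n + 1)]
    have : n + 1 - n = 1 := by omega
    rw [this, pow_one, Finset.mul_sum]
    simp only [pow_zero]
    rw [add_comm]
    congr 1
    exact Finset.sum_congr rfl fun i _ => by rw [pow_succ']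

section fin
variable [Fintype (Submodule F V)] [Finite V] [Finite F]

theorem sum_const_x {A : Submodule F V} {l : Dual F V} (N : ℕ) :
    ∑ _x : hy A l, N = Nat.card (hy A l) * N := by
  rw [Finset.sum_const, Finset.card_univ, smul_eq_mul, Nat.card_eq_fintype_card]

/-- number of subspaces of given dimension in an interval -/
theorem card_interval (Z : Submodule F V) (n : ℕ) : ∀ (B : Submodule F V), Z ≤ B →
    finrank F B = finrank F Z + n → ∀ k : ℕ,
    (Finset.univ.filter (fun Y : Submodule F V => Z ≤ Y ∧ Y ≤ B ∧ finrank F Y = finrank F Z + k)).card =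
      gz (Nat.card F) n k := by
  induction n with
  | zero =>
    intro B hZB hB k
    have hBZ : Z = B := Submodule.eq_of_le_of_finrank_eq hZB (by omega)
    subst hBZ
    cases k with
    | zero =>
      rw [gz_zero, Finset.card_eq_one]
      refine ⟨Z, ?_⟩
      ext Y
      simp only [Finset.mem_filter, Finset.mem_univ, true_and, Finset.mem_singleton]
      constructor
      · rintro ⟨h1, h2, _⟩; exact le_antisymm h2 h1
      · rintro rfl; exact ⟨le_rfl, le_rfl, by omega⟩
    | succ k =>
      rw [gz_zero_succ, Finset.card_eq_zero, Finset.filter_eq_empty_iff]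
      rintro Y _ ⟨h1, h2, h3⟩
      rw [le_antisymm h2 h1] at h3
      omega
  | succ n ih =>
    intro B hZB hB k
    cases k with
    | zero =>
      rw [gz_zero, Finset.card_eq_one]
      refine ⟨Z, ?_⟩
      ext Y
      simp only [Finset.mem_filter, Finset.mem_univ, true_and, Finset.mem_singleton]
      constructor
      · rintro ⟨h1, _, h3⟩
        exact (Submodule.eq_of_le_of_finrank_eq h1 (by omega)).symm
      · rintro rfl; exact ⟨le_rfl, hZB, by omega⟩
    | succ k =>
      have hlt : Z < B := lt_of_le_of_ne hZB (by rintro rfl; omega)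
      obtain ⟨v, hvB, hvZ⟩ := SetLike.exists_of_lt hlt
      obtain ⟨l', hl'v, hl'Z⟩ := Submodule.exists_le_ker_of_notMem hvZ
      set l : Dual F V := (l' v)⁻¹ • l' with hl
      have hlv : l v = 1 := by simp [hl, hl'v]
      have hlZ : Z ≤ LinearMap.ker l := by
        intro z hz
        have : l' z = 0 := hl'Z hz
        simp [hl, LinearMap.mem_ker, this]
      have hD : HD B l v := ⟨hvB, hlv⟩
      have hfH := hD.finrank_hy
      have hZH : Z ≤ hy B l := le_inf hZB hlZ
      have ih1 := ih (hy B l) hZH (by omega) (k + 1)
      have ih2 := ih (hy B l) hZH (by omega) k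
      have hsplit : (Finset.univ.filter (fun Y : Submodule F V =>
          Z ≤ Y ∧ Y ≤ B ∧ finrank F Y = finrank F Z + (k + 1))).card =
          (Finset.univ.filter (fun Y : Submodule F V =>
            Z ≤ Y ∧ Y ≤ hy B l ∧ finrank F Y = finrank F Z + (k + 1))).card +
          (Finset.univ.filter (fun Y : Submodule F V =>
            (Y ≤ B ∧ ¬ Y ≤ LinearMap.ker l) ∧ (Z ≤ Y ∧ finrank F Y = finrank F Z + (k + 1)))).card := by
        rw [← Finset.card_filter_add_card_filter_not (fun Y => Y ≤ LinearMap.ker l),
          Finset.filter_filter, Finset.filter_filter]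
        congr 2
        · ext Y
          simp only [Finset.mem_filter, Finset.mem_univ, true_and, le_inf_iff]
          tauto
        · ext Y
          simp only [Finset.mem_filter, Finset.mem_univ, true_and]
          tauto
      have hdc := hD.dc (fun W : Submodule F V =>
        if Z ≤ W ∧ finrank F W = finrank F Z + (k + 1) then (1 : ℕ) else 0)
      have hL : (∑ W with W ≤ B ∧ ¬ W ≤ LinearMap.ker l,
          Nat.card (W ⊓ LinearMap.ker l : Submodule F V) •
            (if Z ≤ W ∧ finrank F W = finrank F Z + (k + 1) then (1 : ℕ) else 0)) =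
          Nat.card F ^ (finrank F Z + k) *
            (Finset.univ.filter (fun Y : Submodule F V =>
            (Y ≤ B ∧ ¬ Y ≤ LinearMap.ker l) ∧
              (Z ≤ Y ∧ finrank F Y = finrank F Z + (k + 1)))).card := by
        rw [Finset.card_filter, Finset.mul_sum, Finset.sum_filter]
        refine Finset.sum_congr rfl fun W _ => ?_
        by_cases h1 : W ≤ B ∧ ¬ W ≤ LinearMap.ker l
        · by_cases h2 : Z ≤ W ∧ finrank F W = finrank F Z + (k + 1)
          · rw [if_pos h1, if_pos h2, if_pos ⟨h1, h2⟩, smul_eq_mul,
              Module.natCard_eq_pow_finrank (K := F)]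
            have := finrank_inf_ker h1.2
            congr 2
            omega
          · rw [if_pos h1, if_neg h2, if_neg (fun h => h2 h.2)]; simp
        · rw [if_neg h1, if_neg (fun h => h1 h.1)]; simp
      have hR : ∀ x : hy B l, (∑ Y with Y ≤ hy B l,
          (if Z ≤ mp (tx B l x) (Y ⊔ span F {v}) ∧
            finrank F (mp (tx B l x) (Y ⊔ span F {v})) = finrank F Z + (k + 1)
            then (1 : ℕ) else 0)) = gz (Nat.card F) n k := by
        intro x
        rw [← ih2, Finset.card_filter, Finset.sum_filter]
        refine Finset.sum_congr rfl fun Y _ => ?_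
        by_cases h1 : Y ≤ hy B l
        · have hYl : Y ≤ LinearMap.ker l := h1.trans inf_le_right
          have h2 : Z ≤ mp (tx B l x) (Y ⊔ span F {v}) ↔ Z ≤ Y := by
            constructor
            · intro h
              have h3 : Z ≤ mp (tx B l x) (Y ⊔ span F {v}) ⊓ LinearMap.ker l := le_inf h hlZ
              rwa [mp_tx_inf, sup_inf_ker hlv hYl] at h3
            · intro h
              have h3 : Z ≤ mp (tx B l x) (Y ⊔ span F {v}) ⊓ LinearMap.ker l := by
                rw [mp_tx_inf, sup_inf_ker hlv hYl]; exact h
              exact h3.trans inf_le_left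
          rw [if_pos h1, h2, finrank_mp, finrank_sup_span hlv hYl]
          have h4 : (finrank F Y + 1 = finrank F Z + (k + 1)) ↔ finrank F Y = finrank F Z + k := by
            omega
          simp only [h4, h1, true_and]
        · rw [if_neg h1, if_neg (fun h => h1 h.2.1)]
      rw [hL] at hdc
      simp_rw [hR] at hdc
      rw [sum_const_x, Module.natCard_eq_pow_finrank (K := F) (V := hy B l)] at hdc
      rw [hsplit, ih1, gz_succ]
      congr 1
      by_cases hkn : k ≤ n
      · have h5 : finrank F (hy B l) = (finrank F Z + k) + (n - k) := by omega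
        have h6 : Nat.card F ^ finrank F (hy B l) * gz (Nat.card F) n k =
            Nat.card F ^ (finrank F Z + k) * (Nat.card F ^ (n - k) * gz (Nat.card F) n k) := by
          rw [h5, pow_add]; ring
        rw [h6] at hdc
        exact Nat.eq_of_mul_eq_mul_left (pow_pos Nat.card_pos _) hdc
      · rw [gz_of_lt _ (by omega : n < k), mul_zero] at hdc ⊢
        rcases Nat.mul_eq_zero.1 hdc with h6 | h6
        · exact absurd h6 (pow_pos Nat.card_pos _).ne'
        · exact h6

/-- `𝕜`-valued form of the interval count -/
theorem sum_interval {Z B : Submodule F V} {i k : ℕ} (hZB : Z ≤ B) (hi : finrank F Z + i = k)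
    (q : 𝕜) (hq : (Nat.card F : 𝕜) = q) :
    (∑ Y : Submodule F V, if Z ≤ Y ∧ Y ≤ B ∧ finrank F Y = k then (1 : 𝕜) else 0) =
      gz q (finrank F B - finrank F Z) i := by
  have h := card_interval Z (finrank F B - finrank F Z) B hZB
    (by have := Submodule.finrank_mono hZB; omega) i
  rw [Finset.sum_boole, ← hq, ← gz_cast, ← h]
  simp only [hi]

end fin

end

end BrauerPP
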