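import Pool.Agent.Lib.MP_4b46f5_al.Perp

/-!
The recursions for dimensions and invariants when the field order is `-1` in `𝕜`.
-/

open Module Submodule
open scoped Classical

set_option linter.unusedSectionVars false
set_option linter.unusedSimpArgs false

namespace BrauerPP

noncomputable section

variable {F V 𝕜 : Type*} [Field F] [AddCommGroup V] [Module F V] [Field 𝕜]
variable {A : Submodule F V} {l : Dual F V} {v0 : V}
variable [Fintype (Submodule F V)] [Finite V] [Finite F]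

/-- the quotient of `Sp A k` by its radical has dimension `δ` -/
def Dm (𝕜 : Type*) [Field 𝕜] (A : Submodule F V) (k δ : ℕ) : Prop :=
  finrank 𝕜 (Sp A k : Submodule 𝕜 (Submodule F V → 𝕜)) =
    finrank 𝕜 (Rad (Sp A k) : Submodule 𝕜 (Submodule F V → 𝕜)) + δ

/-- the quotient of `Kk A k` by its radical has dimension `δ` -/
def DK (𝕜 : Type*) [Field 𝕜] (A : Submodule F V) (k δ : ℕ) : Prop :=
  finrank 𝕜 (Kk A k : Submodule 𝕜 (Submodule F V → 𝕜)) =
    finrank 𝕜 (Rad (Kk A k) : Submodule 𝕜 (Submodule F V → 𝕜)) + δ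

theorem Dm_general {ψ : AddChar F 𝕜} (hψ : ψ ≠ 1) (hq : (Nat.card F : 𝕜) ≠ 0)
    (hD : HD A l v0) {j δT δ2 : ℕ}
    (hT : finrank 𝕜 (Kk (hy A l) (j + 1) : Submodule 𝕜 (Submodule F V → 𝕜)) =
      finrank 𝕜 (RB (hy A l) j (uu 𝕜 A l j)) + δT)
    (hK : ∀ β : Dual F (hy A l), β ≠ 0 → Dm 𝕜 (Kb A l β) j δ2) :
    Dm 𝕜 A (j + 1) (δT + (Nat.card F ^ finrank F (hy A l) - 1) * δ2) := by
  have hN := card_hy_ne (A := A) (l := l) hq
  rw [Dm, finrank_sum hψ hN (Sp_stable (j + 1)), finrank_sum hψ hN (Rad_stable (j + 1)),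
    Fintype.sum_eq_add_sum_compl (0 : Dual F (hy A l)),
    Fintype.sum_eq_add_sum_compl (0 : Dual F (hy A l)), finrank_Sp_Eg0 hq hD,
    finrank_Rad_Eg0 hψ hq hD, hT]
  have h1 : (∑ β ∈ ({0}ᶜ : Finset (Dual F (hy A l))),
      finrank 𝕜 (Sp A (j + 1) ⊓ Eg ψ A l β : Submodule 𝕜 _)) =
      (∑ β ∈ ({0}ᶜ : Finset (Dual F (hy A l))),
      finrank 𝕜 (Rad (Sp A (j + 1)) ⊓ Eg ψ A l β : Submodule 𝕜 _)) +
        (Nat.card F ^ finrank F (hy A l) - 1) * δ2 := by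
    have h2 : (Nat.card F ^ finrank F (hy A l) - 1) =
        ({0}ᶜ : Finset (Dual F (hy A l))).card := by
      rw [Finset.card_compl, Finset.card_singleton, ← Nat.card_eq_fintype_card,
        Module.natCard_eq_pow_finrank (K := F) (V := Dual F (hy A l)), Subspace.dual_finrank_eq]
    rw [h2, ← smul_eq_mul, ← Finset.sum_const, ← Finset.sum_add_distrib]
    refine Finset.sum_congr rfl fun β hβ => ?_
    have hβ' : β ≠ 0 := by simpa using hβ
    rw [finrank_Sp_Eg hD hψ hβ' hq, finrank_Rad_Eg hD hψ hβ' hq]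
    exact hK β hβ'
  rw [h1]
  ring

theorem gz_neg_one (n : ℕ) : gz (-1 : 𝕜) n 1 = if Even n then 0 else 1 := by
  induction n with
  | zero => simp
  | succ n ih =>
    rw [gz_succ, ih, gz_zero, Nat.sub_zero, mul_one]
    by_cases h : Even n
    · have h2 : ¬ Even (n + 1) := by rw [Nat.even_add_one]; exact fun h3 => h3 h
      rw [if_pos h, if_neg h2, h.neg_one_pow, zero_add]
    · have h2 : Even (n + 1) := Nat.even_add_one.2 h
      rw [if_neg h, if_pos h2, (Nat.not_even_iff_odd.1 h).neg_one_pow]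
      ring

theorem cc_odd (hq1 : (Nat.card F : 𝕜) = -1) {B : Submodule F V} {j : ℕ}
    (hB : Odd (finrank F B)) (hj : j ≤ finrank F B) : cc 𝕜 B j = (-1) ^ j := by
  rw [cc, hq1, gz_neg_one, gz_neg_one]
  rcases Nat.even_or_odd j with h | h
  · have h2 : ¬ Even (finrank F B - j) := by
      rw [Nat.not_even_iff_odd]; exact Nat.Odd.sub_even hj hB h
    rw [if_neg h2, if_pos h, h.neg_one_pow, sub_zero]
  · have h2 : Even (finrank F B - j) := Nat.Odd.sub_odd hB h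
    rw [if_pos h2, if_neg (Nat.not_even_iff_odd.2 h), h.neg_one_pow, zero_sub]

theorem cc_even (hq1 : (Nat.card F : 𝕜) = -1) {B : Submodule F V} {j : ℕ}
    (hB : Even (finrank F B)) (hj : j ≤ finrank F B) : cc 𝕜 B j = 0 := by
  rw [cc, hq1, gz_neg_one, gz_neg_one]
  rcases Nat.even_or_odd j with h | h
  · have h2 : Even (finrank F B - j) := (Nat.even_sub hj).2 (by simp [hB, h])
    rw [if_pos h2, if_pos h, sub_zero]
  · have h2 : ¬ Even (finrank F B - j) := by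
      rw [Nat.even_sub hj]; simp [hB, Nat.not_even_iff_odd.2 h]
    rw [if_neg h2, if_neg (Nat.not_even_iff_odd.2 h), sub_self]

theorem cc_sq (hq1 : (Nat.card F : 𝕜) = -1) {B : Submodule F V} {j : ℕ}
    (hB : Odd (finrank F B)) (hj : j ≤ finrank F B) : cc 𝕜 B j * cc 𝕜 B j = 1 := by
  rw [cc_odd hq1 hB hj, ← mul_pow]; simp

theorem uu_odd (hq1 : (Nat.card F : 𝕜) = -1) {j : ℕ}
    (hB : Odd (finrank F (hy A l))) (hj : j ≤ finrank F (hy A l)) :
    uu 𝕜 A l j = - cc 𝕜 (hy A l) j := by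
  rw [cc_odd hq1 hB hj, uu, Module.natCard_eq_pow_finrank (K := F), Nat.cast_pow, hq1,
    hB.neg_one_pow]
  rcases Nat.even_or_odd j with h | h
  · rw [h.neg_one_pow]; simp
  · rw [h.neg_one_pow]; simp

/-- dimension recursion, even rank -/
theorem Dm_even {ψ : AddChar F 𝕜} (hψ : ψ ≠ 1) (hq1 : (Nat.card F : 𝕜) = -1)
    {j δ1 δ2 n : ℕ} (hn : finrank F A = n + 1) (hodd : Odd n) (hj : j ≤ n)
    (h1 : ∀ H : Submodule F V, H ≤ A → finrank F H = n → Dm 𝕜 H (j + 1) δ1)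
    (h2 : ∀ K : Submodule F V, K ≤ A → finrank F K + 1 = n → Dm 𝕜 K j δ2) :
    Dm 𝕜 A (j + 1) (δ1 + (Nat.card F ^ n - 1) * δ2) := by
  have hq : (Nat.card F : 𝕜) ≠ 0 := by rw [hq1]; simp
  obtain ⟨l, v0, hD⟩ : ∃ (l : Dual F V) (v0 : V), HD A l v0 := by
    have : A ≠ ⊥ := by rintro rfl; rw [finrank_bot] at hn; omega
    obtain ⟨v, hv, hv0⟩ := Submodule.exists_mem_ne_zero_of_ne_bot this
    obtain ⟨l, hl⟩ : ∃ l : Dual F V, l v ≠ 0 := by
      by_contra h; push Not at h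
      exact hv0 ((Module.forall_dual_apply_eq_zero_iff F v).1 h)
    exact ⟨(l v)⁻¹ • l, v, hv, by simp [hl]⟩
  have hfr := hD.finrank_hy
  have hH : finrank F (hy A l) = n := by omega
  have := finrank_pp (cc_sq hq1 (hH.symm ▸ hodd) (hH.symm ▸ hj))
    (uu_odd hq1 (hH.symm ▸ hodd) (hH.symm ▸ hj))
  have h3 := h1 (hy A l) inf_le_left hH
  rw [Dm] at h3
  rw [← hH]
  refine Dm_general hψ hq hD (by omega) fun β hβ => ?_
  have hK := finrank_Kb (A := A) (l := l) hβ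
  exact h2 _ ((Kb_le β).trans inf_le_left) (by omega)

/-- dimension recursion, odd rank -/
theorem Dm_odd {ψ : AddChar F 𝕜} (hψ : ψ ≠ 1) (hq1 : (Nat.card F : 𝕜) = -1)
    {j δ1 δ2 n : ℕ} (hn : finrank F A = n + 1) (heven : Even n) (hj : j ≤ n)
    (h1 : ∀ H : Submodule F V, H ≤ A → finrank F H = n → DK 𝕜 H (j + 1) δ1)
    (h2 : ∀ K : Submodule F V, K ≤ A → finrank F K + 1 = n → Dm 𝕜 K j δ2) :
    Dm 𝕜 A (j + 1) (δ1 + (Nat.card F ^ n - 1) * δ2) := by
  have hq : (Nat.card F : 𝕜) ≠ 0 := by rw [hq1]; simp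
  obtain ⟨l, v0, hD⟩ : ∃ (l : Dual F V) (v0 : V), HD A l v0 := by
    have : A ≠ ⊥ := by rintro rfl; rw [finrank_bot] at hn; omega
    obtain ⟨v, hv, hv0⟩ := Submodule.exists_mem_ne_zero_of_ne_bot this
    obtain ⟨l, hl⟩ : ∃ l : Dual F V, l v ≠ 0 := by
      by_contra h; push Not at h
      exact hv0 ((Module.forall_dual_apply_eq_zero_iff F v).1 h)
    exact ⟨(l v)⁻¹ • l, v, hv, by simp [hl]⟩
  have hfr := hD.finrank_hy
  have hH : finrank F (hy A l) = n := by omega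
  have h3 := h1 (hy A l) inf_le_left hH
  rw [DK] at h3
  rw [← hH]
  refine Dm_general hψ hq hD ?_ fun β hβ => ?_
  · rw [RB_eq_Rad (cc_even hq1 (hH.symm ▸ heven) (hH.symm ▸ hj))]
    exact h3
  · have hK := finrank_Kb (A := A) (l := l) hβ
    exact h2 _ ((Kb_le β).trans inf_le_left) (by omega)

/-! ### invariants -/

theorem rs_act_tv {μ : Dual F V} {h : V} (hμ : μ h = 0) (hh : h ∈ hy A l)
    (f : Submodule F V → 𝕜) : rs l (act (tv μ h hμ) f) = act (tv μ h hμ) (rs l f) := by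
  ext W
  rw [act_apply, rs_apply, rs_apply, act_apply]
  have hlh : h ∈ LinearMap.ker l := hh.2
  simp only [mp_tv_le (A := LinearMap.ker l) hμ hlh]

theorem Inv_reduce {ψ : AddChar F 𝕜} (hψ : ψ ≠ 1) (hq : (Nat.card F : 𝕜) ≠ 0)
    (hD : HD A l v0) {j : ℕ}
    (H : ∀ a ∈ (Kk (hy A l) (j + 1) : Submodule 𝕜 (Submodule F V → 𝕜)),
      (∀ (μ : Dual F V) (h : V) (hμ : μ h = 0), h ∈ hy A l →
        act (tv μ h hμ) a - a ∈ RB (hy A l) j (uu 𝕜 A l j)) → a ∈ RB (hy A l) j (uu 𝕜 A l j)) :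
    Inv 𝕜 A (j + 1) := by
  intro f hf hinv
  have hN := card_hy_ne (A := A) (l := l) hq
  have hne : ∀ β : Dual F (hy A l), β ≠ 0 → ep ψ A l β f ∈ Rad (Sp A (j + 1)) := by
    intro β hβ
    obtain ⟨x, hx⟩ := exists_char_ne hψ hβ
    have h1 : act (tx A l x) f - f ∈ Rad (Sp A (j + 1)) := hinv l x (hy_l x) x.2.1
    have h2 := ep_mem_of_stable ψ β (Rad_stable (j + 1)) h1
    have h3 : ep ψ A l β (act (tx A l x) f - f) = (ψ (β x) - 1) • ep ψ A l β f := by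
      have h4 : ep ψ A l β (act (tx A l x) f) = act (tx A l x) (ep ψ A l β f) := by
        rw [ep_apply, ep_apply, map_smul, map_sum]
        congr 1
        refine Finset.sum_congr rfl fun y _ => ?_
        rw [map_smul, act_tx_tx, act_tx_tx, add_comm]
      rw [map_sub, h4, ep_mem ψ β f x, sub_smul, one_smul]
    rw [h3] at h2
    have h5 := Submodule.smul_mem _ (ψ (β x) - 1)⁻¹ h2
    rwa [smul_smul, inv_mul_cancel₀ (sub_ne_zero.2 hx), one_smul] at h5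
  have hsum := sum_ep hψ hN f
  rw [Fintype.sum_eq_add_sum_compl (0 : Dual F (hy A l))] at hsum
  have hrest : (∑ β ∈ ({0}ᶜ : Finset (Dual F (hy A l))), ep ψ A l β f) ∈
      Rad (Sp A (j + 1)) :=
    Submodule.sum_mem _ fun β hβ => hne β (by simpa using hβ)
  set f0 := ep ψ A l 0 f with hf0
  have hf0E : f0 ∈ Eg ψ A l 0 := ep_mem ψ 0 f
  have hf0S : f0 ∈ Sp A (j + 1) := ep_mem_of_stable ψ 0 (Sp_stable (j + 1)) hf
  have hf0inv : ∀ (μ : Dual F V) (h : V) (hμ : μ h = 0), h ∈ A →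
      act (tv μ h hμ) f0 - f0 ∈ Rad (Sp A (j + 1)) := by
    intro μ h hμ hh
    have h1 := hinv μ h hμ hh
    have h2 := TI_Rad (TI_Sp (𝕜 := 𝕜) A (j + 1)) μ h hμ hh _ hrest
    have e1 : ∀ r : Submodule F V → 𝕜, f0 + r = f →
        act (tv μ h hμ) f0 - f0 = (act (tv μ h hμ) f - f) - (act (tv μ h hμ) r - r) := by
      intro r hr
      have e2 : f0 = f - r := by rw [← hr]; abel
      rw [e2, map_sub]; abel
    rw [e1 _ hsum]
    exact Submodule.sub_mem _ h1 (Submodule.sub_mem _ h2 hrest)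
  have hf0R : f0 ∈ Rad (Sp A (j + 1)) := by
    rw [Rad_rs hψ hq hD hf0S hf0E]
    refine H _ (rs_Sp hq hD hf0E hf0S).1 fun μ h hμ hh => ?_
    rw [← rs_act_tv hμ hh, ← map_sub]
    have h1 : act (tv μ h hμ) f0 ∈ Eg ψ A l 0 := act_tv_Eg hμ hh (by simp) hf0E
    have h2 := hf0inv μ h hμ hh.1
    exact (Rad_rs hψ hq hD h2.1 (Submodule.sub_mem _ h1 hf0E)).1 h2
  rw [← hsum]
  exact Submodule.add_mem _ hf0R hrest

/-- a nonzero subspace has a hyperplane datum -/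
theorem exists_HD {A : Submodule F V} (h : 0 < finrank F A) :
    ∃ (l : Dual F V) (v0 : V), HD A l v0 := by
  have : A ≠ ⊥ := by rintro rfl; rw [finrank_bot] at h; omega
  obtain ⟨v, hv, hv0⟩ := Submodule.exists_mem_ne_zero_of_ne_bot this
  obtain ⟨l, hl⟩ : ∃ l : Dual F V, l v ≠ 0 := by
    by_contra h; push Not at h
    exact hv0 ((Module.forall_dual_apply_eq_zero_iff F v).1 h)
  exact ⟨(l v)⁻¹ • l, v, hv, by simp [hl]⟩

theorem pp_act {B : Submodule F V} {μ : Dual F V} {h : V} (hμ : μ h = 0) (hh : h ∈ B) (j : ℕ)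
    (c : 𝕜) (a : Submodule F V → 𝕜) :
    pp B j c (act (tv μ h hμ) a) = act (tv μ h hμ) (pp B j c a) := by
  rw [pp_apply, pp_apply, map_sub, map_smul, dd_act hμ hh, dn_act hμ hh]

theorem Inv_even {ψ : AddChar F 𝕜} (hψ : ψ ≠ 1) (hq1 : (Nat.card F : 𝕜) = -1)
    {j n : ℕ} (hn : finrank F A = n + 1) (hodd : Odd n) (hj : j ≤ n)
    (h1 : ∀ H : Submodule F V, H ≤ A → finrank F H = n → Inv 𝕜 H (j + 1)) :
    Inv 𝕜 A (j + 1) := by
  have hq : (Nat.card F : 𝕜) ≠ 0 := by rw [hq1]; simp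
  obtain ⟨l, v0, hD⟩ := exists_HD (A := A) (by omega)
  have hfr := hD.finrank_hy
  have hH : finrank F (hy A l) = n := by omega
  have hc := cc_sq (𝕜 := 𝕜) hq1 (B := hy A l) (hH.symm ▸ hodd) (hH.symm ▸ hj)
  have hu := uu_odd (𝕜 := 𝕜) hq1 (A := A) (l := l) (hH.symm ▸ hodd) (hH.symm ▸ hj)
  refine Inv_reduce hψ hq hD fun a ha hinv => ?_
  rw [RB_iff_pp hc hu ha]
  refine h1 (hy A l) inf_le_left hH _ (pp_Sp hc ha) fun μ h hμ hh => ?_
  have h2 := hinv μ h hμ hh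
  rw [← pp_act hμ hh, ← map_sub]
  exact (RB_iff_pp hc hu h2.1).1 h2

end

end BrauerPP
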