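import Pool.Agent.Lib.MP_4b46f5_al.Hyp

/-!
Decomposition under the group of translations attached to a hyperplane datum.
-/

open Module Submodule
open scoped Classical

namespace BrauerPP

noncomputable section

variable {F V 𝕜 : Type*} [Field F] [AddCommGroup V] [Module F V] [Field 𝕜]

instance instFintypeSub [Finite V] (W : Submodule F V) : Fintype W := Fintype.ofFinite W

instance instFiniteDual [Finite V] [Finite F] : Finite (Dual F V) := DFunLike.finite _

instance instFintypeDual [Finite V] [Finite F] : Fintype (Dual F V) := Fintype.ofFinite _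

variable {A : Submodule F V} {l : Dual F V} {v0 : V}

section dc
variable [Fintype (Submodule F V)] [Finite V]

theorem HD.dc {M : Type*} [AddCommMonoid M] (hD : HD A l v0) (Φ : Submodule F V → M) :
    (∑ W with W ≤ A ∧ ¬ W ≤ LinearMap.ker l,
        Nat.card (W ⊓ LinearMap.ker l : Submodule F V) • Φ W) =
      ∑ x : hy A l, ∑ Y with Y ≤ hy A l, Φ (mp (tx A l x) (Y ⊔ span F {v0})) := by
  have h1 : ∀ x : hy A l, (∑ Y with Y ≤ hy A l, Φ (mp (tx A l x) (Y ⊔ span F {v0}))) =
      ∑ W with W ≤ A, if v0 + (x : V) ∈ W then Φ W else 0 := by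
    intro x
    rw [← hD.sum_v0_tx, ← Finset.sum_filter, Finset.filter_filter]
  simp_rw [h1]
  rw [Finset.sum_comm]
  have h2 : ∀ W ∈ Finset.univ.filter (fun W : Submodule F V => W ≤ A),
      (∑ x : hy A l, if v0 + (x : V) ∈ W then Φ W else 0) =
        if ¬ W ≤ LinearMap.ker l then
          Nat.card (W ⊓ LinearMap.ker l : Submodule F V) • Φ W else 0 := by
    intro W hW
    simp only [Finset.mem_filter, Finset.mem_univ, true_and] at hW
    rw [← Finset.sum_filter, Finset.sum_const]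
    have h3 := hD.card_x hW
    rw [Nat.card_eq_fintype_card, Fintype.card_subtype] at h3
    rw [h3]
    by_cases h4 : W ≤ LinearMap.ker l
    · simp [h4]
    · simp [h4]
  rw [Finset.sum_congr rfl h2, ← Finset.sum_filter, Finset.filter_filter]

end dc

/-- the `β`-isotypic functions -/
def Eg (ψ : AddChar F 𝕜) (A : Submodule F V) (l : Dual F V) (β : Dual F (hy A l)) :
    Submodule 𝕜 (Submodule F V → 𝕜) where
  carrier := {f | ∀ x : hy A l, act (tx A l x) f = ψ (β x) • f}
  add_mem' := by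
    intro f g hf hg x
    rw [map_add, hf x, hg x, smul_add]
  zero_mem' := by intro x; simp
  smul_mem' := by
    intro c f hf x
    rw [map_smul, hf x, smul_comm]

theorem mem_Eg {ψ : AddChar F 𝕜} {β : Dual F (hy A l)} {f : Submodule F V → 𝕜} :
    f ∈ Eg ψ A l β ↔ ∀ x : hy A l, act (tx A l x) f = ψ (β x) • f := Iff.rfl

theorem act_tx_tx (x y : hy A l) (f : Submodule F V → 𝕜) :
    act (tx A l x) (act (tx A l y) f) = act (tx A l (x + y)) f := by
  rw [act_act, tx_trans]

section proj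
variable [Finite V]

/-- projection to the `β`-isotypic part -/
def ep (ψ : AddChar F 𝕜) (A : Submodule F V) (l : Dual F V) (β : Dual F (hy A l)) :
    (Submodule F V → 𝕜) →ₗ[𝕜] (Submodule F V → 𝕜) :=
  (Nat.card (hy A l) : 𝕜)⁻¹ • ∑ x : hy A l, ψ (-(β x)) • act (tx A l x)

theorem ep_apply (ψ : AddChar F 𝕜) (β : Dual F (hy A l)) (f : Submodule F V → 𝕜) :
    ep ψ A l β f = (Nat.card (hy A l) : 𝕜)⁻¹ • ∑ x : hy A l, ψ (-(β x)) • act (tx A l x) f := by
  simp [ep, LinearMap.sum_apply]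

theorem ep_mem (ψ : AddChar F 𝕜) (β : Dual F (hy A l)) (f : Submodule F V → 𝕜) :
    ep ψ A l β f ∈ Eg ψ A l β := by
  intro y
  rw [ep_apply, map_smul, map_sum, smul_comm (ψ (β y))]
  congr 1
  rw [Finset.smul_sum]
  refine Fintype.sum_equiv (Equiv.addLeft y) _ _ fun x => ?_
  rw [map_smul, act_tx_tx, smul_smul, Equiv.coe_addLeft, ← AddChar.map_add_eq_mul]
  congr 2
  rw [map_add]; ring

theorem ep_mem_of_stable (ψ : AddChar F 𝕜) (β : Dual F (hy A l))
    {U : Submodule 𝕜 (Submodule F V → 𝕜)} (hU : ∀ x : hy A l, ∀ f ∈ U, act (tx A l x) f ∈ U)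
    {f : Submodule F V → 𝕜} (hf : f ∈ U) : ep ψ A l β f ∈ U := by
  rw [ep_apply]
  exact U.smul_mem _ (U.sum_mem fun x _ => U.smul_mem _ (hU x f hf))

theorem sum_char_x {ψ : AddChar F 𝕜} (hψ : ψ ≠ 1) (δ : Dual F (hy A l)) (hδ : δ ≠ 0) :
    ∑ x : hy A l, ψ (δ x) = 0 := by
  have : ψ.compAddMonoidHom (δ : hy A l →ₗ[F] F).toAddMonoidHom ≠ 1 := by
    intro h
    apply hψ
    obtain ⟨x, hx⟩ : ∃ x, δ x ≠ 0 := by
      by_contra h1; push Not at h1; exact hδ (LinearMap.ext h1)
    ext c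
    have := DFunLike.congr_fun h ((c * (δ x)⁻¹) • x)
    simpa [hx] using this
  have h := AddChar.sum_eq_zero_of_ne_one this
  simpa using h

theorem sum_char_b {ψ : AddChar F 𝕜} (hψ : ψ ≠ 1) [Finite F] (x : hy A l) (hx : x ≠ 0) :
    ∑ β : Dual F (hy A l), ψ (-(β x)) = 0 := by
  have : ψ.compAddMonoidHom (-(Dual.eval F (hy A l) x)).toAddMonoidHom ≠ 1 := by
    intro h
    apply hψ
    obtain ⟨β, hβ⟩ : ∃ β : Dual F (hy A l), β x ≠ 0 := by
      by_contra h1; push Not at h1
      exact hx ((Module.forall_dual_apply_eq_zero_iff F x).1 h1)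
    ext c
    have := DFunLike.congr_fun h (-(c * (β x)⁻¹) • β)
    simpa [hβ] using this
  have h := AddChar.sum_eq_zero_of_ne_one this
  simpa using h

theorem ep_of_mem {ψ : AddChar F 𝕜} (hN : (Nat.card (hy A l) : 𝕜) ≠ 0)
    {β : Dual F (hy A l)} {f : Submodule F V → 𝕜} (hf : f ∈ Eg ψ A l β) :
    ep ψ A l β f = f := by
  rw [ep_apply]
  have : ∀ x : hy A l, ψ (-(β x)) • act (tx A l x) f = f := by
    intro x
    rw [hf x, smul_smul, ← AddChar.map_add_eq_mul]; simp
  simp_rw [this]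
  rw [Finset.sum_const, Finset.card_univ, ← Nat.card_eq_fintype_card, ← Nat.cast_smul_eq_nsmul 𝕜,
    smul_smul, inv_mul_cancel₀ hN, one_smul]

theorem ep_of_mem_ne {ψ : AddChar F 𝕜} (hψ : ψ ≠ 1)
    {β γ : Dual F (hy A l)} (hβγ : γ ≠ β) {f : Submodule F V → 𝕜} (hf : f ∈ Eg ψ A l γ) :
    ep ψ A l β f = 0 := by
  rw [ep_apply]
  have : ∀ x : hy A l, ψ (-(β x)) • act (tx A l x) f = ψ ((γ - β) x) • f := by
    intro x
    rw [hf x, smul_smul, ← AddChar.map_add_eq_mul]
    congr 2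
    simp [sub_eq_add_neg, add_comm]
  simp_rw [this]
  rw [← Finset.sum_smul, sum_char_x hψ _ (sub_ne_zero.2 hβγ), zero_smul, smul_zero]

theorem sum_ep {ψ : AddChar F 𝕜} (hψ : ψ ≠ 1) [Finite F] (hN : (Nat.card (hy A l) : 𝕜) ≠ 0)
    (f : Submodule F V → 𝕜) : ∑ β : Dual F (hy A l), ep ψ A l β f = f := by
  simp_rw [ep_apply]
  rw [← Finset.smul_sum, Finset.sum_comm]
  simp_rw [← Finset.sum_smul]
  rw [Finset.sum_eq_single 0]
  · have h1 : ∑ β : Dual F (hy A l), ψ (-(β 0)) = (Nat.card (hy A l) : 𝕜) := by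
      simp only [map_zero, neg_zero, AddChar.map_zero_eq_one, Finset.sum_const, Finset.card_univ,
        nsmul_eq_mul, mul_one]
      rw [← Nat.card_eq_fintype_card]
      congr 1
      rw [Module.natCard_eq_pow_finrank (K := F) (V := Dual F (hy A l)),
        Module.natCard_eq_pow_finrank (K := F) (V := hy A l), Subspace.dual_finrank_eq]
    rw [h1, smul_smul, inv_mul_cancel₀ hN, one_smul, tx_zero, act_refl]
  · intro x _ hx
    rw [sum_char_b hψ x hx, zero_smul]
  · intro h; exact absurd (Finset.mem_univ _) h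

/-- dimension as the sum of the dimensions of the isotypic parts -/
theorem finrank_sum {ψ : AddChar F 𝕜} (hψ : ψ ≠ 1) [Finite F]
    (hN : (Nat.card (hy A l) : 𝕜) ≠ 0) {U : Submodule 𝕜 (Submodule F V → 𝕜)}
    (hU : ∀ x : hy A l, ∀ f ∈ U, act (tx A l x) f ∈ U) :
    finrank 𝕜 U = ∑ β : Dual F (hy A l), finrank 𝕜 (U ⊓ Eg ψ A l β : Submodule 𝕜 _) := by
  let toF : U →ₗ[𝕜] (∀ β : Dual F (hy A l), (U ⊓ Eg ψ A l β : Submodule 𝕜 (Submodule F V → 𝕜))) :=
    LinearMap.pi fun β =>
      LinearMap.codRestrict (U ⊓ Eg ψ A l β) ((ep ψ A l β).comp U.subtype) fun f =>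
        ⟨ep_mem_of_stable ψ β hU f.2, ep_mem ψ β _⟩
  have hbij : Function.Bijective toF := by
    constructor
    · rw [injective_iff_map_eq_zero]
      intro f hf
      have : ∀ β, ep ψ A l β (f : Submodule F V → 𝕜) = 0 := by
        intro β
        have := congrFun hf β
        exact congrArg Subtype.val this
      have h2 := sum_ep hψ hN (f : Submodule F V → 𝕜)
      simp_rw [this] at h2
      rw [Finset.sum_const_zero] at h2
      exact Subtype.ext h2.symm
    · intro g
      refine ⟨⟨∑ β, (g β : Submodule F V → 𝕜), U.sum_mem fun β _ => (g β).2.1⟩, ?_⟩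
      funext β
      apply Subtype.ext
      change ep ψ A l β (∑ γ, (g γ : Submodule F V → 𝕜)) = g β
      rw [map_sum, Finset.sum_eq_single β]
      · exact ep_of_mem hN (g β).2.2
      · intro γ _ hγ
        exact ep_of_mem_ne hψ hγ (g γ).2.2
      · intro h; exact absurd (Finset.mem_univ _) h
  rw [(LinearEquiv.ofBijective toF hbij).finrank_eq, Module.finrank_pi_fintype]

end proj

section pr
variable [Fintype (Submodule F V)]

theorem pr_Eg {ψ : AddChar F 𝕜} (hψ : ψ ≠ 1) {β γ : Dual F (hy A l)} (hβγ : β + γ ≠ 0)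
    {f g : Submodule F V → 𝕜} (hf : f ∈ Eg ψ A l β) (hg : g ∈ Eg ψ A l γ) : pr f g = 0 := by
  obtain ⟨x, hx⟩ : ∃ x, (β + γ) x ≠ 0 := by
    by_contra h1; push Not at h1; exact hβγ (LinearMap.ext h1)
  obtain ⟨c, hc⟩ : ∃ c, ψ c ≠ 1 := by
    by_contra h1; push Not at h1; exact hψ (by ext c; simpa using h1 c)
  set y : hy A l := (c * ((β + γ) x)⁻¹) • x with hy'
  have h1 : ψ ((β + γ) y) ≠ 1 := by
    rw [hy', map_smul, smul_eq_mul, mul_assoc, inv_mul_cancel₀ hx, mul_one]; exact hc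
  have h2 := pr_act_act (tx A l y) f g
  rw [hf y, hg y, pr_smul_left, pr_smul_right, ← mul_assoc, ← AddChar.map_add_eq_mul,
    ← LinearMap.add_apply] at h2
  have h3 : (ψ ((β + γ) y) - 1) * pr f g = 0 := by rw [sub_mul, h2]; ring
  rcases mul_eq_zero.1 h3 with h4 | h4
  · exact absurd (sub_eq_zero.1 h4) h1
  · exact h4

end pr

end

end BrauerPP
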