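import Pool.Agent.Lib.MP_4b46f5_al.Chains

/-!
Approximate roots of integer polynomials and primes close to them.
-/

namespace BrauerPP

open Polynomial

theorem hensel_int (P : ℤ[X]) {p : ℕ} (hp : p.Prime) {a : ℤ} (h0 : (p : ℤ) ∣ P.eval a)
    (h1 : ¬ (p : ℤ) ∣ P.derivative.eval a) (M : ℕ) :
    ∃ z : ℤ, (p : ℤ) ∣ z - a ∧ (p : ℤ) ^ (M + 1) ∣ P.eval z := by
  induction M with
  | zero => exact ⟨a, by simp, by simpa using h0⟩
  | succ M ih =>
    obtain ⟨z, hz, c, hc⟩ := ih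
    have hpZ : Prime (p : ℤ) := Nat.prime_iff_prime_int.1 hp
    have hd : ¬ (p : ℤ) ∣ P.derivative.eval z := by
      intro h
      apply h1
      obtain ⟨w, hw⟩ := evalSubFactor P.derivative z a
      have : P.derivative.eval a = P.derivative.eval z - w * (z - a) := by rw [← hw]; ring
      rw [this]
      exact dvd_sub h (hz.mul_left w)
    have hcop : IsCoprime (p : ℤ) (P.derivative.eval z) :=
      (Prime.coprime_iff_not_dvd hpZ).2 hd
    obtain ⟨u, v, huv⟩ := hcop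
    obtain ⟨k, hk⟩ := binomExpansion P z (p ^ (M + 1) * (-c * v))
    refine ⟨z + p ^ (M + 1) * (-c * v), ?_, ?_⟩
    · have : z + (p : ℤ) ^ (M + 1) * (-c * v) - a = (z - a) + p * (p ^ M * (-c * v)) := by ring
      rw [this]
      exact dvd_add hz (dvd_mul_right _ _)
    · rw [hk, hc]
      have : (p : ℤ) ^ (M + 1) * c + P.derivative.eval z * (p ^ (M + 1) * (-c * v)) +
          k * (p ^ (M + 1) * (-c * v)) ^ 2 =
          p ^ (M + 1 + 1) * (c * u + k * p ^ M * (-c * v) ^ 2) := by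
        have h2 : v * P.derivative.eval z = 1 - u * p := by linear_combination huv
        linear_combination (-(p : ℤ) ^ (M + 1) * c) * h2
      rw [this]
      exact dvd_mul_right _ _

/-- primes close to an approximate root -/
theorem exists_prime_root (P : ℤ[X]) {p : ℕ} (hp : p.Prime) {a : ℤ} (h0 : (p : ℤ) ∣ P.eval a)
    (h1 : ¬ (p : ℤ) ∣ P.derivative.eval a) (ha : ¬ (p : ℤ) ∣ a) (M : ℕ) (B : ℕ) :
    ∃ q : ℕ, q.Prime ∧ B < q ∧ (p : ℤ) ∣ (q : ℤ) - a ∧ (p : ℤ) ^ (M + 1) ∣ P.eval (q : ℤ) := by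
  obtain ⟨z, hz, hPz⟩ := hensel_int P hp h0 h1 M
  have hpZ : Prime (p : ℤ) := Nat.prime_iff_prime_int.1 hp
  have hN : NeZero (p ^ (M + 1)) := ⟨pow_ne_zero _ hp.ne_zero⟩
  have hzu : IsUnit ((z : ℤ) : ZMod (p ^ (M + 1))) := by
    rw [ZMod.coe_int_isUnit_iff_isCoprime]
    push_cast
    refine (IsCoprime.pow_left_iff (by omega)).2 ?_
    rw [Prime.coprime_iff_not_dvd hpZ]
    intro h
    apply ha
    have := dvd_sub h hz
    simpa using this
  obtain ⟨q, hqB, hq, hqz⟩ := Nat.forall_exists_prime_gt_and_eq_mod hzu B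
  have hdvd : ((p : ℤ) ^ (M + 1)) ∣ (q : ℤ) - z := by
    have h2 : (((q : ℤ) - z : ℤ) : ZMod (p ^ (M + 1))) = 0 := by
      push_cast
      rw [hqz, sub_self]
    have := (ZMod.intCast_zmod_eq_zero_iff_dvd _ _).1 h2
    exact_mod_cast this
  refine ⟨q, hq, hqB, ?_, ?_⟩
  · have h3 : (p : ℤ) ∣ (q : ℤ) - z := (dvd_pow_self _ (by omega)).trans hdvd
    have := dvd_add h3 hz
    simpa using this
  · obtain ⟨w, hw⟩ := evalSubFactor P q z
    have : P.eval (q : ℤ) = w * (q - z) + P.eval z := by rw [← hw]; ring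
    rw [this]
    exact dvd_add (hdvd.mul_left _) hPz

end BrauerPP
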