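import Pool.Agent.Lib.MP_4b46f5_al.Basic

/-!
Hyperplane data: a subspace `A`, a linear form `l`, a vector `v0 ∈ A` with `l v0 = 1`.
-/

open Module Submodule
open scoped Classical

namespace BrauerPP

noncomputable section

variable {F V 𝕜 : Type*} [Field F] [AddCommGroup V] [Module F V] [Field 𝕜]

/-- hyperplane datum -/
structure HD (A : Submodule F V) (l : Dual F V) (v0 : V) : Prop where
  mem : v0 ∈ A
  one : l v0 = 1

/-- the hyperplane of `A` cut out by `l` -/
abbrev hy (A : Submodule F V) (l : Dual F V) : Submodule F V := A ⊓ LinearMap.ker l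

theorem hy_l {A : Submodule F V} {l : Dual F V} (x : hy A l) : l x = 0 := x.2.2

theorem sup_inf_ker {l : Dual F V} {v : V} (hv : l v = 1) {Y : Submodule F V}
    (hY : Y ≤ LinearMap.ker l) : (Y ⊔ span F {v}) ⊓ LinearMap.ker l = Y := by
  apply le_antisymm
  · rintro x ⟨hx, hx'⟩
    obtain ⟨y, hy, z, hz, rfl⟩ := Submodule.mem_sup.1 hx
    obtain ⟨c, rfl⟩ := Submodule.mem_span_singleton.1 hz
    have h1 : l y = 0 := hY hy
    have h2 : l (y + c • v) = 0 := hx'
    rw [map_add, map_smul, h1, hv] at h2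
    have : c = 0 := by simpa using h2
    simpa [this] using hy
  · exact le_inf le_sup_left hY

theorem inf_ker_sup {l : Dual F V} {v : V} (hv : l v = 1) {W : Submodule F V}
    (hW : v ∈ W) : (W ⊓ LinearMap.ker l) ⊔ span F {v} = W := by
  apply le_antisymm
  · exact sup_le inf_le_left (by simpa [Submodule.span_singleton_le_iff_mem] using hW)
  · intro w hw
    refine Submodule.mem_sup.2 ⟨w - l w • v, ⟨W.sub_mem hw (W.smul_mem _ hW), ?_⟩, l w • v,
      Submodule.smul_mem _ _ (Submodule.mem_span_singleton_self v), by simp⟩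
    simp [LinearMap.mem_ker, hv]

theorem not_mem_of_le_ker {l : Dual F V} {v : V} (hv : l v = 1) {Y : Submodule F V}
    (hY : Y ≤ LinearMap.ker l) : v ∉ Y := by
  intro h
  have : l v = 0 := hY h
  rw [hv] at this
  exact one_ne_zero this

theorem finrank_sup_span [Module.Finite F V] {l : Dual F V} {v : V} (hv : l v = 1)
    {Y : Submodule F V} (hY : Y ≤ LinearMap.ker l) :
    finrank F (Y ⊔ span F {v} : Submodule F V) = finrank F Y + 1 :=
  finrank_sup_span_singleton (not_mem_of_le_ker hv hY)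

theorem exists_mem_one {l : Dual F V} {W : Submodule F V} (h : ¬ W ≤ LinearMap.ker l) :
    ∃ w ∈ W, l w = 1 := by
  rw [SetLike.not_le_iff_exists] at h
  obtain ⟨w, hw, h2⟩ := h
  have h3 : l w ≠ 0 := h2
  exact ⟨(l w)⁻¹ • w, W.smul_mem _ hw, by simp [h3]⟩

theorem finrank_inf_ker [Module.Finite F V] {l : Dual F V} {W : Submodule F V}
    (h : ¬ W ≤ LinearMap.ker l) :
    finrank F (W ⊓ LinearMap.ker l : Submodule F V) + 1 = finrank F W := by
  obtain ⟨w, hw, hw1⟩ := exists_mem_one h
  rw [← finrank_sup_span hw1 (inf_le_right : W ⊓ LinearMap.ker l ≤ _), inf_ker_sup hw1 hw]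

variable {A : Submodule F V} {l : Dual F V} {v0 : V}

theorem HD.exists_x (_hD : HD A l v0) {W : Submodule F V} (hWA : W ≤ A)
    (h : ¬ W ≤ LinearMap.ker l) : ∃ x : hy A l, v0 + x ∈ W := by
  obtain ⟨w, hw, hw1⟩ := exists_mem_one h
  refine ⟨⟨w - v0, A.sub_mem (hWA hw) _hD.mem, ?_⟩, by simpa using hw⟩
  simp [LinearMap.mem_ker, hw1, _hD.one]

theorem HD.finrank_hy [Module.Finite F V] (hD : HD A l v0) :
    finrank F (hy A l) + 1 = finrank F A := by
  apply finrank_inf_ker
  intro h
  have : l v0 = 0 := h hD.mem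
  rw [hD.one] at this
  exact one_ne_zero this

/-- translation by `x` in the hyperplane -/
abbrev tx (A : Submodule F V) (l : Dual F V) (x : hy A l) : V ≃ₗ[F] V := tv l x (hy_l x)

theorem tx_apply (x : hy A l) (v : V) : tx A l x v = v + l v • (x : V) := rfl

theorem tx_zero : tx A l 0 = LinearEquiv.refl F V := by
  ext v; simp

theorem tx_trans (x y : hy A l) : (tx A l x).trans (tx A l y) = tx A l (x + y) := by
  ext v
  have := hy_l x
  simp [LinearMap.transvection, this, add_assoc]

theorem tx_symm (x : hy A l) : (tx A l x).symm = tx A l (-x) := by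
  rw [tv_symm]

theorem mp_tx_of_le {Y : Submodule F V} (hY : Y ≤ LinearMap.ker l) (x : hy A l) :
    mp (tx A l x) Y = Y := by
  ext v
  rw [mem_mp, tx_symm, tx_apply]
  constructor
  · intro h
    have h1 : l (v + l v • ((-x : hy A l) : V)) = 0 := hY h
    have h2 : l v = 0 := by
      rw [map_add, map_smul, hy_l (-x), smul_zero, add_zero] at h1
      exact h1
    simpa [h2] using h
  · intro h
    have : l v = 0 := hY h
    simpa [this] using h

theorem le_ker_mp_tx {W : Submodule F V} (x : hy A l) :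
    mp (tx A l x) W ≤ LinearMap.ker l ↔ W ≤ LinearMap.ker l := by
  constructor
  · intro h
    have := mp_tx_of_le h (-x)
    rw [← tx_symm, mp_symm_mp] at this
    rw [this]; exact h
  · intro h; rwa [mp_tx_of_le h]

theorem mp_tx_inf {W : Submodule F V} (x : hy A l) :
    mp (tx A l x) W ⊓ LinearMap.ker l = W ⊓ LinearMap.ker l := by
  ext v
  simp only [Submodule.mem_inf, mem_mp, tx_symm, tx_apply, LinearMap.mem_ker]
  constructor
  · rintro ⟨h1, h2⟩; exact ⟨by simpa [h2] using h1, h2⟩
  · rintro ⟨h1, h2⟩; exact ⟨by simpa [h2] using h1, h2⟩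

theorem HD.mem_mp_tx (hD : HD A l v0) {W : Submodule F V} (x y : hy A l) :
    v0 + y ∈ mp (tx A l x) W ↔ v0 + (y - x : hy A l) ∈ W := by
  rw [mem_mp, tx_symm, tx_apply]
  have h1 : l (v0 + y) = 1 := by rw [map_add, hD.one, hy_l, add_zero]
  rw [h1]
  simp [sub_eq_add_neg, add_assoc]

theorem mp_tx_le {W : Submodule F V} (x : hy A l) : mp (tx A l x) W ≤ A ↔ W ≤ A :=
  mp_tv_le (hy_l x) x.2.1

/-- restriction to the subspaces containing `v0` -/
def rho (A : Submodule F V) (l : Dual F V) (v0 : V) :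
    (Submodule F V → 𝕜) →ₗ[𝕜] (Submodule F V → 𝕜) where
  toFun f Y := if Y ≤ hy A l then f (Y ⊔ span F {v0}) else 0
  map_add' f g := by ext Y; simp only [Pi.add_apply]; split_ifs <;> simp
  map_smul' c f := by ext Y; simp only [Pi.smul_apply, RingHom.id_apply]; split_ifs <;> simp

theorem rho_apply (f : Submodule F V → 𝕜) (Y : Submodule F V) :
    rho A l v0 f Y = if Y ≤ hy A l then f (Y ⊔ span F {v0}) else 0 := rfl

section fin
variable [Fintype (Submodule F V)]

/-- sum over the subspaces of `A` containing `v0` -/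
theorem HD.sum_v0 {M : Type*} [AddCommMonoid M] (hD : HD A l v0) (Φ : Submodule F V → M) :
    (∑ W with W ≤ A ∧ v0 ∈ W, Φ W) = ∑ Y with Y ≤ hy A l, Φ (Y ⊔ span F {v0}) := by
  refine Finset.sum_nbij' (fun W => W ⊓ LinearMap.ker l) (fun Y => Y ⊔ span F {v0}) ?_ ?_ ?_ ?_ ?_
  · intro W hW
    simp only [Finset.mem_filter, Finset.mem_univ, true_and] at hW ⊢
    exact inf_le_inf_right _ hW.1
  · intro Y hY
    simp only [Finset.mem_filter, Finset.mem_univ, true_and] at hY ⊢
    refine ⟨sup_le (hY.trans inf_le_left) ?_, ?_⟩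
    · simpa [Submodule.span_singleton_le_iff_mem] using hD.mem
    · exact (le_sup_right : span F {v0} ≤ _) (mem_span_singleton_self v0)
  · intro W hW
    simp only [Finset.mem_filter, Finset.mem_univ, true_and] at hW
    exact inf_ker_sup hD.one hW.2
  · intro Y hY
    simp only [Finset.mem_filter, Finset.mem_univ, true_and] at hY
    exact sup_inf_ker hD.one (hY.trans inf_le_right)
  · intro W hW
    simp only [Finset.mem_filter, Finset.mem_univ, true_and] at hW
    rw [inf_ker_sup hD.one hW.2]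

theorem HD.sum_v0_tx {M : Type*} [AddCommMonoid M] (hD : HD A l v0) (Φ : Submodule F V → M)
    (x : hy A l) :
    (∑ W with W ≤ A ∧ v0 + (x : V) ∈ W, Φ W) =
      ∑ Y with Y ≤ hy A l, Φ (mp (tx A l x) (Y ⊔ span F {v0})) := by
  rw [← hD.sum_v0 (fun W => Φ (mp (tx A l x) W))]
  symm
  refine Finset.sum_equiv (mpE (tx A l x)) ?_ ?_
  · intro W
    simp only [Finset.mem_filter, Finset.mem_univ, true_and, mpE_apply, mp_tx_le, hD.mem_mp_tx]
    simp
  · intro W _; rfl

end fin

/-- number of `x` in the hyperplane with `v0 + x ∈ W` -/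
theorem HD.card_x [Finite V] (hD : HD A l v0) {W : Submodule F V} (hWA : W ≤ A) :
    Nat.card {x : hy A l // v0 + (x : V) ∈ W} =
      if W ≤ LinearMap.ker l then 0 else Nat.card (W ⊓ LinearMap.ker l : Submodule F V) := by
  split_ifs with h
  · rw [Nat.card_eq_zero]; left
    constructor
    rintro ⟨x, hx⟩
    have : l (v0 + x) = 0 := h hx
    rw [map_add, hD.one, hy_l, add_zero] at this
    exact one_ne_zero this
  · obtain ⟨x0, hx0⟩ := hD.exists_x hWA h
    refine Nat.card_congr ⟨fun x => ⟨x.1.1 - x0, ?_, ?_⟩, fun y => ⟨⟨y + x0, ?_, ?_⟩, ?_⟩, ?_, ?_⟩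
    · have := W.sub_mem x.2 hx0
      simpa using this
    · have h1 := hy_l x.1
      have h2 := hy_l x0
      simp only [SetLike.mem_coe, LinearMap.mem_ker, map_sub, h2, sub_zero]
      exact h1
    · exact A.add_mem (hWA y.2.1) x0.2.1
    · have h1 : l y = 0 := y.2.2
      simp [LinearMap.mem_ker, h1, hy_l x0]
    · have := W.add_mem hx0 y.2.1
      have h3 : v0 + ((y : V) + (x0 : V)) = v0 + x0 + y := by abel
      simpa only [h3] using this
    · intro x; ext; simp
    · intro y; ext; simp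

end

end BrauerPP
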