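import Pool.Agent.Lib.MP_4b46f5_al.Fourier

/-!
The isotypic parts of the kernel intersections for nonzero `β`.
-/

open Module Submodule
open scoped Classical

namespace BrauerPP

noncomputable section

variable {F V 𝕜 : Type*} [Field F] [AddCommGroup V] [Module F V] [Field 𝕜]
variable {A : Submodule F V} {l : Dual F V} {v0 : V}

/-- kernel of a form on the hyperplane, as a subspace of `V` -/
def Kb (A : Submodule F V) (l : Dual F V) (β : Dual F (hy A l)) : Submodule F V :=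
  (LinearMap.ker β).map (hy A l).subtype

theorem mem_Kb {β : Dual F (hy A l)} {x : V} :
    x ∈ Kb A l β ↔ ∃ h : x ∈ hy A l, β ⟨x, h⟩ = 0 := by
  simp [Kb]

theorem Kb_le (β : Dual F (hy A l)) : Kb A l β ≤ hy A l := by
  intro x hx; exact (mem_Kb.1 hx).1

theorem Kb_neg (β : Dual F (hy A l)) : Kb A l (-β) = Kb A l β := by
  ext x; simp [mem_Kb]

theorem finrank_Kb [Module.Finite F V] {β : Dual F (hy A l)} (hβ : β ≠ 0) :
    finrank F (Kb A l β) + 1 = finrank F (hy A l) := by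
  rw [Kb, Submodule.finrank_map_subtype_eq]
  exact Module.Dual.finrank_ker_add_one_of_ne_zero hβ

theorem span_v0_iff (hD : HD A l v0) {Y : Submodule F V} (hY : Y ≤ LinearMap.ker l)
    (x : hy A l) : v0 + (x : V) ∈ Y ⊔ span F {v0} ↔ (x : V) ∈ Y := by
  have h0 : v0 ∈ Y ⊔ span F {v0} := (le_sup_right : span F {v0} ≤ _) (mem_span_singleton_self v0)
  rw [Submodule.add_mem_iff_right _ h0]
  constructor
  · intro h
    have : (x : V) ∈ (Y ⊔ span F {v0}) ⊓ LinearMap.ker l := ⟨h, x.2.2⟩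
    rwa [sup_inf_ker hD.one hY] at this
  · intro h; exact (le_sup_left : Y ≤ _) h

theorem mp_tx_sup {Y : Submodule F V} (hD : HD A l v0) (hY : Y ≤ LinearMap.ker l) (x : hy A l)
    (hx : (x : V) ∈ Y) : mp (tx A l x) (Y ⊔ span F {v0}) = Y ⊔ span F {v0} := by
  rw [mp, Submodule.map_sup, Submodule.map_span, Set.image_singleton]
  have h1 : Y.map ((tx A l x : V ≃ₗ[F] V) : V →ₗ[F] V) = Y := mp_tx_of_le hY x
  have h2 : ((tx A l x : V ≃ₗ[F] V) : V →ₗ[F] V) v0 = v0 + x := by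
    change tx A l x v0 = _
    rw [tx_apply, hD.one, one_smul]
  rw [h1, h2]
  apply le_antisymm
  · refine sup_le le_sup_left ?_
    rw [Submodule.span_singleton_le_iff_mem]
    exact add_mem ((le_sup_right : span F {v0} ≤ _) (mem_span_singleton_self v0))
      ((le_sup_left : Y ≤ _) hx)
  · refine sup_le le_sup_left ?_
    rw [Submodule.span_singleton_le_iff_mem]
    have h3 : v0 + (x : V) ∈ Y ⊔ span F {v0 + (x : V)} :=
      (le_sup_right : span F {v0 + (x : V)} ≤ _) (mem_span_singleton_self _)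
    have h4 : (x : V) ∈ Y ⊔ span F {v0 + (x : V)} := (le_sup_left : Y ≤ _) hx
    simpa using sub_mem h3 h4

theorem mp_neg_tx {W : Submodule F V} (hD : HD A l v0) {x : hy A l} (hx : v0 + (x : V) ∈ W) :
    mp (tx A l (-x)) W = (W ⊓ LinearMap.ker l) ⊔ span F {v0} := by
  have h1 : v0 ∈ mp (tx A l (-x)) W := by
    have := (hD.mem_mp_tx (W := W) (-x) 0).2 (by simpa using hx)
    simpa using this
  have h2 := inf_ker_sup hD.one h1
  rw [mp_tx_inf] at h2
  exact h2.symm

theorem mp_tx_form {W : Submodule F V} (hD : HD A l v0) {x : hy A l} (hx : v0 + (x : V) ∈ W) :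
    mp (tx A l x) ((W ⊓ LinearMap.ker l) ⊔ span F {v0}) = W := by
  rw [← mp_neg_tx hD hx, ← tx_symm, mp_mp_symm]

theorem Eg_form {ψ : AddChar F 𝕜} (hD : HD A l v0) {β : Dual F (hy A l)}
    {f : Submodule F V → 𝕜} (hf : f ∈ Eg ψ A l β)
    {W : Submodule F V} (hWA : W ≤ A) {x : hy A l} (hx : v0 + (x : V) ∈ W) :
    f W = ψ (β x) * rho A l v0 f (W ⊓ LinearMap.ker l) := by
  have h1 := congrFun (hf x) ((W ⊓ LinearMap.ker l) ⊔ span F {v0})
  rw [act_apply, mp_tx_form hD hx] at h1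
  rw [h1, Pi.smul_apply, smul_eq_mul, rho_apply, if_pos (inf_le_inf_right _ hWA)]

theorem exists_char_ne {ψ : AddChar F 𝕜} (hψ : ψ ≠ 1) {β : Dual F (hy A l)} (hβ : β ≠ 0) :
    ∃ x : hy A l, ψ (β x) ≠ 1 := by
  obtain ⟨x, hx⟩ : ∃ x, β x ≠ 0 := by
    by_contra h1; push Not at h1; exact hβ (LinearMap.ext h1)
  obtain ⟨c, hc⟩ : ∃ c, ψ c ≠ 1 := by
    by_contra h1; push Not at h1; exact hψ (by ext c; simpa using h1 c)
  refine ⟨(c * (β x)⁻¹) • x, ?_⟩
  rw [map_smul, smul_eq_mul, mul_assoc, inv_mul_cancel₀ hx, mul_one]; exact hc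

theorem Eg_zero_of_le {ψ : AddChar F 𝕜} (hψ : ψ ≠ 1) {β : Dual F (hy A l)} (hβ : β ≠ 0)
    {f : Submodule F V → 𝕜} (hf : f ∈ Eg ψ A l β)
    {W : Submodule F V} (hW : W ≤ LinearMap.ker l) : f W = 0 := by
  obtain ⟨x, hx⟩ := exists_char_ne hψ hβ
  have h1 := congrFun (hf x) W
  rw [act_apply, mp_tx_of_le hW, Pi.smul_apply, smul_eq_mul] at h1
  have h3 : (ψ (β x) - 1) * f W = 0 := by rw [sub_mul, ← h1]; ring
  rcases mul_eq_zero.1 h3 with h4 | h4
  · exact absurd (sub_eq_zero.1 h4) hx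
  · exact h4

theorem rho_Mo [Module.Finite F V] {ψ : AddChar F 𝕜} (hψ : ψ ≠ 1) (hD : HD A l v0)
    {β : Dual F (hy A l)} {j : ℕ} {f : Submodule F V → 𝕜} (hf : f ∈ Eg ψ A l β)
    (hM : f ∈ Mo A (j + 1)) : rho A l v0 f ∈ Mo (Kb A l β) j := by
  intro Y hY
  rw [rho_apply] at hY
  split_ifs at hY with h1
  · have h2 := hM _ hY
    have hYk : Y ≤ LinearMap.ker l := h1.trans inf_le_right
    rw [finrank_sup_span hD.one hYk] at h2
    refine ⟨?_, by omega⟩
    intro y hy'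
    refine mem_Kb.2 ⟨h1 hy', ?_⟩
    by_contra hne
    apply hψ
    ext c
    have h3 := congrFun (hf ((c * (β ⟨y, h1 hy'⟩)⁻¹) • ⟨y, h1 hy'⟩)) (Y ⊔ span F {v0})
    rw [act_apply, mp_tx_sup hD hYk _ (Y.smul_mem _ hy'), map_smul, smul_eq_mul, mul_assoc,
      inv_mul_cancel₀ hne, mul_one, Pi.smul_apply, smul_eq_mul] at h3
    have h4 : (ψ c - 1) * f (Y ⊔ span F {v0}) = 0 := by rw [sub_mul, ← h3]; ring
    rcases mul_eq_zero.1 h4 with h5 | h5
    · simpa using sub_eq_zero.1 h5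
    · exact absurd h5 hY
  · exact absurd rfl hY

section fin
variable [Fintype (Submodule F V)]

theorem up_rho (hD : HD A l v0) {f : Submodule F V → 𝕜}
    (hf : ∀ W, f W ≠ 0 → W ≤ A) {Z : Submodule F V} (hZ : v0 ∈ Z) :
    up f Z = up (rho A l v0 f) (Z ⊓ LinearMap.ker l) := by
  have h1 : up f Z = ∑ W with W ≤ A ∧ v0 ∈ W, if Z ≤ W then f W else 0 := by
    rw [up_apply, Finset.sum_filter]
    refine Finset.sum_congr rfl fun W _ => ?_
    by_cases h2 : f W = 0
    · simp [h2]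
    · by_cases h3 : Z ≤ W
      · simp [h3, hf W h2, h3 hZ]
      · simp [h3]
  rw [h1, hD.sum_v0, up_apply, Finset.sum_filter]
  refine Finset.sum_congr rfl fun Y _ => ?_
  rw [rho_apply]
  by_cases h2 : Y ≤ hy A l
  · rw [if_pos h2, if_pos h2]
    have h3 : Z ≤ Y ⊔ span F {v0} ↔ Z ⊓ LinearMap.ker l ≤ Y := by
      constructor
      · intro h
        calc Z ⊓ LinearMap.ker l ≤ (Y ⊔ span F {v0}) ⊓ LinearMap.ker l := inf_le_inf_right _ h
          _ = Y := sup_inf_ker hD.one (h2.trans inf_le_right)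
      · intro h
        calc Z = (Z ⊓ LinearMap.ker l) ⊔ span F {v0} := (inf_ker_sup hD.one hZ).symm
          _ ≤ Y ⊔ span F {v0} := sup_le_sup_right h _
    simp only [h3]
  · rw [if_neg h2, if_neg h2]; simp

theorem up_zero_of_not_le {B : Submodule F V} {f : Submodule F V → 𝕜}
    (hf : ∀ W, f W ≠ 0 → W ≤ B) {Z : Submodule F V} (hZ : ¬ Z ≤ B) : up f Z = 0 := by
  rw [up_apply]
  refine Finset.sum_eq_zero fun W _ => ?_
  split_ifs with h
  · by_contra h2; exact hZ (h.trans (hf W h2))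
  · rfl

theorem up_Eg {ψ : AddChar F 𝕜} {β : Dual F (hy A l)} {f : Submodule F V → 𝕜}
    (hf : f ∈ Eg ψ A l β) : up f ∈ Eg ψ A l β := by
  intro x
  rw [← up_act, hf x, map_smul]

theorem Sp_of_rho [Module.Finite F V] {ψ : AddChar F 𝕜} (hψ : ψ ≠ 1) (hD : HD A l v0)
    {β : Dual F (hy A l)} (hβ : β ≠ 0) {j : ℕ} {f : Submodule F V → 𝕜} (hf : f ∈ Eg ψ A l β)
    (hM : f ∈ Mo A (j + 1)) (h : rho A l v0 f ∈ Sp (Kb A l β) j) : f ∈ Sp A (j + 1) := by
  refine ⟨hM, fun Z hZ => ?_⟩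
  by_cases hZA : Z ≤ A
  · by_cases hZl : Z ≤ LinearMap.ker l
    · exact Eg_zero_of_le hψ hβ (up_Eg hf) hZl
    · obtain ⟨x, hx⟩ := hD.exists_x hZA hZl
      have h1 : up f Z = ψ (β x) * up f ((Z ⊓ LinearMap.ker l) ⊔ span F {v0}) := by
        have := congrFun (up_Eg hf x) ((Z ⊓ LinearMap.ker l) ⊔ span F {v0})
        rwa [act_apply, mp_tx_form hD hx, Pi.smul_apply, smul_eq_mul] at this
      rw [h1, up_rho hD (fun W hW => (hM W hW).1)
        ((le_sup_right : span F {v0} ≤ _) (mem_span_singleton_self v0)),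
        sup_inf_ker hD.one inf_le_right, h.2 _ _, mul_zero]
      have := finrank_inf_ker hZl
      omega
  · exact up_zero_of_not_le (fun W hW => (hM W hW).1) hZA

theorem rho_Sp [Module.Finite F V] {ψ : AddChar F 𝕜} (hψ : ψ ≠ 1) (hD : HD A l v0)
    {β : Dual F (hy A l)} {j : ℕ} {f : Submodule F V → 𝕜} (hf : f ∈ Eg ψ A l β)
    (hS : f ∈ Sp A (j + 1)) : rho A l v0 f ∈ Sp (Kb A l β) j := by
  refine ⟨rho_Mo hψ hD hf hS.1, fun Z hZ => ?_⟩
  by_cases hZh : Z ≤ hy A l
  · have hZl : Z ≤ LinearMap.ker l := hZh.trans inf_le_right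
    have h1 := up_rho hD (fun W hW => (hS.1 W hW).1)
      ((le_sup_right : span F {v0} ≤ Z ⊔ span F {v0}) (mem_span_singleton_self v0))
    rw [sup_inf_ker hD.one hZl] at h1
    rw [← h1]
    apply hS.2
    rw [finrank_sup_span hD.one hZl]
    omega
  · refine up_zero_of_not_le (B := hy A l) (fun W hW => ?_) hZh
    rw [rho_apply] at hW
    split_ifs at hW with h
    · exact h
    · exact absurd rfl hW

end fin

section iota
variable [Finite V]

/-- inverse (up to scaling) of `rho` on the `β`-part -/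
def io (ψ : AddChar F 𝕜) (A : Submodule F V) (l : Dual F V) (v0 : V) (β : Dual F (hy A l))
    (g : Submodule F V → 𝕜) : Submodule F V → 𝕜 := fun W =>
  if W ≤ A then g (W ⊓ LinearMap.ker l) * ∑ x : hy A l, if v0 + (x : V) ∈ W then ψ (β x) else 0
  else 0

theorem io_Eg (ψ : AddChar F 𝕜) (hD : HD A l v0) (β : Dual F (hy A l))
    (g : Submodule F V → 𝕜) : io ψ A l v0 β g ∈ Eg ψ A l β := by
  intro y
  ext W
  rw [act_apply, Pi.smul_apply, smul_eq_mul, io, io]
  simp only [mp_tx_le, mp_tx_inf]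
  split_ifs with h
  · have key : (∑ x : hy A l, if v0 + (x : V) ∈ mp (tx A l y) W then ψ (β x) else 0) =
        ψ (β y) * ∑ x : hy A l, if v0 + (x : V) ∈ W then ψ (β x) else 0 := by
      rw [Finset.mul_sum]
      refine Fintype.sum_equiv (Equiv.subRight y) _ _ fun x => ?_
      simp only [Equiv.subRight_apply, hD.mem_mp_tx]
      split_ifs with h2
      · rw [← AddChar.map_add_eq_mul]; congr 1; rw [map_sub]; ring
      · simp
    rw [key]; ring
  · simp

theorem io_Mo (ψ : AddChar F 𝕜) (hD : HD A l v0) (β : Dual F (hy A l)) {B : Submodule F V} {j : ℕ}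
    {g : Submodule F V → 𝕜} (hg : g ∈ Mo B j) : io ψ A l v0 β g ∈ Mo A (j + 1) := by
  intro W hW
  rw [io] at hW
  split_ifs at hW with h
  · refine ⟨h, ?_⟩
    have h1 : g (W ⊓ LinearMap.ker l) ≠ 0 := left_ne_zero_of_mul hW
    have h2 := (hg _ h1).2
    by_cases h3 : W ≤ LinearMap.ker l
    · exfalso
      apply hW
      rw [Finset.sum_eq_zero, mul_zero]
      intro x _
      rw [if_neg]
      intro h4
      have : l (v0 + x) = 0 := h3 h4
      rw [map_add, hD.one, hy_l, add_zero] at this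
      exact one_ne_zero this
    · rw [← finrank_inf_ker h3, h2]
  · exact absurd rfl hW

theorem rho_io [Finite F] (ψ : AddChar F 𝕜) (hD : HD A l v0) (β : Dual F (hy A l)) {j : ℕ}
    {g : Submodule F V → 𝕜} (hg : g ∈ Mo (Kb A l β) j) :
    rho A l v0 (io ψ A l v0 β g) = ((Nat.card F : 𝕜) ^ j) • g := by
  ext Y
  rw [rho_apply, Pi.smul_apply, smul_eq_mul]
  by_cases hgY : g Y = 0
  · rw [hgY, mul_zero]
    split_ifs with h
    · rw [io, sup_inf_ker hD.one (h.trans inf_le_right), hgY, zero_mul]; simp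
    · rfl
  · have h1 := hg Y hgY
    have hYh : Y ≤ hy A l := h1.1.trans (Kb_le β)
    have hYl : Y ≤ LinearMap.ker l := hYh.trans inf_le_right
    rw [if_pos hYh, io, sup_inf_ker hD.one hYl, if_pos, mul_comm]
    · congr 1
      have h2 : ∀ x : hy A l, (if v0 + (x : V) ∈ Y ⊔ span F {v0} then ψ (β x) else 0) =
          if (x : V) ∈ Y then (1 : 𝕜) else 0 := by
        intro x
        simp only [span_v0_iff hD hYl]
        split_ifs with h3
        · obtain ⟨h4, h5⟩ := mem_Kb.1 (h1.1 h3)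
          have : (⟨(x : V), h4⟩ : hy A l) = x := rfl
          rw [this] at h5
          rw [h5, AddChar.map_zero_eq_one]
        · rfl
      simp_rw [h2]
      rw [Finset.sum_boole, ← Nat.cast_pow]
      congr 1
      rw [← h1.2, ← Module.natCard_eq_pow_finrank (K := F) (V := Y), ← Fintype.card_subtype,
        ← Nat.card_eq_fintype_card]
      refine Nat.card_congr ⟨fun x => ⟨x.1.1, x.2⟩, fun y => ⟨⟨y.1, hYh y.2⟩, y.2⟩, ?_, ?_⟩
      · intro x; rfl
      · intro y; rfl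
    · refine sup_le (hYh.trans inf_le_left) ?_
      simpa [Submodule.span_singleton_le_iff_mem] using hD.mem

end iota

end

end BrauerPP
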