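import Pool.Agent.Lib.MP_4b46f5_al.Iota

/-!
Isotypic parts: pairing, radical and dimensions.
-/

open Module Submodule
open scoped Classical

namespace BrauerPP

noncomputable section

variable {F V 𝕜 : Type*} [Field F] [AddCommGroup V] [Module F V] [Field 𝕜]
variable {A : Submodule F V} {l : Dual F V} {v0 : V}

section
variable [Fintype (Submodule F V)] [Finite V] [Finite F]

theorem pr_off (hD : HD A l v0) {ψ : AddChar F 𝕜} {β γ : Dual F (hy A l)} (hβγ : β + γ = 0)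
    {j : ℕ} {f g : Submodule F V → 𝕜} (hf : f ∈ Eg ψ A l β) (hfM : f ∈ Mo A (j + 1))
    (hg : g ∈ Eg ψ A l γ) :
    ((Nat.card F : 𝕜) ^ j) * (∑ W with ¬ W ≤ LinearMap.ker l, f W * g W) =
      (Nat.card (hy A l) : 𝕜) * pr (rho A l v0 f) (rho A l v0 g) := by
  have h1 := hD.dc (fun W => f W * g W)
  have h2 : (∑ W with W ≤ A ∧ ¬ W ≤ LinearMap.ker l,
        Nat.card (W ⊓ LinearMap.ker l : Submodule F V) • (f W * g W)) =
      ((Nat.card F : 𝕜) ^ j) * (∑ W with ¬ W ≤ LinearMap.ker l, f W * g W) := by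
    rw [Finset.mul_sum, Finset.sum_filter, Finset.sum_filter]
    refine Finset.sum_congr rfl fun W _ => ?_
    by_cases h3 : f W = 0
    · simp [h3]
    · have h4 := hfM W h3
      by_cases h5 : W ≤ LinearMap.ker l
      · simp [h5]
      · rw [if_pos ⟨h4.1, h5⟩, if_pos h5, nsmul_eq_mul]
        congr 1
        rw [Module.natCard_eq_pow_finrank (K := F), Nat.cast_pow]
        congr 1
        have := finrank_inf_ker h5
        omega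
  rw [h2] at h1
  rw [h1]
  have h6 : ∀ x : hy A l, (∑ Y with Y ≤ hy A l, f (mp (tx A l x) (Y ⊔ span F {v0})) *
      g (mp (tx A l x) (Y ⊔ span F {v0}))) = pr (rho A l v0 f) (rho A l v0 g) := by
    intro x
    rw [pr, Finset.sum_filter]
    refine Finset.sum_congr rfl fun Y _ => ?_
    rw [rho_apply, rho_apply]
    split_ifs with h7
    · have h8 := congrFun (hf x) (Y ⊔ span F {v0})
      have h9 := congrFun (hg x) (Y ⊔ span F {v0})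
      rw [act_apply, Pi.smul_apply, smul_eq_mul] at h8 h9
      rw [h8, h9]
      have h10 : ψ (β x) * ψ (γ x) = 1 := by
        rw [← AddChar.map_add_eq_mul, ← LinearMap.add_apply, hβγ]; simp
      calc ψ (β x) * f (Y ⊔ span F {v0}) * (ψ (γ x) * g (Y ⊔ span F {v0}))
          = (ψ (β x) * ψ (γ x)) * (f (Y ⊔ span F {v0}) * g (Y ⊔ span F {v0})) := by ring
        _ = _ := by rw [h10, one_mul]
    · simp
  simp_rw [h6]
  rw [Finset.sum_const, Finset.card_univ, nsmul_eq_mul, Nat.card_eq_fintype_card]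

theorem pr_Eg_rho (hD : HD A l v0) {ψ : AddChar F 𝕜} (hψ : ψ ≠ 1) {β : Dual F (hy A l)}
    (hβ : β ≠ 0) {j : ℕ} {f g : Submodule F V → 𝕜} (hf : f ∈ Eg ψ A l β)
    (hfM : f ∈ Mo A (j + 1)) (hg : g ∈ Eg ψ A l (-β)) :
    ((Nat.card F : 𝕜) ^ j) * pr f g =
      (Nat.card (hy A l) : 𝕜) * pr (rho A l v0 f) (rho A l v0 g) := by
  rw [← pr_off hD (by simp) hf hfM hg]
  congr 1
  rw [pr, Finset.sum_filter]
  refine Finset.sum_congr rfl fun W _ => ?_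
  by_cases h : W ≤ LinearMap.ker l
  · rw [Eg_zero_of_le hψ hβ hf h]; simp [h]
  · simp [h]

theorem rho_inj (hD : HD A l v0) {ψ : AddChar F 𝕜} (hψ : ψ ≠ 1) {β : Dual F (hy A l)}
    (hβ : β ≠ 0) {f : Submodule F V → 𝕜} (hf : f ∈ Eg ψ A l β)
    (hfA : ∀ W, f W ≠ 0 → W ≤ A) (h0 : rho A l v0 f = 0) : f = 0 := by
  ext W
  by_contra hW
  have hWA := hfA W hW
  by_cases h : W ≤ LinearMap.ker l
  · exact hW (Eg_zero_of_le hψ hβ hf h)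
  · obtain ⟨x, hx⟩ := hD.exists_x hWA h
    apply hW
    rw [Eg_form hD hf hWA hx, h0]; simp

theorem Sp_stable (j : ℕ) (x : hy A l) (f : Submodule F V → 𝕜) (hf : f ∈ Sp A j) :
    act (tx A l x) f ∈ Sp A j := TI_Sp A j _ _ _ x.2.1 f hf

theorem Rad_stable (j : ℕ) (x : hy A l) (f : Submodule F V → 𝕜) (hf : f ∈ Rad (Sp A j)) :
    act (tx A l x) f ∈ Rad (Sp A j) := TI_Rad (TI_Sp A j) _ _ _ x.2.1 f hf

theorem exists_rho (hD : HD A l v0) {ψ : AddChar F 𝕜} (hψ : ψ ≠ 1) {β : Dual F (hy A l)}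
    (hβ : β ≠ 0) (hq : (Nat.card F : 𝕜) ≠ 0) {j : ℕ} {g : Submodule F V → 𝕜}
    (hg : g ∈ Sp (Kb A l β) j) :
    ∃ f, f ∈ Sp A (j + 1) ∧ f ∈ Eg ψ A l β ∧ rho A l v0 f = g := by
  have h1 : rho A l v0 (((Nat.card F : 𝕜) ^ j)⁻¹ • io ψ A l v0 β g) = g := by
    rw [map_smul, rho_io ψ hD β hg.1, smul_smul, inv_mul_cancel₀ (pow_ne_zero _ hq), one_smul]
  have h2 : ((Nat.card F : 𝕜) ^ j)⁻¹ • io ψ A l v0 β g ∈ Eg ψ A l β :=
    Submodule.smul_mem _ _ (io_Eg ψ hD β g)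
  refine ⟨_, Sp_of_rho hψ hD hβ h2 (Submodule.smul_mem _ _ (io_Mo ψ hD β hg.1)) ?_, h2, h1⟩
  rw [h1]; exact hg

theorem map_rho_Sp (hD : HD A l v0) {ψ : AddChar F 𝕜} (hψ : ψ ≠ 1) {β : Dual F (hy A l)}
    (hβ : β ≠ 0) (hq : (Nat.card F : 𝕜) ≠ 0) (j : ℕ) :
    (Sp A (j + 1) ⊓ Eg ψ A l β).map (rho A l v0) = Sp (Kb A l β) j := by
  ext g
  rw [Submodule.mem_map]
  constructor
  · rintro ⟨f, ⟨hf, hf'⟩, rfl⟩
    exact rho_Sp hψ hD hf' hf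
  · intro hg
    obtain ⟨f, hf, hf', h⟩ := exists_rho (ψ := ψ) hD hψ hβ hq hg
    exact ⟨f, ⟨hf, hf'⟩, h⟩

theorem card_hy_ne (hq : (Nat.card F : 𝕜) ≠ 0) : (Nat.card (hy A l) : 𝕜) ≠ 0 := by
  rw [Module.natCard_eq_pow_finrank (K := F), Nat.cast_pow]
  exact pow_ne_zero _ hq

/-- orthogonality to `Sp` can be tested on one isotypic part -/
theorem Rad_iff_Eg {ψ : AddChar F 𝕜} (hψ : ψ ≠ 1) {β : Dual F (hy A l)}
    (hq : (Nat.card F : 𝕜) ≠ 0) {S : Submodule 𝕜 (Submodule F V → 𝕜)}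
    (hS : ∀ x : hy A l, ∀ f ∈ S, act (tx A l x) f ∈ S)
    {f : Submodule F V → 𝕜} (hf : f ∈ Eg ψ A l β) :
    (∀ g ∈ S, pr f g = 0) ↔ ∀ g ∈ S, g ∈ Eg ψ A l (-β) → pr f g = 0 := by
  refine ⟨fun h g hg _ => h g hg, fun h g hg => ?_⟩
  rw [← sum_ep hψ (card_hy_ne (A := A) (l := l) hq) g, pr_sum_right]
  refine Finset.sum_eq_zero fun γ _ => ?_
  by_cases h1 : β + γ = 0
  · have h2 : γ = -β := (neg_eq_of_add_eq_zero_right h1).symm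
    exact h _ (ep_mem_of_stable ψ γ hS hg) (h2 ▸ ep_mem ψ γ g)
  · exact pr_Eg hψ h1 hf (ep_mem ψ γ g)

theorem Rad_rho (hD : HD A l v0) {ψ : AddChar F 𝕜} (hψ : ψ ≠ 1) {β : Dual F (hy A l)}
    (hβ : β ≠ 0) (hq : (Nat.card F : 𝕜) ≠ 0) {j : ℕ} {f : Submodule F V → 𝕜}
    (hf : f ∈ Sp A (j + 1)) (hfE : f ∈ Eg ψ A l β) :
    f ∈ Rad (Sp A (j + 1)) ↔ rho A l v0 f ∈ Rad (Sp (Kb A l β) j) := by
  have hc := card_hy_ne (A := A) (l := l) hq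
  have hqj : ((Nat.card F : 𝕜) ^ j) ≠ 0 := pow_ne_zero _ hq
  rw [mem_Rad, mem_Rad, Rad_iff_Eg hψ hq (Sp_stable (j + 1)) hfE]
  constructor
  · rintro ⟨_, h⟩
    refine ⟨rho_Sp hψ hD hfE hf, fun g hg => ?_⟩
    rw [← Kb_neg] at hg
    obtain ⟨f', hf', hf'E, rfl⟩ := exists_rho (ψ := ψ) hD hψ (neg_ne_zero.2 hβ) hq hg
    have h1 := pr_Eg_rho hD hψ hβ hfE hf.1 hf'E
    rw [h f' hf' hf'E, mul_zero] at h1
    exact (mul_eq_zero.1 h1.symm).resolve_left hc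
  · rintro ⟨_, h⟩
    refine ⟨hf, fun g hg hgE => ?_⟩
    have h1 := pr_Eg_rho hD hψ hβ hfE hf.1 hgE
    have h2 := rho_Sp hψ hD hgE hg
    rw [Kb_neg] at h2
    rw [h _ h2, mul_zero] at h1
    exact (mul_eq_zero.1 h1).resolve_left hqj

theorem map_rho_Rad (hD : HD A l v0) {ψ : AddChar F 𝕜} (hψ : ψ ≠ 1) {β : Dual F (hy A l)}
    (hβ : β ≠ 0) (hq : (Nat.card F : 𝕜) ≠ 0) (j : ℕ) :
    (Rad (Sp A (j + 1)) ⊓ Eg ψ A l β).map (rho A l v0) = Rad (Sp (Kb A l β) j) := by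
  ext g
  rw [Submodule.mem_map]
  constructor
  · rintro ⟨f, ⟨hf, hf'⟩, rfl⟩
    exact (Rad_rho hD hψ hβ hq hf.1 hf').1 hf
  · intro hg
    obtain ⟨f, hf, hf', rfl⟩ := exists_rho (ψ := ψ) hD hψ hβ hq hg.1
    exact ⟨f, ⟨(Rad_rho hD hψ hβ hq hf hf').2 hg, hf'⟩, rfl⟩

theorem finrank_map_rho (hD : HD A l v0) {ψ : AddChar F 𝕜} (hψ : ψ ≠ 1) {β : Dual F (hy A l)}
    (hβ : β ≠ 0) {U : Submodule 𝕜 (Submodule F V → 𝕜)} (hU : U ≤ Eg ψ A l β)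
    (hUA : ∀ f ∈ U, ∀ W, f W ≠ 0 → W ≤ A) :
    finrank 𝕜 (U.map (rho A l v0)) = finrank 𝕜 U := by
  have hinj : Function.Injective ((rho A l v0).domRestrict U) := by
    rw [injective_iff_map_eq_zero]
    intro f hf
    exact Subtype.ext (rho_inj hD hψ hβ (hU f.2) (hUA f f.2) hf)
  rw [← LinearMap.range_domRestrict, LinearMap.finrank_range_of_inj hinj]

theorem finrank_Sp_Eg (hD : HD A l v0) {ψ : AddChar F 𝕜} (hψ : ψ ≠ 1) {β : Dual F (hy A l)}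
    (hβ : β ≠ 0) (hq : (Nat.card F : 𝕜) ≠ 0) (j : ℕ) :
    finrank 𝕜 (Sp A (j + 1) ⊓ Eg ψ A l β : Submodule 𝕜 _) =
      finrank 𝕜 (Sp (Kb A l β) j : Submodule 𝕜 (Submodule F V → 𝕜)) := by
  rw [← map_rho_Sp hD hψ hβ hq j, finrank_map_rho hD hψ hβ inf_le_right]
  intro f hf W hW
  exact (hf.1.1 W hW).1

theorem finrank_Rad_Eg (hD : HD A l v0) {ψ : AddChar F 𝕜} (hψ : ψ ≠ 1) {β : Dual F (hy A l)}
    (hβ : β ≠ 0) (hq : (Nat.card F : 𝕜) ≠ 0) (j : ℕ) :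
    finrank 𝕜 (Rad (Sp A (j + 1)) ⊓ Eg ψ A l β : Submodule 𝕜 _) =
      finrank 𝕜 (Rad (Sp (Kb A l β) j) : Submodule 𝕜 (Submodule F V → 𝕜)) := by
  rw [← map_rho_Rad hD hψ hβ hq j, finrank_map_rho hD hψ hβ inf_le_right]
  intro f hf W hW
  exact (hf.1.1.1 W hW).1

end

end

end BrauerPP
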