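import Mathlib

/-!
The `p`-part of the order of the special linear group over a prime field.
-/

namespace BrauerPP

open Matrix

theorem card_SL_mul {F : Type*} [Field F] [Finite F] (n : ℕ) (hn : n ≠ 0) :
    Nat.card (Matrix.SpecialLinearGroup (Fin n) F) * (Nat.card F - 1) =
      ∏ i ∈ Finset.range n, (Nat.card F ^ n - Nat.card F ^ i) := by
  have := Fintype.ofFinite F
  have : Nonempty (Fin n) := ⟨⟨0, Nat.pos_of_ne_zero hn⟩⟩
  have h1 := Matrix.card_GL_field (𝔽 := F) n
  rw [Fin.prod_univ_eq_prod_range (fun i => Fintype.card F ^ n - Fintype.card F ^ i) n] at h1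
  rw [Nat.card_eq_fintype_card (α := F), ← h1]
  let D : GL (Fin n) F →* Fˣ := Matrix.GeneralLinearGroup.det
  have hD : Function.Surjective D := Matrix.GeneralLinearGroup.det_surjective
  have h2 := Subgroup.card_mul_index D.ker
  rw [Subgroup.index_ker, MonoidHom.range_eq_top.2 hD, Subgroup.card_top, Nat.card_units,
    Nat.card_eq_fintype_card (α := F)] at h2
  rw [← h2]
  congr 1
  refine Nat.card_congr (Equiv.ofBijective
    (fun g => (⟨Matrix.SpecialLinearGroup.toGL g, ?_⟩ : D.ker)) ⟨?_, ?_⟩)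
  · rw [MonoidHom.mem_ker]
    ext
    change Matrix.det (g : Matrix (Fin n) (Fin n) F) = 1
    exact g.2
  · intro g h hgh
    have h3 : Matrix.SpecialLinearGroup.toGL g = Matrix.SpecialLinearGroup.toGL h :=
      congrArg Subtype.val hgh
    exact Matrix.SpecialLinearGroup.toGL_injective h3
  · rintro ⟨g, hg⟩
    rw [MonoidHom.mem_ker] at hg
    have h3 : Matrix.det (g : Matrix (Fin n) (Fin n) F) = 1 := by
      have := congrArg Units.val hg
      exact this
    refine ⟨⟨g, h3⟩, ?_⟩
    apply Subtype.ext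
    apply Units.ext
    rfl

theorem padic_prod {p : ℕ} [Fact p.Prime] {q : ℕ} (hq : 2 ≤ q) (hpq : ¬ p ∣ q) (n : ℕ) :
    padicValNat p (∏ i ∈ Finset.range n, (q ^ n - q ^ i)) =
      ∑ j ∈ Finset.range n, padicValNat p (q ^ (j + 1) - 1) := by
  have h1 : ∀ i ∈ Finset.range n, q ^ n - q ^ i = q ^ i * (q ^ (n - i) - 1) := by
    intro i hi
    rw [Finset.mem_range] at hi
    rw [Nat.mul_sub, ← pow_add, mul_one]
    congr 2
    omega
  have h0 : ∀ j : ℕ, j ≠ 0 → q ^ j - 1 ≠ 0 := by
    intro j hj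
    have := Nat.one_lt_pow hj (by omega : 1 < q)
    omega
  rw [Finset.prod_congr rfl h1, Finset.prod_mul_distrib, padicValNat.mul, ]
  · have h2 : padicValNat p (∏ i ∈ Finset.range n, q ^ i) = 0 := by
      apply padicValNat.eq_zero_of_not_dvd
      intro h
      obtain ⟨i, _, hi⟩ := (Fact.out : p.Prime).prime.exists_mem_finset_dvd h
      exact hpq ((Fact.out : p.Prime).dvd_of_dvd_pow hi)
    rw [h2, zero_add]
    have h3 : ∀ s : Finset ℕ, (∀ i ∈ s, i < n) →
        padicValNat p (∏ i ∈ s, (q ^ (n - i) - 1)) = ∑ i ∈ s, padicValNat p (q ^ (n - i) - 1) := by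
      intro s
      induction s using Finset.induction_on with
      | empty => intro _; simp
      | insert a s ha ih =>
        intro hs
        rw [Finset.prod_insert ha, Finset.sum_insert ha, padicValNat.mul,
          ih fun i hi => hs i (Finset.mem_insert_of_mem hi)]
        · have := hs a (Finset.mem_insert_self _ _)
          exact h0 _ (by omega)
        · rw [Finset.prod_ne_zero_iff]
          intro i hi
          have := hs i (Finset.mem_insert_of_mem hi)
          exact h0 _ (by omega)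
    rw [h3 _ fun i hi => Finset.mem_range.1 hi]
    rw [← Finset.sum_range_reflect]
    refine Finset.sum_congr rfl fun i hi => ?_
    rw [Finset.mem_range] at hi
    congr 3
    omega
  · rw [Finset.prod_ne_zero_iff]
    intro i _
    exact pow_ne_zero _ (by omega)
  · rw [Finset.prod_ne_zero_iff]
    intro i hi
    rw [Finset.mem_range] at hi
    exact h0 _ (by omega)

theorem val_odd {p : ℕ} [hp : Fact p.Prime] (hp2 : p ≠ 2) {q : ℕ} (hq : 2 ≤ q)
    (h1 : p ∣ q + 1) (i : ℕ) : padicValNat p (q ^ (2 * i + 1) - 1) = 0 := by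
  apply padicValNat.eq_zero_of_not_dvd
  intro h
  have h2 : (p : ℤ) ∣ (q : ℤ) + 1 := by exact_mod_cast h1
  have h3 : (p : ℤ) ∣ (q : ℤ) ^ (2 * i + 1) - 1 := by
    have h4 : 1 ≤ q ^ (2 * i + 1) := Nat.one_le_pow _ _ (by omega)
    have : ((q ^ (2 * i + 1) - 1 : ℕ) : ℤ) = (q : ℤ) ^ (2 * i + 1) - 1 := by
      push_cast [Nat.cast_sub h4]; ring
    rw [← this]; exact_mod_cast h
  have h4 : (p : ℤ) ∣ (q : ℤ) ^ (2 * i + 1) + 1 := by
    have h5 := Odd.add_dvd_pow_add_pow (q : ℤ) 1 (⟨i, rfl⟩ : Odd (2 * i + 1))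
    rw [one_pow] at h5
    exact h2.trans h5
  have h5 : (p : ℤ) ∣ 2 := by
    have := dvd_sub h4 h3
    have h6 : (q : ℤ) ^ (2 * i + 1) + 1 - ((q : ℤ) ^ (2 * i + 1) - 1) = 2 := by ring
    rwa [h6] at this
  have h6 : p ∣ 2 := by exact_mod_cast h5
  exact hp2 ((Nat.prime_dvd_prime_iff_eq hp.out Nat.prime_two).1 h6)

theorem val_even {p : ℕ} [hp : Fact p.Prime] (hp2 : p ≠ 2) {q : ℕ} (hq : 2 ≤ q)
    (h1 : padicValNat p (q + 1) = 1) {i : ℕ} (hi : i ≠ 0) :
    padicValNat p (q ^ (2 * i) - 1) = 1 + padicValNat p i := by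
  have hd : p ∣ q + 1 := by
    by_contra h
    rw [padicValNat.eq_zero_of_not_dvd h] at h1
    exact absurd h1 (by norm_num)
  have hpq : ¬ p ∣ q := by
    intro h
    have := (Nat.dvd_add_right h).1 hd
    exact hp.out.one_lt.ne' (Nat.dvd_one.1 this)
  have h2 : q ^ 2 - 1 = (q + 1) * (q - 1) := by
    have := Nat.sq_sub_sq q 1
    simpa using this
  have h3 : padicValNat p (q - 1) = 0 := by
    have := val_odd hp2 hq hd 0
    simpa using this
  have h4 := padicValNat.pow_sub_pow (hp := hp) (p := p) (x := q ^ 2) (y := 1)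
    (hp.out.odd_of_ne_two hp2) (Nat.one_lt_pow (by norm_num) (by omega))
    (by rw [h2]; exact hd.mul_right _)
    (fun h => hpq (hp.out.dvd_of_dvd_pow h)) hi
  rw [one_pow, ← pow_mul] at h4
  rw [h4, h2, padicValNat.mul (by omega) (by omega), h1, h3]

theorem sum_even {p : ℕ} [hp : Fact p.Prime] (hp2 : p ≠ 2) {q : ℕ} (hq : 2 ≤ q)
    (h1 : padicValNat p (q + 1) = 1) (m : ℕ) :
    ∑ j ∈ Finset.range (2 * m), padicValNat p (q ^ (j + 1) - 1) =
      ∑ i ∈ Finset.range m, (1 + padicValNat p (i + 1)) := by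
  have hd : p ∣ q + 1 := by
    by_contra h
    rw [padicValNat.eq_zero_of_not_dvd h] at h1
    exact absurd h1 (by norm_num)
  induction m with
  | zero => simp
  | succ m ih =>
    have : 2 * (m + 1) = 2 * m + 1 + 1 := by ring
    rw [this, Finset.sum_range_succ, Finset.sum_range_succ, ih, Finset.sum_range_succ,
      val_odd hp2 hq hd]
    have h2 : 2 * m + 1 + 1 = 2 * (m + 1) := by ring
    rw [h2, val_even hp2 hq h1 (by omega)]
    ring

/-- the `p`-part of the order of the special linear group, odd `p` -/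
theorem val_card_SL {p : ℕ} [hp : Fact p.Prime] (hp2 : p ≠ 2) {F : Type*} [Field F] [Finite F]
    (h1 : padicValNat p (Nat.card F + 1) = 1) {m : ℕ} (hm : m ≠ 0) :
    padicValNat p (Nat.card (Matrix.SpecialLinearGroup (Fin (2 * m)) F)) =
      ∑ i ∈ Finset.range m, (1 + padicValNat p (i + 1)) := by
  have hq : 2 ≤ Nat.card F := by
    have := Fintype.ofFinite F
    rw [Nat.card_eq_fintype_card]
    exact Fintype.one_lt_card
  have hd : p ∣ Nat.card F + 1 := by
    by_contra h
    rw [padicValNat.eq_zero_of_not_dvd h] at h1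
    exact absurd h1 (by norm_num)
  have hpq : ¬ p ∣ Nat.card F := by
    intro h
    have := (Nat.dvd_add_right h).1 hd
    exact hp.out.one_lt.ne' (Nat.dvd_one.1 this)
  have h2 := congrArg (padicValNat p) (card_SL_mul (F := F) (2 * m) (by omega))
  rw [padic_prod hq hpq, sum_even hp2 hq h1, padicValNat.mul] at h2
  · have h3 : padicValNat p (Nat.card F - 1) = 0 := by
      have := val_odd hp2 hq hd 0
      simpa using this
    rw [h3, add_zero] at h2
    exact h2
  · have : Finite (Matrix.SpecialLinearGroup (Fin (2 * m)) F) := inferInstance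
    exact Nat.card_pos.ne'
  · omega

theorem val_two_mul (k r : ℕ) : padicValNat 2 (2 ^ k * (2 * r + 1)) = k := by
  rw [padicValNat.mul (by positivity) (by omega), padicValNat.prime_pow,
    padicValNat.eq_zero_of_not_dvd (by omega), add_zero]

/-- the `2`-part of the order of `SL₅` -/
theorem val_card_SL5 {F : Type*} [Field F] [Finite F] (h1 : Nat.card F % 16 = 3) :
    padicValNat 2 (Nat.card (Matrix.SpecialLinearGroup (Fin 5) F)) = 9 := by
  obtain ⟨s, hs⟩ : ∃ s, Nat.card F = 16 * s + 3 := ⟨Nat.card F / 16, by omega⟩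
  have hq : 2 ≤ Nat.card F := by omega
  have hpq : ¬ 2 ∣ Nat.card F := by omega
  have h2 := congrArg (padicValNat 2) (card_SL_mul (F := F) 5 (by omega))
  rw [padic_prod hq hpq, padicValNat.mul] at h2
  · have e0 : Nat.card F - 1 = 2 ^ 1 * (2 * (4 * s) + 1) := by rw [hs]; omega
    have e1 : Nat.card F ^ (0 + 1) - 1 = 2 ^ 1 * (2 * (4 * s) + 1) := by
      rw [zero_add, pow_one]; exact e0
    have e2 : Nat.card F ^ (1 + 1) - 1 = 2 ^ 3 * (2 * (16 * s ^ 2 + 6 * s) + 1) := by
      apply Nat.sub_eq_of_eq_add; rw [hs]; ring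
    have e3 : Nat.card F ^ (2 + 1) - 1 = 2 ^ 1 *
        (2 * (1024 * s ^ 3 + 576 * s ^ 2 + 108 * s + 6) + 1) := by
      apply Nat.sub_eq_of_eq_add; rw [hs]; ring
    have e4 : Nat.card F ^ (3 + 1) - 1 = 2 ^ 4 *
        (2 * (2048 * s ^ 4 + 1536 * s ^ 3 + 432 * s ^ 2 + 54 * s + 2) + 1) := by
      apply Nat.sub_eq_of_eq_add; rw [hs]; ring
    have e5 : Nat.card F ^ (4 + 1) - 1 = 2 ^ 1 *
        (2 * (262144 * s ^ 5 + 245760 * s ^ 4 + 92160 * s ^ 3 + 17280 * s ^ 2 + 1620 * s + 60)
          + 1) := by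
      apply Nat.sub_eq_of_eq_add; rw [hs]; ring
    simp only [Finset.sum_range_succ, Finset.sum_range_zero] at h2
    rw [e0, e1, e2, e3, e4, e5] at h2
    simp only [val_two_mul] at h2
    omega
  · have : Finite (Matrix.SpecialLinearGroup (Fin 5) F) := inferInstance
    exact Nat.card_pos.ne'
  · omega

end BrauerPP
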