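import Pool.Agent.Lib.MP_4b46f5_al.Hens

/-!
The degree polynomials.
-/

namespace BrauerPP

noncomputable section

open Polynomial

theorem eval_gz (x : ℤ) (n k : ℕ) : (gz (X : ℤ[X]) n k).eval x = gz x n k := by
  have := gz_map (evalRingHom x) (X : ℤ[X]) n k
  simpa using this.symm

theorem gz_pos {N : ℕ} (hN : 1 ≤ N) : ∀ n k : ℕ, k ≤ n → 1 ≤ gz N n k := by
  intro n
  induction n with
  | zero => intro k hk; rw [Nat.le_zero.1 hk]; simp
  | succ n ih =>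
    intro k hk
    cases k with
    | zero => simp
    | succ k =>
      rw [gz_succ]
      have h1 := ih k (by omega)
      have h2 : 1 ≤ N ^ (n - k) := Nat.one_le_pow _ _ hN
      have : 1 ≤ N ^ (n - k) * gz N n k := Nat.mul_le_mul h2 h1
      omega

/-- values and derivatives at `-1` -/
theorem gz_at (m : ℕ) : gz (-1 : ℤ) (2 * m) 1 = 0 ∧ gz (-1 : ℤ) (2 * m) 2 = m ∧
    (derivative (gz (X : ℤ[X]) (2 * m) 1)).eval (-1) = m ∧
    (derivative (gz (X : ℤ[X]) (2 * m) 2)).eval (-1) = -2 * m * (m - 1) := by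
  induction m with
  | zero => simp [gz]
  | succ m ih =>
    obtain ⟨h1, h2, h3, h4⟩ := ih
    have e : 2 * (m + 1) = 2 * m + 1 + 1 := by ring
    have g1 : ∀ {R : Type} [CommRing R] (q : R), gz q (2 * m + 1 + 1) 1 =
        gz q (2 * m) 1 + q ^ (2 * m) + q ^ (2 * m + 1) := by
      intro R _ q
      rw [gz_succ, gz_succ]; simp
    have g2 : ∀ {R : Type} [CommRing R] (q : R), gz q (2 * m + 1 + 1) 2 =
        gz q (2 * m) 2 + q ^ (2 * m - 1) * gz q (2 * m) 1 +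
          q ^ (2 * m) * (gz q (2 * m) 1 + q ^ (2 * m)) := by
      intro R _ q
      rw [gz_succ, gz_succ q (2 * m) 1, gz_succ q (2 * m) 0]; simp
    have p1 : (-1 : ℤ) ^ (2 * m) = 1 := by rw [pow_mul]; simp
    have p2 : (-1 : ℤ) ^ (2 * m + 1) = -1 := by rw [pow_succ, p1]; simp
    have v1 : (gz (X : ℤ[X]) (2 * m) 1).eval (-1) = 0 := by rw [eval_gz, h1]
    have dX : ∀ k : ℕ, (derivative ((X : ℤ[X]) ^ k)).eval (-1) = k * (-1) ^ (k - 1) := by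
      intro k; simp [derivative_X_pow]
    have p3 : ((2 * m : ℕ) : ℤ) * (-1) ^ (2 * m - 1) = -(2 * m) := by
      rcases Nat.eq_zero_or_pos m with h0 | h0
      · subst h0; simp
      · have : (-1 : ℤ) ^ (2 * m - 1) = -1 := by
          have h5 : Odd (2 * m - 1) := ⟨m - 1, by omega⟩
          exact h5.neg_one_pow
        rw [this]; push_cast; ring
    have p4 : (-1 : ℤ) ^ (2 * m - 1) * (m : ℤ) = -m := by
      rcases Nat.eq_zero_or_pos m with h0 | h0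
      · subst h0; simp
      · have : (-1 : ℤ) ^ (2 * m - 1) = -1 := by
          have h5 : Odd (2 * m - 1) := ⟨m - 1, by omega⟩
          exact h5.neg_one_pow
        rw [this]; ring
    rw [e]
    refine ⟨?_, ?_, ?_, ?_⟩
    · rw [g1, h1, p1, p2]; ring
    · rw [g2, h2, h1, p1]; push_cast; ring
    · rw [g1, derivative_add, derivative_add, eval_add, eval_add, h3, dX, dX, p3]
      have : 2 * m + 1 - 1 = 2 * m := by omega
      rw [this, p1]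
      push_cast; ring
    · rw [g2]
      simp only [derivative_add, derivative_mul, eval_add, eval_mul, h3, h4, v1, dX, eval_pow,
        eval_X, p1, p3, p4, mul_zero, zero_add, mul_one]
      push_cast
      ring

/-- degree polynomial, `p ≥ 5` -/
def P5 (t : ℕ) : ℤ[X] :=
  ((gz X (2 * t + 4) 2 - 1) + (X ^ (2 * t + 4) - 1) *
      (gz X (2 * t + 2) 1 + (X ^ (2 * t + 2) - 1) * 1)) +
    (X ^ (2 * t + 5) - 1) * ((gz X (2 * t + 2) 1 + (X ^ (2 * t + 2) - 1) * 1) +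
      (X ^ (2 * t + 2 + 1) - 1) * 1)

theorem cast_deg5 {N : ℕ} (hN : 1 ≤ N) (t : ℕ) : ((deg5 N t : ℕ) : ℤ) = (P5 t).eval (N : ℤ) := by
  have h : ∀ k, 1 ≤ N ^ k := fun k => Nat.one_le_pow _ _ hN
  rw [deg5, P5]
  simp only [eval_add, eval_mul, eval_sub, eval_pow, eval_X, eval_one, eval_gz]
  push_cast [Nat.cast_sub (h _), Nat.cast_sub (gz_pos hN (2 * t + 4) 2 (by omega)), gz_cast]
  ring

theorem P5_eval (t : ℕ) : (P5 t).eval (-1) = (t : ℤ) + 5 := by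
  have e4 : 2 * t + 4 = 2 * (t + 2) := by ring
  have e2 : 2 * t + 2 = 2 * (t + 1) := by ring
  obtain ⟨h1, h2, -, -⟩ := gz_at (t + 2)
  obtain ⟨h3, -, -, -⟩ := gz_at (t + 1)
  have p4 : (-1 : ℤ) ^ (2 * t + 4) = 1 := by rw [e4, pow_mul]; simp
  have p2 : (-1 : ℤ) ^ (2 * t + 2) = 1 := by rw [e2, pow_mul]; simp
  have p5 : (-1 : ℤ) ^ (2 * t + 5) = -1 := by rw [pow_succ, p4]; simp
  have p3 : (-1 : ℤ) ^ (2 * t + 2 + 1) = -1 := by rw [pow_succ, p2]; simp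
  rw [← e4] at h2
  rw [← e2] at h3
  rw [P5]
  simp only [eval_add, eval_mul, eval_sub, eval_pow, eval_X, eval_one, eval_gz, h2, h3, p4, p2,
    p5, p3]
  push_cast
  ring

theorem P5_deriv (t : ℕ) : (derivative (P5 t)).eval (-1) = -2 * ((t : ℤ) + 3) ^ 2 := by
  have e4 : 2 * t + 4 = 2 * (t + 2) := by ring
  have e2 : 2 * t + 2 = 2 * (t + 1) := by ring
  obtain ⟨-, -, -, h4⟩ := gz_at (t + 2)
  obtain ⟨h1, -, h3, -⟩ := gz_at (t + 1)
  rw [← e4] at h4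
  rw [← e2] at h1 h3
  have p4 : (-1 : ℤ) ^ (2 * t + 4) = 1 := by rw [e4, pow_mul]; simp
  have p2 : (-1 : ℤ) ^ (2 * t + 2) = 1 := by rw [e2, pow_mul]; simp
  have p5 : (-1 : ℤ) ^ (2 * t + 5) = -1 := by rw [pow_succ, p4]; simp
  have p3 : (-1 : ℤ) ^ (2 * t + 3) = -1 := by rw [pow_succ, p2]; simp
  have p1 : (-1 : ℤ) ^ (2 * t + 1) = -1 := by
    have : Odd (2 * t + 1) := ⟨t, rfl⟩
    exact this.neg_one_pow
  rw [P5]
  simp only [derivative_add, derivative_sub, derivative_mul, derivative_one, derivative_X_pow,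
    eval_add, eval_mul, eval_sub, eval_pow, eval_X, eval_one, eval_gz, eval_zero, h4, h1, h3,
    eval_natCast, Nat.add_sub_cancel, map_natCast]
  have s1 : 2 * t + 4 - 1 = 2 * t + 3 := by omega
  have s2 : 2 * t + 2 - 1 = 2 * t + 1 := by omega
  have s3 : 2 * t + 5 - 1 = 2 * t + 4 := by omega
  have s4 : 2 * t + 2 + 1 = 2 * t + 3 := by omega
  simp only [s1, s2, s3, s4, p4, p2, p5, p3, p1]
  push_cast
  ring

/-- degree polynomial, `p = 2` -/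
def P2 : ℤ[X] := X ^ 6 + X ^ 5 + X ^ 4 + X ^ 3 + X ^ 2 - 1

theorem cast_deg2 {N : ℕ} (hN : 1 ≤ N) : ((deg2 N : ℕ) : ℤ) = P2.eval (N : ℤ) := by
  have h : ∀ k, 1 ≤ N ^ k := fun k => Nat.one_le_pow _ _ hN
  have h42 : gz N 4 2 = (N ^ 4 - 1) + N ^ 3 + 2 * N ^ 2 + N + 1 + 1 := by
    have h5 : gz N 4 2 = N ^ 4 + N ^ 3 + 2 * N ^ 2 + N + 1 := by simp [gz]; ring
    have := h 4
    omega
  rw [deg2, h42, Nat.add_sub_cancel, Nat.add_sub_cancel, P2]
  have h21 : gz N 2 1 = N + 1 := by simp [gz]; ring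
  rw [h21]
  simp only [eval_add, eval_sub, eval_pow, eval_X, eval_one]
  push_cast [Nat.cast_sub (h _)]
  ring

/-- degree polynomial, `p = 3` -/
def P31 : ℤ[X] := X + 1 + (X ^ 2 - 1)
/-- degree polynomial, `p = 3` -/
def P41 : ℤ[X] := P31 + (X ^ 3 - 1)
/-- degree polynomial, `p = 3` -/
def P52 : ℤ[X] := (X ^ 4 + X ^ 3 + 2 * X ^ 2 + X) + (X ^ 4 - 1) * P31
/-- degree polynomial, `p = 3` -/
def P62 : ℤ[X] := P52 + (X ^ 5 - 1) * P41
/-- degree polynomial, `p = 3` -/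
def P73 : ℤ[X] := (X ^ 2 + 2 * X ^ 3 + 2 * X ^ 4 + 2 * X ^ 5 + 3 * X ^ 6 + 2 * X ^ 7 + X ^ 8 +
  X ^ 9) + (X ^ 6 - 1) * P52
/-- degree polynomial, `p = 3` -/
def P83 : ℤ[X] := P73 + (X ^ 7 - 1) * P62
/-- degree polynomial, `p = 3` -/
def P94 : ℤ[X] := (X ^ 3 + 2 * X ^ 4 + 2 * X ^ 5 + 3 * X ^ 6 + 4 * X ^ 7 + 5 * X ^ 8 +
  5 * X ^ 9 + 5 * X ^ 10 + 4 * X ^ 11 + 4 * X ^ 12 + 3 * X ^ 13 + 2 * X ^ 14 + X ^ 15 +
  X ^ 16 - 1) + (X ^ 8 - 1) * P73
/-- degree polynomial, `p = 3` -/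
def P3 : ℤ[X] := P94 + (X ^ 9 - 1) * P83

theorem cast_deg3 {N : ℕ} (hN : 1 ≤ N) : ((deg3 N : ℕ) : ℤ) = P3.eval (N : ℤ) := by
  have h : ∀ k, 1 ≤ N ^ k := fun k => Nat.one_le_pow _ _ hN
  have h21 : gz N 2 1 = N + 1 := by simp [gz]; ring
  have h42 : gz N 4 2 - 1 = N ^ 4 + N ^ 3 + 2 * N ^ 2 + N := by
    apply Nat.sub_eq_of_eq_add; simp [gz]; ring
  have h63 : gz N 6 3 - gz N 6 1 = N ^ 2 + 2 * N ^ 3 + 2 * N ^ 4 + 2 * N ^ 5 + 3 * N ^ 6 +
      2 * N ^ 7 + N ^ 8 + N ^ 9 := by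
    apply Nat.sub_eq_of_eq_add; simp [gz]; ring
  have h84 : gz N 8 4 - gz N 8 2 - 1 = (N ^ 3 - 1) + 2 * N ^ 4 + 2 * N ^ 5 + 3 * N ^ 6 +
      4 * N ^ 7 + 5 * N ^ 8 + 5 * N ^ 9 + 5 * N ^ 10 + 4 * N ^ 11 + 4 * N ^ 12 + 3 * N ^ 13 +
      2 * N ^ 14 + N ^ 15 + N ^ 16 := by
    have h5 : gz N 8 4 - gz N 8 2 = N ^ 3 + 2 * N ^ 4 + 2 * N ^ 5 + 3 * N ^ 6 +
      4 * N ^ 7 + 5 * N ^ 8 + 5 * N ^ 9 + 5 * N ^ 10 + 4 * N ^ 11 + 4 * N ^ 12 + 3 * N ^ 13 +
      2 * N ^ 14 + N ^ 15 + N ^ 16 := by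
      apply Nat.sub_eq_of_eq_add; simp [gz]; ring
    have := h 3
    omega
  have c31 : ((e31 N : ℕ) : ℤ) = P31.eval (N : ℤ) := by
    rw [e31, P31, h21]
    simp only [eval_add, eval_mul, eval_sub, eval_pow, eval_X, eval_one]
    push_cast [Nat.cast_sub (h _)]; ring
  have c41 : ((e41 N : ℕ) : ℤ) = P41.eval (N : ℤ) := by
    rw [e41, P41]
    simp only [eval_add, eval_mul, eval_sub, eval_pow, eval_X, eval_one, ← c31]
    push_cast [Nat.cast_sub (h _)]; ring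
  have c52 : ((e52 N : ℕ) : ℤ) = P52.eval (N : ℤ) := by
    rw [e52, P52, h42]
    simp only [eval_add, eval_mul, eval_sub, eval_pow, eval_X, eval_one, eval_ofNat, ← c31]
    push_cast [Nat.cast_sub (h _)]; ring
  have c62 : ((e62 N : ℕ) : ℤ) = P62.eval (N : ℤ) := by
    rw [e62, P62]
    simp only [eval_add, eval_mul, eval_sub, eval_pow, eval_X, eval_one, ← c52, ← c41]
    push_cast [Nat.cast_sub (h _)]; ring
  have c73 : ((e73 N : ℕ) : ℤ) = P73.eval (N : ℤ) := by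
    rw [e73, P73, h63]
    simp only [eval_add, eval_mul, eval_sub, eval_pow, eval_X, eval_one, eval_ofNat, ← c52]
    push_cast [Nat.cast_sub (h _)]; ring
  have c83 : ((e83 N : ℕ) : ℤ) = P83.eval (N : ℤ) := by
    rw [e83, P83]
    simp only [eval_add, eval_mul, eval_sub, eval_pow, eval_X, eval_one, ← c73, ← c62]
    push_cast [Nat.cast_sub (h _)]; ring
  have c94 : ((e94 N : ℕ) : ℤ) = P94.eval (N : ℤ) := by
    rw [e94, P94, h84]
    simp only [eval_add, eval_mul, eval_sub, eval_pow, eval_X, eval_one, eval_ofNat, ← c73]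
    push_cast [Nat.cast_sub (h _)]; ring
  rw [deg3, P3]
  simp only [eval_add, eval_mul, eval_sub, eval_pow, eval_X, eval_one, ← c94, ← c83]
  push_cast [Nat.cast_sub (h _)]; ring

theorem P3_eval : P3.eval (-1) = 21 := by
  simp [P3, P94, P83, P73, P62, P52, P41, P31]

theorem P3_deriv : (derivative P3).eval (-1) = -250 := by
  simp [P3, P94, P83, P73, P62, P52, P41, P31]

end

end BrauerPP
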