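import Pool.Agent.Lib.MP_4b46f5_al.RepQ
import Pool.Agent.Lib.MP_4b46f5_al.Order
import Pool.Agent.Lib.MP_4b46f5_al.Polys

/-!
Assembly: groups with bounded `p`-part and irreducible modules of dimension divisible by
arbitrarily high powers of `p`.
-/

open Module Submodule
open scoped Classical

set_option linter.unusedSectionVars false
set_option linter.unusedSimpArgs false

universe u

namespace BrauerPP

noncomputable section

theorem finite_sub (F V : Type*) [Field F] [AddCommGroup V] [Module F V] [Finite V] :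
    Finite (Submodule F V) :=
  Finite.of_injective (fun W : Submodule F V => (W : Set V)) SetLike.coe_injective

theorem exists_psi (p q : ℕ) (hp : p.Prime) (hq : q.Prime) (hpq : p ≠ q) (𝕜 : Type u) [Field 𝕜]
    [IsAlgClosed 𝕜] [CharP 𝕜 p] : ∃ ψ : AddChar (ZMod q) 𝕜, ψ ≠ 1 := by
  have : Fact q.Prime := ⟨hq⟩
  have hne : NeZero ((q : ℕ) : 𝕜) := by
    constructor
    intro h
    rw [CharP.cast_eq_zero_iff 𝕜 p] at h
    exact hpq ((Nat.prime_dvd_prime_iff_eq hp hq).1 h)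
  obtain ⟨ζ, hζ⟩ := HasEnoughRootsOfUnity.exists_primitiveRoot 𝕜 q
  refine ⟨AddChar.zmodChar q hζ.pow_eq_one, fun h => ?_⟩
  have h1 : AddChar.zmodChar q hζ.pow_eq_one (1 : ℕ) = 1 := by rw [h]; simp
  rw [AddChar.zmodChar_apply', pow_one] at h1
  exact hζ.ne_one hq.one_lt h1

/-- the packaged output of the construction -/
def Good1 (p : ℕ) (𝕜 : Type u) [Field 𝕜] (a δ : ℕ) : Prop :=
  ∃ (G : Type) (_ : Group G) (_ : Finite G) (V : Type u) (_ : AddCommGroup V) (_ : Module 𝕜 V)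
    (ρ : Representation 𝕜 G V), ρ.IsIrreducible ∧ FiniteDimensional 𝕜 V ∧
      padicValNat p (Nat.card G) = a ∧ finrank 𝕜 V = δ

theorem good_of {p : ℕ} [hp : Fact p.Prime] (𝕜 : Type u) [Field 𝕜] [IsAlgClosed 𝕜]
    [CharP 𝕜 p] {q : ℕ} [hq : Fact q.Prime] {n k δ A : ℕ}
    (hord : padicValNat p (Nat.card (Matrix.SpecialLinearGroup (Fin n) (ZMod q))) = A)
    (hδ : δ ≠ 0)
    (H : ∀ (_ : Fintype (Submodule (ZMod q) (Fin n → ZMod q))),
      Irr 𝕜 (⊤ : Submodule (ZMod q) (Fin n → ZMod q)) k ∧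
      Dm 𝕜 (⊤ : Submodule (ZMod q) (Fin n → ZMod q)) k δ) (b : ℕ) :
    Good1 p 𝕜 (A + b) δ := by
  have := finite_sub (ZMod q) (Fin n → ZMod q)
  let _ : Fintype (Submodule (ZMod q) (Fin n → ZMod q)) := Fintype.ofFinite _
  obtain ⟨hI, hd⟩ := H inferInstance
  let φ0 : Matrix.SpecialLinearGroup (Fin n) (ZMod q) →*
      ((Fin n → ZMod q) ≃ₗ[ZMod q] (Fin n → ZMod q)) := Matrix.SpecialLinearGroup.toLin'
  have hN : NeZero (p ^ b) := ⟨pow_ne_zero _ hp.out.ne_zero⟩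
  let G := Matrix.SpecialLinearGroup (Fin n) (ZMod q) × Multiplicative (ZMod (p ^ b))
  let φ : G →* ((Fin n → ZMod q) ≃ₗ[ZMod q] (Fin n → ZMod q)) := φ0.comp (MonoidHom.fst _ _)
  have hφ : ∀ (l : Dual (ZMod q) (Fin n → ZMod q)) (h : Fin n → ZMod q) (hl : l h = 0),
      ∃ g, φ g = tv l h hl := by
    intro l h hl
    let u : _root_.SpecialLinearGroup (ZMod q) (Fin n → ZMod q) :=
      ⟨tv l h hl, LinearEquiv.transvection.det_eq_one hl⟩
    refine ⟨(Matrix.SpecialLinearGroup.toLin'_equiv.symm u, 1), ?_⟩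
    have h1 := Matrix.SpecialLinearGroup.toLin'_equiv.apply_symm_apply u
    exact congrArg Subtype.val h1
  refine ⟨G, inferInstance, inferInstance, _, _, _, repQ 𝕜 φ k, repQ_irr φ hφ hI hd hδ,
    ?_, ?_, finrank_Q hd⟩
  · apply FiniteDimensional.of_finrank_pos
    rw [finrank_Q hd]; omega
  · rw [Nat.card_prod, padicValNat.mul Nat.card_pos.ne' Nat.card_pos.ne', hord]
    congr 1
    have : Nat.card (Multiplicative (ZMod (p ^ b))) = p ^ b := by
      rw [Nat.card_congr Multiplicative.toAdd, Nat.card_zmod]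
    rw [this, padicValNat.prime_pow]

theorem cast_neg_one {p : ℕ} [hp : Fact p.Prime] (𝕜 : Type u) [Field 𝕜] [CharP 𝕜 p] {q : ℕ}
    [hq : Fact q.Prime] (h : p ∣ q + 1) : (Nat.card (ZMod q) : 𝕜) = -1 := by
  rw [Nat.card_zmod]
  have h1 : ((q + 1 : ℕ) : 𝕜) = 0 := (CharP.cast_eq_zero_iff 𝕜 p _).2 h
  push_cast at h1
  linear_combination h1

theorem le_val {p : ℕ} [hp : Fact p.Prime] {δ M : ℕ} (h : δ ≠ 0) (hd : p ^ M ∣ δ) :
    M ≤ padicValNat p δ := (padicValNat_dvd_iff_le h).1 hd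

theorem val_one_of {p : ℕ} [hp : Fact p.Prime] {P : Polynomial ℤ} {q M : ℕ}
    (h1 : (p : ℤ) ∣ (q : ℤ) - (-1)) (h2 : (p : ℤ) ^ (M + 2) ∣ P.eval (q : ℤ))
    (h3 : ¬ (p : ℤ) ^ 2 ∣ P.eval (-1)) : padicValNat p (q + 1) = 1 := by
  have hd : p ∣ q + 1 := by
    have : (p : ℤ) ∣ ((q + 1 : ℕ) : ℤ) := by push_cast; simpa using h1
    exact_mod_cast this
  have hnd : ¬ p ^ 2 ∣ q + 1 := by
    intro h
    apply h3
    have h4 : (p : ℤ) ^ 2 ∣ (q : ℤ) - (-1) := by
      have : ((p ^ 2 : ℕ) : ℤ) ∣ ((q + 1 : ℕ) : ℤ) := by exact_mod_cast h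
      push_cast at this
      simpa using this
    obtain ⟨w, hw⟩ := Polynomial.evalSubFactor P (q : ℤ) (-1)
    have h5 : P.eval (-1) = P.eval (q : ℤ) - w * ((q : ℤ) - (-1)) := by rw [← hw]; ring
    rw [h5]
    refine dvd_sub ((pow_dvd_pow _ (by omega)).trans h2) (h4.mul_left _)
  have h6 : 1 ≤ padicValNat p (q + 1) := one_le_padicValNat_of_dvd (by omega) hd
  have h7 : ¬ 2 ≤ padicValNat p (q + 1) := by
    intro h
    exact hnd ((padicValNat_dvd_iff_le (by omega)).2 h)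
  omega

theorem good5 {p : ℕ} [hp : Fact p.Prime] (hp5 : 5 ≤ p) (𝕜 : Type u) [Field 𝕜] [IsAlgClosed 𝕜]
    [CharP 𝕜 p] (M b : ℕ) : ∃ δ, M ≤ padicValNat p δ ∧ Good1 p 𝕜 ((p - 2) + b) δ := by
  obtain ⟨t, ht⟩ : ∃ t, p = t + 5 := ⟨p - 5, by omega⟩
  have hpZ : Prime (p : ℤ) := Nat.prime_iff_prime_int.1 hp.out
  have he : (P5 t).eval (-1) = (p : ℤ) := by rw [P5_eval, ht]; push_cast; ring
  have hde : ¬ (p : ℤ) ∣ (Polynomial.derivative (P5 t)).eval (-1) := by
    rw [P5_deriv]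
    intro h
    have h2 : (p : ℤ) ∣ 2 * ((t : ℤ) + 3) ^ 2 := by
      have := (dvd_neg (a := (p : ℤ))).2 h
      have e : -(-2 * ((t : ℤ) + 3) ^ 2) = 2 * ((t : ℤ) + 3) ^ 2 := by ring
      rwa [e] at this
    rcases hpZ.dvd_mul.1 h2 with h3 | h3
    · have : p ∣ 2 := by exact_mod_cast h3
      have := Nat.le_of_dvd (by norm_num) this
      omega
    · have h4 := hpZ.dvd_of_dvd_pow h3
      have : p ∣ t + 3 := by exact_mod_cast h4
      have := Nat.le_of_dvd (by omega) this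
      omega
  have ha : ¬ (p : ℤ) ∣ (-1 : ℤ) := by
    intro h
    exact hpZ.not_isUnit (isUnit_of_dvd_unit h (by simp))
  obtain ⟨q, hq, hqp, h1, h2⟩ := exists_prime_root (P5 t) hp.out (a := -1) (by rw [he])
    hde ha (M + 1) p
  have : Fact q.Prime := ⟨hq⟩
  have h3 : ¬ (p : ℤ) ^ 2 ∣ (P5 t).eval (-1) := by
    rw [he]
    intro h
    have h4 : (p ^ 2 : ℕ) ∣ p := by exact_mod_cast h
    have := Nat.le_of_dvd (by omega) h4
    nlinarith
  have hv := val_one_of h1 h2 h3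
  have hdq : p ∣ q + 1 := by
    by_contra h
    rw [padicValNat.eq_zero_of_not_dvd h] at hv
    exact absurd hv (by norm_num)
  have hq1 : (Nat.card (ZMod q) : 𝕜) = -1 := cast_neg_one 𝕜 hdq
  obtain ⟨ψ, hψ⟩ := exists_psi p q hp.out hq (by omega) 𝕜
  have hp2 : p ≠ 2 := by omega
  have hcast := cast_deg5 (N := q) (by omega) t
  have hδ : deg5 q t ≠ 0 := by
    have hq2 : 2 ≤ q := hq.two_le
    have e1 : 2 ≤ q ^ (2 * t + 5) := le_trans hq2 (Nat.le_self_pow (by omega) q)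
    have e2 : 1 ≤ gz q (2 * t + 2) 1 := gz_pos (by omega) _ _ (by omega)
    rw [deg5]
    have e3 : 0 < (q ^ (2 * t + 5) - 1) * ((gz q (2 * t + 2) 1 + (q ^ (2 * t + 2) - 1) * 1) +
      (q ^ (2 * t + 2 + 1) - 1) * 1) := Nat.mul_pos (by omega) (by omega)
    omega
  have hdvd : p ^ (M + 2) ∣ deg5 q t := by
    have : ((p ^ (M + 2) : ℕ) : ℤ) ∣ ((deg5 q t : ℕ) : ℤ) := by
      rw [hcast]; push_cast; exact h2
    exact_mod_cast this
  refine ⟨deg5 q t, ?_, ?_⟩
  · have := le_val hδ hdvd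
    omega
  · have hord : padicValNat p (Nat.card (Matrix.SpecialLinearGroup (Fin (2 * (t + 3)))
        (ZMod q))) = p - 2 := by
      have hvF : padicValNat p (Nat.card (ZMod q) + 1) = 1 := by rw [Nat.card_zmod]; exact hv
      rw [val_card_SL hp2 hvF (by omega)]
      have : ∀ i ∈ Finset.range (t + 3), 1 + padicValNat p (i + 1) = 1 := by
        intro i hi
        rw [Finset.mem_range] at hi
        rw [padicValNat.eq_zero_of_not_dvd]
        intro h
        have := Nat.le_of_dvd (by omega) h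
        omega
      rw [Finset.sum_congr rfl this]
      simp
      omega
    refine good_of (p := p) 𝕜 (k := 2) hord hδ (fun _ => ?_) b
    have hn : finrank (ZMod q) (⊤ : Submodule (ZMod q) (Fin (2 * (t + 3)) → ZMod q)) =
        2 * t + 6 := by
      rw [finrank_top, Module.finrank_fin_fun]; ring
    have h422 : gz (-1 : 𝕜) (2 * t + 4) 2 ≠ 0 := by
      have e4 : 2 * t + 4 = 2 * (t + 2) := by ring
      rw [gz_neg_cast, e4, (gz_at (t + 2)).2.1]
      intro h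
      have h5 : ((t + 2 : ℕ) : 𝕜) = 0 := by exact_mod_cast h
      rw [CharP.cast_eq_zero_iff 𝕜 p] at h5
      have := Nat.le_of_dvd (by omega) h5
      omega
    have := main5 (𝕜 := 𝕜) hψ hq1 hn h422
    rwa [Nat.card_zmod] at this

theorem good3 (𝕜 : Type u) [Field 𝕜] [IsAlgClosed 𝕜]
    [CharP 𝕜 3] (M b : ℕ) : ∃ δ, M ≤ padicValNat 3 δ ∧ Good1 3 𝕜 (6 + b) δ := by
  have hp : Fact (Nat.Prime 3) := ⟨Nat.prime_three⟩
  obtain ⟨q, hq, hqp, h1, h2⟩ := exists_prime_root P3 (p := 3) hp.out (a := -1)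
    (by rw [P3_eval]; norm_num) (by rw [P3_deriv]; norm_num) (by norm_num) (M + 1) 3
  have : Fact q.Prime := ⟨hq⟩
  have h3 : ¬ ((3 : ℕ) : ℤ) ^ 2 ∣ P3.eval (-1) := by rw [P3_eval]; norm_num
  have hv := val_one_of (p := 3) h1 h2 h3
  have hdq : 3 ∣ q + 1 := by
    by_contra h
    rw [padicValNat.eq_zero_of_not_dvd h] at hv
    exact absurd hv (by norm_num)
  have hq1 : (Nat.card (ZMod q) : 𝕜) = -1 := cast_neg_one (p := 3) 𝕜 hdq
  obtain ⟨ψ, hψ⟩ := exists_psi 3 q hp.out hq (by omega) 𝕜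
  have hcast := cast_deg3 (N := q) (by omega)
  have hδ : deg3 q ≠ 0 := by
    have hq2 : 2 ≤ q := hq.two_le
    have e : ∀ k, k ≠ 0 → 0 < q ^ k - 1 := fun k hk => by
      have : 2 ≤ q ^ k := le_trans hq2 (Nat.le_self_pow hk q)
      omega
    have g31 : 0 < e31 q := by
      rw [e31]; have := e 2 (by norm_num); omega
    have g41 : 0 < e41 q := by rw [e41]; omega
    have g62 : 0 < e62 q := by
      rw [e62]; have := Nat.mul_pos (e 5 (by norm_num)) g41; omega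
    have g83 : 0 < e83 q := by
      rw [e83]; have := Nat.mul_pos (e 7 (by norm_num)) g62; omega
    rw [deg3]
    have := Nat.mul_pos (e 9 (by norm_num)) g83
    omega
  have hdvd : 3 ^ (M + 2) ∣ deg3 q := by
    have : ((3 ^ (M + 2) : ℕ) : ℤ) ∣ ((deg3 q : ℕ) : ℤ) := by
      rw [hcast]; push_cast; exact_mod_cast h2
    exact_mod_cast this
  refine ⟨deg3 q, ?_, ?_⟩
  · have := le_val (p := 3) hδ hdvd
    omega
  · have hord : padicValNat 3 (Nat.card (Matrix.SpecialLinearGroup (Fin (2 * 5))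
        (ZMod q))) = 6 := by
      have hvF : padicValNat 3 (Nat.card (ZMod q) + 1) = 1 := by rw [Nat.card_zmod]; exact hv
      rw [val_card_SL (p := 3) (by norm_num) hvF (by omega)]
      have v1 : padicValNat 3 1 = 0 := by simp
      have v2 : padicValNat 3 2 = 0 := padicValNat.eq_zero_of_not_dvd (by norm_num)
      have v3 : padicValNat 3 3 = 1 := padicValNat_self
      have v4 : padicValNat 3 4 = 0 := padicValNat.eq_zero_of_not_dvd (by norm_num)
      have v5 : padicValNat 3 5 = 0 := padicValNat.eq_zero_of_not_dvd (by norm_num)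
      simp [Finset.sum_range_succ, v1, v2, v3, v4, v5]
    refine good_of (p := 3) 𝕜 (k := 4) hord hδ (fun _ => ?_) b
    have hn : finrank (ZMod q) (⊤ : Submodule (ZMod q) (Fin (2 * 5) → ZMod q)) = 10 := by
      rw [finrank_top, Module.finrank_fin_fun]
    have h30 : (3 : 𝕜) = 0 := by
      have := (CharP.cast_eq_zero_iff 𝕜 3 3).2 dvd_rfl
      exact_mod_cast this
    have := main3 (𝕜 := 𝕜) hψ hq1 hn h30
    rwa [Nat.card_zmod] at this

/-- the noncyclotomic factor for `p = 2` -/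
def P2' : Polynomial ℤ :=
  Polynomial.X ^ 5 + Polynomial.X ^ 3 + Polynomial.X - 1

theorem P2'_mod {q : ℕ} (h2 : (16 : ℤ) ∣ P2'.eval (q : ℤ)) : q % 16 = 3 := by
  have key : ∀ r : ZMod 16, r ^ 5 + r ^ 3 + r - 1 = 0 → r = 3 := by decide
  have h3 : ((P2'.eval (q : ℤ) : ℤ) : ZMod 16) = 0 := by
    rw [ZMod.intCast_zmod_eq_zero_iff_dvd]; exact_mod_cast h2
  have h4 : (q : ZMod 16) ^ 5 + (q : ZMod 16) ^ 3 + q - 1 = 0 := by
    rw [← h3, P2']
    simp
  have h5 := key _ h4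
  have h6 : ((q : ℕ) : ZMod 16) = ((3 : ℕ) : ZMod 16) := by rw [h5]; rfl
  rw [ZMod.natCast_eq_natCast_iff'] at h6
  simpa using h6

theorem good2 (𝕜 : Type u) [Field 𝕜] [IsAlgClosed 𝕜]
    [CharP 𝕜 2] (M b : ℕ) : ∃ δ, M ≤ padicValNat 2 δ ∧ Good1 2 𝕜 (9 + b) δ := by
  have hp : Fact (Nat.Prime 2) := ⟨Nat.prime_two⟩
  obtain ⟨q, hq, hqp, h1, h2⟩ := exists_prime_root P2' (p := 2) hp.out (a := 1)
    (by simp [P2']) (by simp [P2']) (by norm_num) (M + 3) 2
  have : Fact q.Prime := ⟨hq⟩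
  have hmod : q % 16 = 3 := by
    apply P2'_mod
    have : (16 : ℤ) = ((2 : ℕ) : ℤ) ^ 4 := by norm_num
    rw [this]
    exact (pow_dvd_pow _ (by omega)).trans h2
  have hdq : 2 ∣ q + 1 := by omega
  have hq1 : (Nat.card (ZMod q) : 𝕜) = -1 := cast_neg_one (p := 2) 𝕜 hdq
  obtain ⟨ψ, hψ⟩ := exists_psi 2 q hp.out hq (by omega) 𝕜
  have hcast := cast_deg2 (N := q) (by omega)
  have hfac : P2.eval (q : ℤ) = ((q : ℤ) + 1) * P2'.eval (q : ℤ) := by
    rw [P2, P2']
    simp only [Polynomial.eval_add, Polynomial.eval_sub, Polynomial.eval_pow, Polynomial.eval_X,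
      Polynomial.eval_one]
    ring
  have hδ : deg2 q ≠ 0 := by
    have hq2 : 2 ≤ q := hq.two_le
    have e : ∀ k, k ≠ 0 → 0 < q ^ k - 1 := fun k hk => by
      have : 2 ≤ q ^ k := le_trans hq2 (Nat.le_self_pow hk q)
      omega
    rw [deg2]
    have h5 := e 2 (by norm_num)
    have := Nat.mul_pos (e 4 (by norm_num))
      (show 0 < gz q 2 1 + (q ^ 2 - 1) * 1 by omega)
    omega
  have hdvd : 2 ^ (M + 3 + 1) ∣ deg2 q := by
    have : ((2 ^ (M + 3 + 1) : ℕ) : ℤ) ∣ ((deg2 q : ℕ) : ℤ) := by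
      rw [hcast, hfac]; push_cast; exact_mod_cast h2.mul_left _
    exact_mod_cast this
  refine ⟨deg2 q, ?_, ?_⟩
  · have := le_val (p := 2) hδ hdvd
    omega
  · have hord : padicValNat 2 (Nat.card (Matrix.SpecialLinearGroup (Fin 5) (ZMod q))) = 9 :=
      val_card_SL5 (by rw [Nat.card_zmod]; exact hmod)
    refine good_of (p := 2) 𝕜 (k := 2) hord hδ (fun _ => ?_) b
    have hn : finrank (ZMod q) (⊤ : Submodule (ZMod q) (Fin 5 → ZMod q)) = 5 := by
      rw [finrank_top, Module.finrank_fin_fun]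
    have h20 : (2 : 𝕜) = 0 := by
      have := (CharP.cast_eq_zero_iff 𝕜 2 2).2 dvd_rfl
      exact_mod_cast this
    have := main2 (𝕜 := 𝕜) hψ hq1 hn h20
    rwa [Nat.card_zmod] at this

/-- a threshold beyond which the bound function is infinite -/
def thr (p : ℕ) : ℕ := if p = 2 then 9 else if p = 3 then 6 else p - 2

theorem good_all {p : ℕ} [hp : Fact p.Prime] (𝕜 : Type u) [Field 𝕜] [IsAlgClosed 𝕜]
    [CharP 𝕜 p] (M b : ℕ) : ∃ δ, M ≤ padicValNat p δ ∧ Good1 p 𝕜 (thr p + b) δ := by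
  by_cases h2 : p = 2
  · subst h2
    rw [thr, if_pos rfl]
    exact good2 𝕜 M b
  · by_cases h3 : p = 3
    · subst h3
      rw [thr, if_neg (by norm_num), if_pos rfl]
      exact good3 𝕜 M b
    · rw [thr, if_neg h2, if_neg h3]
      have h5 : 5 ≤ p := by
        have := hp.out.two_le
        have h4 : p ≠ 4 := by
          rintro rfl
          exact absurd hp.out (by norm_num)
        omega
      exact good5 h5 𝕜 M b

end

end BrauerPP
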