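import Pool.Agent.Lib.MP_4b46f5_al.Tfix2

/-!
Dimension of the function spaces and of their radicals.
-/

open Module Submodule
open scoped Classical

set_option linter.unusedSectionVars false
set_option linter.unusedSimpArgs false

namespace BrauerPP

noncomputable section

variable {F V 𝕜 : Type*} [Field F] [AddCommGroup V] [Module F V] [Field 𝕜]
variable {B : Submodule F V}
variable [Fintype (Submodule F V)]

/-- `Mo B k` is the space of functions on the `k`-dimensional subspaces of `B` -/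
def MoEquiv (𝕜 : Type*) [Field 𝕜] (B : Submodule F V) (k : ℕ) :
    (Mo B k : Submodule 𝕜 (Submodule F V → 𝕜)) ≃ₗ[𝕜]
      ({W : Submodule F V // W ≤ B ∧ finrank F W = k} → 𝕜) where
  toFun f W := f.1 W.1
  invFun g := ⟨fun W => if h : W ≤ B ∧ finrank F W = k then g ⟨W, h⟩ else 0, by
    intro W hW
    by_contra h
    exact hW (dif_neg h)⟩
  left_inv f := by
    apply Subtype.ext
    ext W
    by_cases h : W ≤ B ∧ finrank F W = k
    · simp only [dif_pos h]
    · simp only [dif_neg h]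
      exact (Mo_eq_zero f.2 h).symm
  right_inv g := by
    ext W
    simp only [dif_pos W.2]
  map_add' f g := by ext W; simp
  map_smul' c f := by ext W; simp

theorem finrank_Mo [Finite V] [Finite F] (B : Submodule F V) (k : ℕ) :
    finrank 𝕜 (Mo B k : Submodule 𝕜 (Submodule F V → 𝕜)) =
      gz (Nat.card F) (finrank F B) k := by
  rw [(MoEquiv 𝕜 B k).finrank_eq, Module.finrank_fintype_fun_eq_card, Fintype.card_subtype]
  have := card_interval (F := F) (V := V) ⊥ (finrank F B) B bot_le (by simp) k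
  simpa using this

/-- delta function -/
def dl (𝕜 : Type*) [Field 𝕜] (W : Submodule F V) : Submodule F V → 𝕜 :=
  fun W' => if W' = W then 1 else 0

theorem dl_Mo {k : ℕ} {W : Submodule F V} (h : W ≤ B ∧ finrank F W = k) :
    dl 𝕜 W ∈ Mo B k := by
  intro W' hW'
  rw [dl] at hW'
  split_ifs at hW' with h1
  · rw [h1]; exact h
  · exact absurd rfl hW'

theorem pr_dl (f : Submodule F V → 𝕜) (W : Submodule F V) : pr f (dl 𝕜 W) = f W := by
  rw [pr, Finset.sum_eq_single W]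
  · simp [dl]
  · intro W' _ h; simp [dl, h]
  · intro h; exact absurd (Finset.mem_univ _) h

theorem Mo_perp {k : ℕ} {f : Submodule F V → 𝕜} (hf : f ∈ Mo B k)
    (h : ∀ g ∈ Mo B k, pr f g = 0) : f = 0 := by
  ext W
  by_contra h1
  apply h1
  rw [← pr_dl f W]
  exact h _ (dl_Mo (hf W h1))

/-- double orthogonal inside `Mo B k` -/
theorem perp_perp {k : ℕ} {R : Submodule 𝕜 (Submodule F V → 𝕜)} (hR : R ≤ Mo B k)
    {f : Submodule F V → 𝕜} (hf : f ∈ Mo B k)
    (h : ∀ a ∈ Mo B k, (∀ g ∈ R, pr g a = 0) → pr a f = 0) : f ∈ R := by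
  have hrefl : (bf (Mo B k : Submodule 𝕜 (Submodule F V → 𝕜))).IsRefl := by
    intro f g h
    rw [bf_apply] at h ⊢
    rw [pr_comm]; exact h
  have hnd : (bf (Mo B k : Submodule 𝕜 (Submodule F V → 𝕜))).Nondegenerate := by
    refine (LinearMap.IsRefl.nondegenerate_iff_separatingLeft hrefl).2 ?_
    intro x hx
    apply Subtype.ext
    refine Mo_perp x.2 fun g hg => ?_
    exact hx ⟨g, hg⟩
  have h1 := LinearMap.BilinForm.orthogonal_orthogonal hnd hrefl
    (R.comap (Mo B k : Submodule 𝕜 (Submodule F V → 𝕜)).subtype)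
  have h2 : (⟨f, hf⟩ : (Mo B k : Submodule 𝕜 (Submodule F V → 𝕜))) ∈
      R.comap (Mo B k : Submodule 𝕜 (Submodule F V → 𝕜)).subtype := by
    rw [← h1, LinearMap.BilinForm.mem_orthogonal_iff]
    intro a ha
    rw [LinearMap.BilinForm.mem_orthogonal_iff] at ha
    refine h a a.2 fun g hg => ?_
    exact ha ⟨g, hR hg⟩ hg
  exact h2

section cnt
variable [Finite V] [Finite F]

theorem mem_Kk_iff {i : ℕ} (hcoef : ∀ i' < i, gz (Nat.card F : 𝕜) (i + 2 - i') (i - i') ≠ 0)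
    {a : Submodule F V → 𝕜} : a ∈ Kk B (i + 2) ↔ a ∈ Mo B (i + 2) ∧ dd B i a = 0 := by
  constructor
  · rintro ⟨h1, h2⟩
    refine ⟨h1, ?_⟩
    ext Y
    rw [dd_apply]
    split_ifs with h
    · exact h2 Y (by omega)
    · rfl
  · rintro ⟨h1, h2⟩
    refine ⟨h1, fun Z hZ => ?_⟩
    by_cases hZB : Z ≤ B
    · by_cases h3 : finrank F Z = i
      · have := congrFun h2 Z
        rwa [dd_apply, if_pos ⟨hZB, h3⟩] at this
      · have h4 := up_dd (j := i) h1 (Z := Z) (i := i - finrank F Z) (by omega) rfl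
        rw [h2, map_zero, Pi.zero_apply] at h4
        exact (mul_eq_zero.1 h4.symm).resolve_left (hcoef _ (by omega))
    · exact up_zero_of_not_le (fun W hW => (h1 W hW).1) hZB

/-- the functions whose down-up transform vanishes -/
def TT (𝕜 : Type*) [Field 𝕜] (B : Submodule F V) (i : ℕ) :
    Submodule 𝕜 (Submodule F V → 𝕜) :=
  Mo B i ⊓ LinearMap.ker ((dd B i).comp (dn B (i + 2)))

theorem mem_TT {i : ℕ} {c : Submodule F V → 𝕜} :
    c ∈ TT 𝕜 B i ↔ c ∈ Mo B i ∧ dd B i (dn B (i + 2) c) = 0 := Iff.rfl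

theorem Rad_Kk_eq {i : ℕ} (hcoef : ∀ i' < i, gz (Nat.card F : 𝕜) (i + 2 - i') (i - i') ≠ 0) :
    Rad (Kk B (i + 2)) = (TT 𝕜 B i).map (dn B (i + 2)) := by
  ext f
  rw [mem_Rad, Submodule.mem_map]
  constructor
  · rintro ⟨hf, h⟩
    have h1 : f ∈ (Mo B i : Submodule 𝕜 (Submodule F V → 𝕜)).map (dn B (i + 2)) := by
      refine perp_perp (B := B) (k := i + 2) ?_ hf.1 fun a ha hag => ?_
      · rintro x ⟨c, _, rfl⟩
        exact dn_Mo _ _ _
      · rw [pr_comm]
        apply h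
        rw [mem_Kk_iff hcoef]
        refine ⟨ha, Mo_perp (dd_Mo B i a) fun c hc => ?_⟩
        rw [pr_comm, ← pr_dn ha hc]
        exact hag _ ⟨c, hc, rfl⟩
    obtain ⟨c, hc, rfl⟩ := h1
    exact ⟨c, ⟨hc, ((mem_Kk_iff hcoef).1 hf).2⟩, rfl⟩
  · rintro ⟨c, ⟨hc, hc'⟩, rfl⟩
    refine ⟨(mem_Kk_iff hcoef).2 ⟨dn_Mo _ _ _, hc'⟩, fun g hg => ?_⟩
    rw [pr_dn hg.1 hc, ((mem_Kk_iff hcoef).1 hg).2, pr_zero_right]

theorem finrank_map_inj {f : (Submodule F V → 𝕜) →ₗ[𝕜] (Submodule F V → 𝕜)}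
    {U : Submodule 𝕜 (Submodule F V → 𝕜)} (h : ∀ x ∈ U, f x = 0 → x = 0) :
    finrank 𝕜 (U.map f) = finrank 𝕜 U := by
  have h1 := finrank_map_add_inf f U
  have h2 : U ⊓ LinearMap.ker f = ⊥ := by
    rw [eq_bot_iff]
    rintro x ⟨hx, hx'⟩
    exact h x hx hx'
  rw [h2, finrank_bot, add_zero] at h1
  exact h1

theorem finrank_Kk {i : ℕ} (hcoef : ∀ i' < i, gz (Nat.card F : 𝕜) (i + 2 - i') (i - i') ≠ 0)
    (hinj : ∀ c ∈ (Mo B i : Submodule 𝕜 (Submodule F V → 𝕜)), dn B (i + 2) c = 0 → c = 0) :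
    finrank 𝕜 (Kk B (i + 2) : Submodule 𝕜 (Submodule F V → 𝕜)) +
      gz (Nat.card F) (finrank F B) i = gz (Nat.card F) (finrank F B) (i + 2) := by
  have h1 := finrank_map_add_inf (dd B i) (Mo B (i + 2) : Submodule 𝕜 (Submodule F V → 𝕜))
  have h2 : (Mo B (i + 2) : Submodule 𝕜 (Submodule F V → 𝕜)) ⊓ LinearMap.ker (dd B i) =
      Kk B (i + 2) := by
    ext a
    rw [mem_Kk_iff hcoef]; rfl
  have h3 : (Mo B (i + 2) : Submodule 𝕜 (Submodule F V → 𝕜)).map (dd B i) = Mo B i := by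
    apply le_antisymm
    · rintro x ⟨a, _, rfl⟩
      exact dd_Mo _ _ _
    · intro f hf
      refine perp_perp (B := B) (k := i) ?_ hf fun c hc hcg => ?_
      · rintro x ⟨a, _, rfl⟩
        exact dd_Mo _ _ _
      · have : c = 0 := by
          refine hinj c hc (Mo_perp (dn_Mo _ _ _) fun a ha => ?_)
          rw [pr_dn ha hc, pr_comm]
          exact hcg _ ⟨a, ha, rfl⟩
        rw [this, pr_zero_left]
  rw [h2, h3, finrank_Mo, finrank_Mo] at h1
  omega

theorem finrank_Rad_Kk {i : ℕ}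
    (hcoef : ∀ i' < i, gz (Nat.card F : 𝕜) (i + 2 - i') (i - i') ≠ 0)
    (hinj : ∀ c ∈ (Mo B i : Submodule 𝕜 (Submodule F V → 𝕜)), dn B (i + 2) c = 0 → c = 0) :
    finrank 𝕜 (Rad (Kk B (i + 2)) : Submodule 𝕜 (Submodule F V → 𝕜)) =
      finrank 𝕜 (TT 𝕜 B i) := by
  rw [Rad_Kk_eq hcoef, finrank_map_inj]
  intro x hx
  exact hinj x hx.1

/-- constant function on the `k`-dimensional subspaces of `B` -/
def cst (𝕜 : Type*) [Field 𝕜] (B : Submodule F V) (k : ℕ) : Submodule F V → 𝕜 :=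
  fun W => if W ≤ B ∧ finrank F W = k then 1 else 0

theorem cst_Mo (k : ℕ) : cst 𝕜 B k ∈ Mo B k := by
  intro W hW
  rw [cst] at hW
  split_ifs at hW with h
  · exact h
  · exact absurd rfl hW

/-- constant on the `k`-dimensional subspaces of `B` -/
def IsC (B : Submodule F V) (k : ℕ) (f : Submodule F V → 𝕜) : Prop :=
  ∀ W W' : Submodule F V, (W ≤ B ∧ finrank F W = k) → (W' ≤ B ∧ finrank F W' = k) → f W = f W'

theorem IsC.eq_smul {k : ℕ} {f : Submodule F V → 𝕜} (hf : f ∈ Mo B k) (h : IsC B k f) :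
    ∃ c : 𝕜, f = c • cst 𝕜 B k := by
  by_cases h0 : ∃ W : Submodule F V, W ≤ B ∧ finrank F W = k
  · obtain ⟨W, hW⟩ := h0
    refine ⟨f W, ?_⟩
    ext W'
    rw [Pi.smul_apply, smul_eq_mul, cst]
    split_ifs with h1
    · rw [mul_one]; exact h _ _ h1 hW
    · rw [mul_zero]; exact Mo_eq_zero hf h1
  · refine ⟨0, ?_⟩
    ext W'
    rw [zero_smul]
    exact Mo_eq_zero hf fun h1 => h0 ⟨W', h1⟩

theorem isC_smul (c : 𝕜) (k : ℕ) : IsC B k (c • cst 𝕜 B k) := by
  intro W W' h h'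
  simp [cst, h, h']

theorem pr_cst {k : ℕ} {f : Submodule F V → 𝕜} (hf : f ∈ Mo B k) :
    pr (cst 𝕜 B k) f = up f ⊥ := by
  rw [pr, up_apply]
  refine Finset.sum_congr rfl fun W _ => ?_
  rw [if_pos bot_le, cst]
  split_ifs with h
  · rw [one_mul]
  · rw [zero_mul, Mo_eq_zero hf h]

theorem dn_cst {i k : ℕ} :
    dn B k (cst 𝕜 B i) = gz (Nat.card F : 𝕜) k i • cst 𝕜 B k := by
  ext W
  rw [dn_apply, Pi.smul_apply, smul_eq_mul, cst]
  split_ifs with h
  · have h1 := sum_interval (F := F) (V := V) (𝕜 := 𝕜) (Z := ⊥) (B := W) (i := i) (k := i) bot_le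
      (by simp) (Nat.card F : 𝕜) rfl
    rw [finrank_bot, Nat.sub_zero, h.2] at h1
    rw [mul_one, ← h1]
    refine Finset.sum_congr rfl fun Y _ => ?_
    by_cases h2 : Y ≤ W
    · by_cases h3 : finrank F Y = i
      · rw [if_pos h2, if_pos ⟨bot_le, h2, h3⟩, cst, if_pos ⟨h2.trans h.1, h3⟩]
      · rw [if_pos h2, if_neg (fun h => h3 h.2.2), cst, if_neg (fun h => h3 h.2)]
    · rw [if_neg h2, if_neg (fun h => h2 h.2.1)]
  · rw [mul_zero]

theorem up_cst {k : ℕ} {Z : Submodule F V} {i : ℕ} (hZB : Z ≤ B) (hi : finrank F Z + i = k) :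
    up (cst 𝕜 B k) Z = gz (Nat.card F : 𝕜) (finrank F B - finrank F Z) i := by
  rw [← sum_interval hZB hi (Nat.card F : 𝕜) rfl, up_apply]
  refine Finset.sum_congr rfl fun Y _ => ?_
  by_cases h2 : Z ≤ Y
  · rw [if_pos h2, cst]; simp only [h2, true_and]
  · rw [if_neg h2, if_neg (fun h => h2 h.1)]

end cnt

end

end BrauerPP
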