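import Pool.Agent.Lib.MP_4b46f5_al.Chains

/-!
The representation on the quotient of `Sp ⊤ k` by its radical.
-/

open Module Submodule
open scoped Classical

set_option linter.unusedSectionVars false
set_option linter.unusedSimpArgs false

namespace BrauerPP

noncomputable section

variable {F V 𝕜 : Type*} [Field F] [AddCommGroup V] [Module F V] [Field 𝕜]
variable [Fintype (Submodule F V)] [Finite V] [Finite F]

theorem act_Sp_top (g : V ≃ₗ[F] V) {k : ℕ} {f : Submodule F V → 𝕜} (hf : f ∈ Sp ⊤ k) :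
    act g f ∈ Sp ⊤ k := by
  refine ⟨fun W hW => ⟨le_top, ?_⟩, fun Z hZ => ?_⟩
  · have := (hf.1 _ hW).2
    rwa [finrank_mp] at this
  · rw [up_act, act_apply]
    exact hf.2 _ (by rwa [finrank_mp])

theorem act_Rad_top (g : V ≃ₗ[F] V) {k : ℕ} {f : Submodule F V → 𝕜} (hf : f ∈ Rad (Sp ⊤ k)) :
    act g f ∈ Rad (Sp ⊤ k) := by
  refine ⟨act_Sp_top g hf.1, fun h hh => ?_⟩
  rw [pr_act_left]
  exact hf.2 _ (act_Sp_top _ hh)

variable {G : Type*} [Group G]

/-- the action on `Sp ⊤ k` -/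
def repS (𝕜 : Type*) [Field 𝕜] (φ : G →* (V ≃ₗ[F] V)) (k : ℕ) :
    Representation 𝕜 G (Sp ⊤ k : Submodule 𝕜 (Submodule F V → 𝕜)) where
  toFun g := (act (φ g)⁻¹).restrict fun _ hf => act_Sp_top _ hf
  map_one' := by
    ext f W
    simp only [LinearMap.coe_restrict_apply, map_one, inv_one, act_apply]
    change (f : Submodule F V → 𝕜) (mp (LinearEquiv.refl F V) W) = _
    rw [mp_refl]; rfl
  map_mul' g h := by
    ext f W
    simp only [LinearMap.coe_restrict_apply, map_mul, mul_inv_rev, act_apply, Module.End.mul_apply]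
    rw [mp_mp]
    rfl

theorem repS_apply (φ : G →* (V ≃ₗ[F] V)) (k : ℕ) (g : G)
    (f : (Sp ⊤ k : Submodule 𝕜 (Submodule F V → 𝕜))) :
    ((repS 𝕜 φ k g f : (Sp ⊤ k : Submodule 𝕜 (Submodule F V → 𝕜))) : Submodule F V → 𝕜) =
      act (φ g)⁻¹ f := rfl

/-- the radical inside `Sp ⊤ k` -/
abbrev RadS (𝕜 F V : Type*) [Field F] [AddCommGroup V] [Module F V] [Field 𝕜]
    [Fintype (Submodule F V)] (k : ℕ) :
    Submodule 𝕜 (Sp ⊤ k : Submodule 𝕜 (Submodule F V → 𝕜)) :=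
  (Rad (Sp ⊤ k)).comap (Sp ⊤ k : Submodule 𝕜 (Submodule F V → 𝕜)).subtype

/-- the action on the quotient -/
def repQ (𝕜 : Type*) [Field 𝕜] (φ : G →* (V ≃ₗ[F] V)) (k : ℕ) :
    Representation 𝕜 G ((Sp ⊤ k : Submodule 𝕜 (Submodule F V → 𝕜)) ⧸ RadS 𝕜 F V k) where
  toFun g := (RadS 𝕜 F V k).mapQ (RadS 𝕜 F V k) (repS 𝕜 φ k g) fun f hf => by
    rw [Submodule.mem_comap, Submodule.mem_comap]
    exact act_Rad_top _ hf
  map_one' := by
    ext f
    simp
  map_mul' g h := by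
    ext f
    simp

theorem repQ_mk (φ : G →* (V ≃ₗ[F] V)) (k : ℕ) (g : G)
    (f : (Sp ⊤ k : Submodule 𝕜 (Submodule F V → 𝕜))) :
    repQ 𝕜 φ k g ((RadS 𝕜 F V k).mkQ f) = (RadS 𝕜 F V k).mkQ (repS 𝕜 φ k g f) := rfl

theorem finrank_Q {k δ : ℕ} (h : Dm 𝕜 (⊤ : Submodule F V) k δ) :
    finrank 𝕜 ((Sp ⊤ k : Submodule 𝕜 (Submodule F V → 𝕜)) ⧸ RadS 𝕜 F V k) = δ := by
  have h1 := Submodule.finrank_quotient_add_finrank (RadS 𝕜 F V k)
  have h2 : finrank 𝕜 (RadS 𝕜 F V k) =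
      finrank 𝕜 (Rad (Sp ⊤ k) : Submodule 𝕜 (Submodule F V → 𝕜)) :=
    (Submodule.comapSubtypeEquivOfLe (Rad_le _)).finrank_eq
  rw [Dm] at h
  omega

theorem repQ_irr (φ : G →* (V ≃ₗ[F] V))
    (hφ : ∀ (l : Dual F V) (h : V) (hl : l h = 0), ∃ g, φ g = tv l h hl) {k δ : ℕ}
    (hI : Irr 𝕜 (⊤ : Submodule F V) k) (hd : Dm 𝕜 (⊤ : Submodule F V) k δ) (hδ : δ ≠ 0) :
    (repQ 𝕜 φ k).IsIrreducible := by
  have hfr := finrank_Q hd
  have hnt : Nontrivial ((Sp ⊤ k : Submodule 𝕜 (Submodule F V → 𝕜)) ⧸ RadS 𝕜 F V k) := by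
    apply Module.nontrivial_of_finrank_pos (R := 𝕜)
    omega
  refine { exists_pair_ne := ⟨⊥, ⊤, ?_⟩, eq_bot_or_eq_top := ?_ }
  · intro h
    have h1 : (⊥ : Submodule 𝕜 ((Sp ⊤ k : Submodule 𝕜 (Submodule F V → 𝕜)) ⧸ RadS 𝕜 F V k)) =
        ⊤ := congrArg Subrepresentation.toSubmodule h
    exact bot_ne_top h1
  · intro W
    set U : Submodule 𝕜 (Submodule F V → 𝕜) :=
      (W.toSubmodule.comap (RadS 𝕜 F V k).mkQ).map
        (Sp ⊤ k : Submodule 𝕜 (Submodule F V → 𝕜)).subtype with hU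
    have hmem : ∀ f : (Sp ⊤ k : Submodule 𝕜 (Submodule F V → 𝕜)),
        (f : Submodule F V → 𝕜) ∈ U ↔ (RadS 𝕜 F V k).mkQ f ∈ W.toSubmodule := by
      intro f
      rw [hU, Submodule.mem_map]
      constructor
      · rintro ⟨g, hg, hgf⟩
        have : g = f := Subtype.ext hgf
        rw [← this]; exact hg
      · intro h; exact ⟨f, h, rfl⟩
    have hUS : U ≤ Sp ⊤ k := by
      rw [hU]; exact Submodule.map_subtype_le _ _
    have hTI : TI ⊤ U := by
      intro l h hl _ f hf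
      obtain ⟨g, hg⟩ := hφ l h hl
      have h1 := (hmem ⟨f, hUS hf⟩).1 hf
      have h2 := W.apply_mem_toSubmodule g⁻¹ h1
      rw [repQ_mk, ← hmem, repS_apply, map_inv, inv_inv, hg] at h2
      exact h2
    have hRU : Rad (Sp ⊤ k) ≤ U := by
      intro f hf
      have h1 : (RadS 𝕜 F V k).mkQ ⟨f, hf.1⟩ = 0 := by
        rw [← LinearMap.mem_ker, Submodule.ker_mkQ]; exact hf
      exact (hmem ⟨f, hf.1⟩).2 (by rw [h1]; exact Submodule.zero_mem _)
    rcases hI U hTI hRU hUS with h | h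
    · left
      apply Subrepresentation.toSubmodule_injective
      change W.toSubmodule = ⊥
      rw [eq_bot_iff]
      intro x hx
      obtain ⟨f, rfl⟩ := (RadS 𝕜 F V k).mkQ_surjective x
      have h1 := (hmem f).2 hx
      rw [h] at h1
      have h2 : f ∈ LinearMap.ker (RadS 𝕜 F V k).mkQ := by
        rw [Submodule.ker_mkQ]; exact h1
      exact h2
    · right
      apply Subrepresentation.toSubmodule_injective
      change W.toSubmodule = ⊤
      rw [eq_top_iff]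
      intro x _
      obtain ⟨f, rfl⟩ := (RadS 𝕜 F V k).mkQ_surjective x
      rw [← hmem, h]
      exact f.2

end

end BrauerPP
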