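import Pool.Agent.Lib.MP_4b46f5_al.Iota2

/-!
The inductive step for irreducibility.
-/

open Module Submodule
open scoped Classical

set_option linter.unusedSectionVars false
set_option linter.unusedSimpArgs false

namespace BrauerPP

noncomputable section

variable {F V 𝕜 : Type*} [Field F] [AddCommGroup V] [Module F V] [Field 𝕜]

/-- two linear forms with different kernels -/
def Good {W : Type*} [AddCommGroup W] [Module F W] (β γ : Dual F W) : Prop :=
  (∃ a, β a = 0 ∧ γ a ≠ 0) ∧ (∃ b, γ b = 0 ∧ β b ≠ 0)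

theorem ker_le_of_ker_le {W : Type*} [AddCommGroup W] [Module F W] [Module.Finite F W]
    {β γ : Dual F W} (hβ : β ≠ 0) (hγ : γ ≠ 0) (h : LinearMap.ker β ≤ LinearMap.ker γ) :
    LinearMap.ker γ = LinearMap.ker β := by
  symm
  apply Submodule.eq_of_le_of_finrank_eq h
  have h1 := Module.Dual.finrank_ker_add_one_of_ne_zero hβ
  have h2 := Module.Dual.finrank_ker_add_one_of_ne_zero hγ
  omega

theorem good_or {W : Type*} [AddCommGroup W] [Module F W] [Module.Finite F W]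
    (hW : 2 ≤ finrank F W) {β γ : Dual F W} (hβ : β ≠ 0) (hγ : γ ≠ 0) :
    Good β γ ∨ ∃ δ, Good β δ ∧ Good δ γ := by
  by_cases hG : Good β γ
  · exact Or.inl hG
  · right
    have hk : LinearMap.ker γ = LinearMap.ker β := by
      rw [Good, not_and_or] at hG
      rcases hG with h | h
      · push Not at h
        exact ker_le_of_ker_le hβ hγ fun a ha => h a ha
      · push Not at h
        exact (ker_le_of_ker_le hγ hβ fun a ha => h a ha).symm
    have h1 := Module.Dual.finrank_ker_add_one_of_ne_zero hβ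
    have h2 : LinearMap.ker β ≠ ⊥ := by
      intro h3; rw [h3, finrank_bot] at h1; omega
    obtain ⟨a, ha, ha0⟩ := Submodule.exists_mem_ne_zero_of_ne_bot h2
    obtain ⟨b, hb⟩ : ∃ x, β x ≠ 0 := by
      by_contra h1; push Not at h1; exact hβ (LinearMap.ext h1)
    have h3 : a ∉ span F {b} := by
      intro h4
      obtain ⟨c, rfl⟩ := Submodule.mem_span_singleton.1 h4
      have h5 : β (c • b) = 0 := ha
      rw [map_smul, smul_eq_mul, mul_eq_zero] at h5
      rcases h5 with h5 | h5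
      · exact ha0 (by rw [h5, zero_smul])
      · exact hb h5
    obtain ⟨δ, hδa, hδb⟩ := Submodule.exists_le_ker_of_notMem h3
    have hδb' : δ b = 0 := hδb (mem_span_singleton_self b)
    have hγb : γ b ≠ 0 := by
      intro h5
      have : b ∈ LinearMap.ker γ := h5
      rw [hk] at this
      exact hb this
    have hγa : γ a = 0 := by
      have : a ∈ LinearMap.ker γ := by rw [hk]; exact ha
      exact this
    exact ⟨δ, ⟨⟨a, ha, hδa⟩, ⟨b, hδb', hb⟩⟩, ⟨⟨b, hδb', hγb⟩, ⟨a, hγa, hδa⟩⟩⟩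

theorem Good.exists_one {W : Type*} [AddCommGroup W] [Module F W] {β γ : Dual F W}
    (h : Good β γ) : ∃ x, β x = 1 ∧ γ x = 1 := by
  obtain ⟨⟨a, ha, ha'⟩, ⟨b, hb, hb'⟩⟩ := h
  exact ⟨(γ a)⁻¹ • a + (β b)⁻¹ • b, by simp [ha, hb'], by simp [hb, ha']⟩

theorem exists_dual_extend {W : Submodule F V} (β : Dual F W) :
    ∃ μ : Dual F V, ∀ x : W, μ x = β x := by
  obtain ⟨g, hg⟩ := LinearMap.exists_extend β
  exact ⟨g, fun x => LinearMap.congr_fun hg x⟩

variable {A : Submodule F V} {l : Dual F V} {v0 : V}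

/-- two linear equivalences agreeing on `A` act in the same way on subspaces of `A` -/
theorem mp_congr {g h : V ≃ₗ[F] V} {B : Submodule F V} (hgh : ∀ v ∈ B, g v = h v)
    {W : Submodule F V} (hW : W ≤ B) : mp g W = mp h W := by
  ext x
  simp only [mp, Submodule.mem_map]
  constructor
  · rintro ⟨y, hy, rfl⟩
    exact ⟨y, hy, (hgh y (hW hy)).symm⟩
  · rintro ⟨y, hy, rfl⟩
    exact ⟨y, hy, hgh y (hW hy)⟩

theorem act_congr {g h : V ≃ₗ[F] V} {B : Submodule F V} (hgh : ∀ v ∈ B, g v = h v)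
    (hg : ∀ W, mp g W ≤ B ↔ W ≤ B) (hh : ∀ W, mp h W ≤ B ↔ W ≤ B)
    {f : Submodule F V → 𝕜} (hf : ∀ W, f W ≠ 0 → W ≤ B) : act g f = act h f := by
  ext W
  rw [act_apply, act_apply]
  by_cases hW : W ≤ B
  · rw [mp_congr hgh hW]
  · have h1 : f (mp g W) = 0 := by
      by_contra h1; exact hW ((hg W).1 (hf _ h1))
    have h2 : f (mp h W) = 0 := by
      by_contra h1; exact hW ((hh W).1 (hf _ h1))
    rw [h1, h2]

theorem act_tv_zero {l : Dual F V} {h : V} (hl : l h = 0) (hA : h ∈ A) (hlA : ∀ v ∈ A, l v = 0)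
    {f : Submodule F V → 𝕜} (hf : ∀ W, f W ≠ 0 → W ≤ A) : act (tv l h hl) f = f := by
  have : act (tv l h hl) f = act (LinearEquiv.refl F V) f := by
    refine act_congr (B := A) ?_ (fun W => mp_tv_le hl hA) (fun W => by rw [mp_refl]) hf
    intro v hv
    rw [tv_apply, hlA v hv]; simp
  rw [this, act_refl]

/-- commutation of translations with transvections inside the hyperplane -/
theorem tx_trans_tv {μ : Dual F V} {h : V} (hμ : μ h = 0) (hh : h ∈ hy A l) (x : hy A l) :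
    (tx A l x).trans (tv μ h hμ) = (tv μ h hμ).trans (tx A l (x + μ x • ⟨h, hh⟩)) := by
  ext v
  have h1 : l h = 0 := hh.2
  have h2 := hy_l x
  simp only [LinearEquiv.trans_apply, tx_apply, tv_apply, map_add, map_smul, h1, smul_eq_mul,
    mul_zero, add_zero, Submodule.coe_add, Submodule.coe_smul]
  module

theorem act_tv_Eg {ψ : AddChar F 𝕜} {μ : Dual F V} {h : V} (hμ : μ h = 0) (hh : h ∈ hy A l)
    {β γ : Dual F (hy A l)} (hγ : ∀ x : hy A l, γ x = β x + μ x * β ⟨h, hh⟩)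
    {f : Submodule F V → 𝕜} (hf : f ∈ Eg ψ A l β) : act (tv μ h hμ) f ∈ Eg ψ A l γ := by
  intro x
  rw [act_act, tx_trans_tv hμ hh, ← act_act, hf, map_smul, hγ, map_add, map_smul, smul_eq_mul]

theorem rho_act_tv {μ : Dual F V} {h : V} (hμ : μ h = 0) (hh : h ∈ hy A l) (hμ0 : μ v0 = 0)
    (f : Submodule F V → 𝕜) : rho A l v0 (act (tv μ h hμ) f) = act (tv μ h hμ) (rho A l v0 f) := by
  ext Y
  rw [act_apply, rho_apply, rho_apply, mp_tv_le hμ hh, act_apply]
  congr 2
  rw [mp, Submodule.map_sup, Submodule.map_span, Set.image_singleton]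
  congr 3
  change tv μ h hμ v0 = v0
  rw [tv_apply, hμ0, zero_smul, add_zero]

section fin
variable [Fintype (Submodule F V)]

theorem TI_map_rho {ψ : AddChar F 𝕜} (hD : HD A l v0) {β : Dual F (hy A l)}
    {U : Submodule 𝕜 (Submodule F V → 𝕜)} (hU : TI A U) :
    TI (Kb A l β) ((U ⊓ Eg ψ A l β).map (rho A l v0)) := by
  intro μ h hμ hh g hg
  obtain ⟨f, ⟨hfU, hfE⟩, rfl⟩ := Submodule.mem_map.1 hg
  obtain ⟨hh1, hh2⟩ := mem_Kb.1 hh
  have hlh : l h = 0 := hh1.2
  set μ' : Dual F V := μ - μ v0 • l with hμ'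
  have hμ'h : μ' h = 0 := by simp [hμ', hμ, hlh]
  have hμ'0 : μ' v0 = 0 := by simp [hμ', hD.one]
  have h1 : act (tv μ h hμ) (rho A l v0 f) = act (tv μ' h hμ'h) (rho A l v0 f) := by
    refine act_congr (B := hy A l) ?_ (fun W => mp_tv_le hμ hh1) (fun W => mp_tv_le hμ'h hh1) ?_
    · intro v hv
      have hlv : l v = 0 := hv.2
      rw [tv_apply, tv_apply]; simp [hμ', hlv]
    · intro W hW
      rw [rho_apply] at hW
      split_ifs at hW with h2
      · exact h2
      · exact absurd rfl hW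
  rw [h1, ← rho_act_tv hμ'h hh1 hμ'0]
  refine Submodule.mem_map_of_mem ⟨hU _ _ hμ'h hh1.1 f hfU, ?_⟩
  exact act_tv_Eg hμ'h hh1 (fun x => by rw [hh2]; simp) hfE

theorem Eg_transfer_good {ψ : AddChar F 𝕜} {β γ : Dual F (hy A l)} (hG : Good β γ)
    {S U : Submodule 𝕜 (Submodule F V → 𝕜)} (hS : TI A S) (hU : TI A U)
    (h : S ⊓ Eg ψ A l β ≤ U) : S ⊓ Eg ψ A l γ ≤ U := by
  obtain ⟨x, hx1, hx2⟩ := hG.exists_one
  obtain ⟨μ, hμ⟩ := exists_dual_extend (γ - β)
  have hμx : μ x = 0 := by rw [hμ]; simp [hx1, hx2]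
  have hμx' : μ (-(x : V)) = 0 := by simp [hμx]
  intro f hf
  have hxA : (x : V) ∈ A := x.2.1
  have hnx : -(x : V) ∈ hy A l := (hy A l).neg_mem x.2
  have h1 : act (tv μ (-(x : V)) hμx') f ∈ S ⊓ Eg ψ A l β := by
    refine ⟨hS _ _ _ (A.neg_mem hxA) f hf.1, ?_⟩
    refine act_tv_Eg hμx' hnx ?_ hf.2
    intro y
    have h3 : γ ⟨-(x : V), hnx⟩ = -1 := by
      have : (⟨-(x : V), hnx⟩ : hy A l) = -x := rfl
      rw [this, map_neg, hx2]
    rw [h3, hμ, LinearMap.sub_apply]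
    ring
  have h2 := hU μ x hμx hxA _ (h h1)
  have h3 : act (tv μ x hμx) (act (tv μ (-(x : V)) hμx') f) = f := by
    rw [← tv_symm μ x hμx, act_act_symm]
  rwa [h3] at h2

theorem Eg_transfer [Finite V] (h2 : 2 ≤ finrank F (hy A l)) {ψ : AddChar F 𝕜}
    {β γ : Dual F (hy A l)} (hβ : β ≠ 0) (hγ : γ ≠ 0)
    {S U : Submodule 𝕜 (Submodule F V → 𝕜)} (hS : TI A S) (hU : TI A U)
    (h : S ⊓ Eg ψ A l β ≤ U) : S ⊓ Eg ψ A l γ ≤ U := by
  rcases good_or h2 hβ hγ with h3 | ⟨δ, h3, h4⟩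
  · exact Eg_transfer_good h3 hS hU h
  · exact Eg_transfer_good h4 hS hU (Eg_transfer_good h3 hS hU h)

/-- all transvections along `l` act trivially on `S` modulo `U` -/
def PP (A : Submodule F V) (S U : Submodule 𝕜 (Submodule F V → 𝕜)) (l : Dual F V) : Prop :=
  ∀ (h : V) (hl : l h = 0), h ∈ A → ∀ s ∈ S, act (tv l h hl) s - s ∈ U

theorem PP_congr {S U : Submodule 𝕜 (Submodule F V → 𝕜)}
    (hSA : ∀ f ∈ S, ∀ W, f W ≠ 0 → W ≤ A) {l l' : Dual F V}
    (hll : ∀ v ∈ A, l v = l' v) (h : PP A S U l) : PP A S U l' := by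
  intro x hx hxA s hs
  have hx' : l x = 0 := by rw [hll x hxA, hx]
  have : act (tv l' x hx) s = act (tv l x hx') s := by
    refine act_congr (B := A) ?_ (fun W => mp_tv_le hx hxA) (fun W => mp_tv_le hx' hxA) (hSA s hs)
    intro v hv
    rw [tv_apply, tv_apply, hll v hv]
  rw [this]
  exact h x hx' hxA s hs

theorem PP_good {S U : Submodule 𝕜 (Submodule F V → 𝕜)}
    (hSA : ∀ f ∈ S, ∀ W, f W ≠ 0 → W ≤ A) (hS : TI A S) (hU : TI A U) {l l' : Dual F V}
    (hG : Good (l.domRestrict A) (l'.domRestrict A)) (h : PP A S U l) : PP A S U l' := by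
  obtain ⟨x, hx1, hx2⟩ := hG.exists_one
  have hx1' : l x = 1 := hx1
  have hx2' : l' x = 1 := hx2
  set μ : Dual F V := l' - l with hμ
  have hμx : μ x = 0 := by simp [hμ, hx1', hx2']
  set g := tv μ (x : V) hμx with hg
  have hlg : ∀ v, l (g v) = l' v := by
    intro v; rw [hg, tv_apply, map_add, map_smul, hx1']; simp [hμ]
  intro y hy hyA s hs
  have hgy : g y ∈ A := by
    rw [hg, tv_apply]; exact A.add_mem hyA (A.smul_mem _ x.2)
  have hlgy : l (g y) = 0 := by rw [hlg, hy]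
  have hmul : tv l' y hy = g.trans ((tv l (g y) hlgy).trans g.symm) := by
    ext v
    simp only [LinearEquiv.trans_apply]
    rw [LinearEquiv.eq_symm_apply]
    change g (v + l' v • y) = g v + l (g v) • g y
    rw [map_add, map_smul, hlg]
  have hs' : act g.symm s ∈ S := by
    rw [hg, tv_symm]; exact hS _ _ _ (A.neg_mem x.2) s hs
  have h1 := h (g y) hlgy hgy _ hs'
  have h2 := hU μ x hμx x.2 _ h1
  rw [map_sub] at h2
  have h3 : act (tv μ (x : V) hμx) (act g.symm s) = s := by rw [← hg, act_act_symm]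
  rw [h3, ← hg, act_act, act_act] at h2
  rwa [hmul]

theorem PP_transfer [Finite V] (h2 : 2 ≤ finrank F A) {S U : Submodule 𝕜 (Submodule F V → 𝕜)}
    (hSA : ∀ f ∈ S, ∀ W, f W ≠ 0 → W ≤ A) (hS : TI A S) (hU : TI A U) {l l' : Dual F V}
    (hl : ∃ v ∈ A, l v ≠ 0) (h : PP A S U l) : PP A S U l' := by
  by_cases hl' : ∃ v ∈ A, l' v ≠ 0
  · have h3 : l.domRestrict A ≠ 0 := by
      obtain ⟨v, hv, hv'⟩ := hl
      intro h0; exact hv' (LinearMap.congr_fun h0 ⟨v, hv⟩)
    have h4 : l'.domRestrict A ≠ 0 := by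
      obtain ⟨v, hv, hv'⟩ := hl'
      intro h0; exact hv' (LinearMap.congr_fun h0 ⟨v, hv⟩)
    rcases good_or h2 h3 h4 with h5 | ⟨δ, h5, h6⟩
    · exact PP_good hSA hS hU h5 h
    · obtain ⟨m, hm⟩ := exists_dual_extend δ
      have hm' : m.domRestrict A = δ := LinearMap.ext hm
      rw [← hm'] at h5 h6
      exact PP_good hSA hS hU h6 (PP_good hSA hS hU h5 h)
  · push Not at hl'
    intro x hx hxA s hs
    rw [act_tv_zero hx hxA hl' (hSA s hs), sub_self]
    exact U.zero_mem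

/-- bilinear form on a subspace of functions -/
def bf (S : Submodule 𝕜 (Submodule F V → 𝕜)) : LinearMap.BilinForm 𝕜 S :=
  LinearMap.mk₂ 𝕜 (fun f g => pr (f : Submodule F V → 𝕜) g)
    (fun _ _ _ => pr_add_left _ _ _) (fun _ _ _ => pr_smul_left _ _ _)
    (fun _ _ _ => pr_add_right _ _ _) (fun _ _ _ => pr_smul_right _ _ _)

theorem bf_apply (S : Submodule 𝕜 (Submodule F V → 𝕜)) (f g : S) :
    bf S f g = pr (f : Submodule F V → 𝕜) g := rfl

theorem eq_of_perp {S U : Submodule 𝕜 (Submodule F V → 𝕜)} (h1 : Rad S ≤ U) (h2 : U ≤ S)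
    (h3 : ∀ f ∈ S, (∀ g ∈ U, pr f g = 0) → f ∈ Rad S) : U = S := by
  have hrefl : (bf S).IsRefl := by
    intro f g h
    rw [bf_apply] at h ⊢
    rw [pr_comm]; exact h
  have h4 := LinearMap.BilinForm.finrank_add_finrank_orthogonal hrefl (U.comap S.subtype)
  have h5 : (bf S).orthogonal (U.comap S.subtype) = (Rad S).comap S.subtype := by
    ext f
    rw [LinearMap.BilinForm.mem_orthogonal_iff]
    constructor
    · intro h
      refine h3 f f.2 fun g hg => ?_
      have := h ⟨g, h2 hg⟩ hg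
      rw [bf_apply] at this
      rw [pr_comm]; exact this
    · intro h g hg
      rw [bf_apply, pr_comm]
      exact h.2 g g.2
  have h6 : (bf S).orthogonal ⊤ = (Rad S).comap S.subtype := by
    ext f
    rw [LinearMap.BilinForm.mem_orthogonal_iff]
    constructor
    · intro h
      refine ⟨f.2, fun g hg => ?_⟩
      have := h ⟨g, hg⟩ trivial
      rw [bf_apply] at this
      rw [pr_comm]; exact this
    · intro h g _
      rw [bf_apply, pr_comm]
      exact h.2 g g.2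
  rw [h5, h6, inf_eq_right.2 (Submodule.comap_mono h1)] at h4
  have h7 : finrank 𝕜 (U.comap S.subtype) = finrank 𝕜 S := by omega
  have h8 : U.comap S.subtype = ⊤ := Submodule.eq_top_of_finrank_eq h7
  apply le_antisymm h2
  intro f hf
  have : (⟨f, hf⟩ : S) ∈ U.comap S.subtype := by rw [h8]; trivial
  exact this

/-- irreducibility of `Sp A k / Rad (Sp A k)` -/
def Irr (𝕜 : Type*) [Field 𝕜] (A : Submodule F V) (k : ℕ) : Prop :=
  ∀ U : Submodule 𝕜 (Submodule F V → 𝕜), TI A U → Rad (Sp A k) ≤ U → U ≤ Sp A k →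
    U = Rad (Sp A k) ∨ U = Sp A k

/-- absence of invariants in `Sp A k / Rad (Sp A k)` -/
def Inv (𝕜 : Type*) [Field 𝕜] (A : Submodule F V) (k : ℕ) : Prop :=
  ∀ f ∈ (Sp A k : Submodule 𝕜 (Submodule F V → 𝕜)),
    (∀ (l : Dual F V) (h : V) (hl : l h = 0), h ∈ A → act (tv l h hl) f - f ∈ Rad (Sp A k)) →
    f ∈ Rad (Sp A k)

theorem Irr_step [Finite V] [Finite F] {ψ : AddChar F 𝕜} (hψ : ψ ≠ 1)
    (hq : (Nat.card F : 𝕜) ≠ 0) {j : ℕ} (hA : 3 ≤ finrank F A)
    (hIrr : ∀ K : Submodule F V, K ≤ A → finrank F K + 2 = finrank F A → Irr 𝕜 K j)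
    (hInv : Inv 𝕜 A (j + 1)) : Irr 𝕜 A (j + 1) := by
  intro U hU h1 h2
  have hSp : TI A (Sp A (j + 1) : Submodule 𝕜 (Submodule F V → 𝕜)) := TI_Sp A (j + 1)
  have hSA : ∀ f ∈ (Sp A (j + 1) : Submodule 𝕜 (Submodule F V → 𝕜)),
      ∀ W, f W ≠ 0 → W ≤ A := fun f hf W hW => (hf.1 W hW).1
  have hexp : ∀ (l : Dual F V) (x : hy A l) (s : Submodule F V → 𝕜),
      act (tx A l x) s - s = ∑ β : Dual F (hy A l), (ψ (β x) - 1) • ep ψ A l β s := by
    intro l x s
    conv_lhs => rw [← sum_ep hψ (card_hy_ne (A := A) (l := l) hq) s]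
    rw [map_sum, ← Finset.sum_sub_distrib]
    refine Finset.sum_congr rfl fun β _ => ?_
    rw [ep_mem ψ β s x, sub_smul, one_smul]
  by_cases hcase : ∃ (l : Dual F V) (v0 : V) (_ : HD A l v0) (β : Dual F (hy A l)),
      β ≠ 0 ∧ Sp A (j + 1) ⊓ Eg ψ A l β ≤ U
  · right
    obtain ⟨l, v0, hD, β, hβ, hle⟩ := hcase
    have hfr := hD.finrank_hy
    have hPl : PP A (Sp A (j + 1)) U l := by
      intro h hl hh s hs
      have h3 := hexp l ⟨h, hh, hl⟩ s
      change act (tv l h hl) s - s = _ at h3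
      rw [h3]
      refine U.sum_mem fun γ _ => ?_
      by_cases hγ : γ = 0
      · rw [hγ]; simp
      · refine U.smul_mem _ (Eg_transfer (by omega) hβ hγ hSp hU hle ⟨?_, ep_mem ψ γ s⟩)
        exact ep_mem_of_stable ψ γ (Sp_stable (j + 1)) hs
    have hPall : ∀ l', PP A (Sp A (j + 1)) U l' := fun l' =>
      PP_transfer (by omega) hSA hSp hU ⟨v0, hD.mem, by rw [hD.one]; exact one_ne_zero⟩ hPl
    refine eq_of_perp h1 h2 fun f hf hperp => hInv f hf fun l' h hl hh => ?_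
    refine ⟨Submodule.sub_mem _ (hSp l' h hl hh f hf) hf, fun s hs => ?_⟩
    rw [pr_sub_left, pr_act_left, ← pr_sub_right, tv_symm]
    exact hperp _ (hPall l' (-h) (by simp [hl]) (A.neg_mem hh) s hs)
  · left
    push Not at hcase
    refine le_antisymm (fun f hf => hInv f (h2 hf) fun l h hl hh => ?_) h1
    by_cases hlA : ∀ v ∈ A, l v = 0
    · rw [act_tv_zero hl hh hlA (hSA f (h2 hf)), sub_self]
      exact Submodule.zero_mem _
    · push Not at hlA
      obtain ⟨v, hv, hv'⟩ := hlA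
      have hD : HD A l ((l v)⁻¹ • v) := ⟨A.smul_mem _ hv, by simp [hv']⟩
      have h3 := hexp l ⟨h, hh, hl⟩ f
      change act (tv l h hl) f - f = _ at h3
      rw [h3]
      refine Submodule.sum_mem _ fun β _ => ?_
      by_cases hβ : β = 0
      · rw [hβ]; simp
      · refine Submodule.smul_mem _ _ ?_
        have hfr := hD.finrank_hy
        have hfK := finrank_Kb (A := A) (l := l) hβ
        have hKA : Kb A l β ≤ A := (Kb_le β).trans inf_le_left
        have hU' := TI_map_rho (ψ := ψ) hD (β := β) hU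
        have hle1 : Rad (Sp (Kb A l β) j) ≤ (U ⊓ Eg ψ A l β).map (rho A l ((l v)⁻¹ • v)) := by
          rw [← map_rho_Rad hD hψ hβ hq j]
          exact Submodule.map_mono (inf_le_inf_right _ h1)
        have hle2 : (U ⊓ Eg ψ A l β).map (rho A l ((l v)⁻¹ • v)) ≤ Sp (Kb A l β) j := by
          rw [← map_rho_Sp hD hψ hβ hq j]
          exact Submodule.map_mono (inf_le_inf_right _ h2)
        have hUst : ∀ x : hy A l, ∀ g ∈ U, act (tx A l x) g ∈ U :=
          fun x g hg => hU _ _ _ x.2.1 g hg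
        have hfe : ep ψ A l β f ∈ U := ep_mem_of_stable ψ β hUst hf
        rcases hIrr (Kb A l β) hKA (by omega) _ hU' hle1 hle2 with h4 | h4
        · rw [Rad_rho hD hψ hβ hq (h2 hfe) (ep_mem ψ β f), ← h4]
          exact Submodule.mem_map_of_mem ⟨hfe, ep_mem ψ β f⟩
        · exfalso
          apply hcase l _ hD β hβ
          intro s hs
          have h5 : rho A l ((l v)⁻¹ • v) s ∈ Sp (Kb A l β) j := rho_Sp hψ hD hs.2 hs.1
          rw [← h4] at h5
          obtain ⟨s', hs', h6⟩ := Submodule.mem_map.1 h5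
          have h7 : s - s' = 0 := by
            refine rho_inj hD hψ hβ (Submodule.sub_mem _ hs.2 hs'.2) ?_ (by rw [map_sub, h6, sub_self])
            exact fun W hW => hSA _ (Submodule.sub_mem _ hs.1 (h2 hs'.1)) W hW
          rw [sub_eq_zero.1 h7]
          exact hs'.1

end fin

end

end BrauerPP
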