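import Pool.Agent.Lib.MP_4b46f5_al.UpDown

/-!
The part of `Sp A (j+1)` fixed by the translation group of a hyperplane datum.
-/

open Module Submodule
open scoped Classical

set_option linter.unusedSectionVars false
set_option linter.unusedSimpArgs false

namespace BrauerPP

noncomputable section

variable {F V 𝕜 : Type*} [Field F] [AddCommGroup V] [Module F V] [Field 𝕜]
variable {A : Submodule F V} {l : Dual F V} {v0 : V}

/-- restriction to the subspaces of the kernel of `l` -/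
def rs (l : Dual F V) : (Submodule F V → 𝕜) →ₗ[𝕜] (Submodule F V → 𝕜) where
  toFun f W := if W ≤ LinearMap.ker l then f W else 0
  map_add' f g := by ext W; simp only [Pi.add_apply]; split_ifs <;> simp
  map_smul' c f := by ext W; simp only [Pi.smul_apply, RingHom.id_apply]; split_ifs <;> simp

theorem rs_apply (l : Dual F V) (f : Submodule F V → 𝕜) (W : Submodule F V) :
    rs l f W = if W ≤ LinearMap.ker l then f W else 0 := rfl

theorem rs_Mo {k : ℕ} {f : Submodule F V → 𝕜} (hf : f ∈ Mo A k) : rs l f ∈ Mo (hy A l) k := by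
  intro W hW
  rw [rs_apply] at hW
  split_ifs at hW with h
  · exact ⟨le_inf (hf W hW).1 h, (hf W hW).2⟩
  · exact absurd rfl hW

theorem rho_Mo' [Module.Finite F V] (hD : HD A l v0) {j : ℕ} {f : Submodule F V → 𝕜}
    (hf : f ∈ Mo A (j + 1)) : rho A l v0 f ∈ Mo (hy A l) j := by
  intro Y hY
  rw [rho_apply] at hY
  split_ifs at hY with h1
  · have h2 := hf _ hY
    have hYk : Y ≤ LinearMap.ker l := h1.trans inf_le_right
    rw [finrank_sup_span hD.one hYk] at h2
    exact ⟨h1, by omega⟩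
  · exact absurd rfl hY

/-- indicator of the subspaces containing `Z` -/
def geI (𝕜 : Type*) [Field 𝕜] (Z : Submodule F V) : Submodule F V → 𝕜 :=
  fun W => if Z ≤ W then 1 else 0

theorem geI_Eg (ψ : AddChar F 𝕜) {Z : Submodule F V} (hZ : Z ≤ LinearMap.ker l) :
    geI 𝕜 Z ∈ Eg ψ A l 0 := by
  intro x
  ext W
  rw [act_apply, Pi.smul_apply, LinearMap.zero_apply, AddChar.map_zero_eq_one, one_smul, geI, geI]
  have : Z ≤ mp (tx A l x) W ↔ Z ≤ W := by
    conv_lhs => rw [← mp_tx_of_le hZ x]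
    exact mp_le_mp
  simp only [this]

section fin
variable [Fintype (Submodule F V)]

theorem sum_ker_split (Φ : Submodule F V → 𝕜) :
    ∑ W, Φ W = (∑ W with W ≤ LinearMap.ker l, Φ W) + ∑ W with ¬ W ≤ LinearMap.ker l, Φ W :=
  (Finset.sum_filter_add_sum_filter_not _ _ _).symm

variable [Finite V] [Finite F]

theorem up_split {ψ : AddChar F 𝕜} (hD : HD A l v0) {j : ℕ} {f : Submodule F V → 𝕜}
    (hf : f ∈ Eg ψ A l 0) (hfM : f ∈ Mo A (j + 1)) {Z : Submodule F V}
    (hZ : Z ≤ LinearMap.ker l) :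
    ((Nat.card F : 𝕜) ^ j) * up f Z = ((Nat.card F : 𝕜) ^ j) * up (rs l f) Z +
      (Nat.card (hy A l) : 𝕜) * up (rho A l v0 f) Z := by
  have h1 := pr_off hD (β := (0 : Dual F (hy A l))) (γ := 0) (by simp) hf hfM
    (geI_Eg (A := A) ψ hZ)
  have h2 : up f Z = ∑ W, f W * geI 𝕜 Z W := by
    rw [up_apply]; exact Finset.sum_congr rfl fun W _ => by rw [geI]; split_ifs <;> simp
  have h3 : pr (rho A l v0 f) (rho A l v0 (geI 𝕜 Z)) = up (rho A l v0 f) Z := by
    rw [pr, up_apply]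
    refine Finset.sum_congr rfl fun Y _ => ?_
    rw [rho_apply, rho_apply]
    by_cases hY : Y ≤ hy A l
    · rw [if_pos hY, if_pos hY, geI]
      have h4 : Z ≤ Y ⊔ span F {v0} ↔ Z ≤ Y := by
        constructor
        · intro h
          have := le_inf h hZ
          rwa [sup_inf_ker hD.one (hY.trans inf_le_right)] at this
        · intro h; exact h.trans le_sup_left
      simp only [h4]
      split_ifs <;> simp
    · rw [if_neg hY, if_neg hY]; simp
  rw [h3] at h1
  rw [← h1, ← mul_add]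
  congr 1
  rw [h2, sum_ker_split (l := l)]
  congr 1
  rw [Finset.sum_filter, up_apply]
  refine Finset.sum_congr rfl fun W _ => ?_
  rw [rs_apply, geI]
  split_ifs <;> simp

theorem pr_split {ψ : AddChar F 𝕜} (hD : HD A l v0) {j : ℕ} {f g : Submodule F V → 𝕜}
    (hf : f ∈ Eg ψ A l 0) (hfM : f ∈ Mo A (j + 1)) (hg : g ∈ Eg ψ A l 0) :
    ((Nat.card F : 𝕜) ^ j) * pr f g = ((Nat.card F : 𝕜) ^ j) * pr (rs l f) (rs l g) +
      (Nat.card (hy A l) : 𝕜) * pr (rho A l v0 f) (rho A l v0 g) := by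
  rw [← pr_off hD (by simp) hf hfM hg, ← mul_add]
  congr 1
  rw [pr, sum_ker_split (l := l)]
  congr 1
  rw [Finset.sum_filter, pr]
  refine Finset.sum_congr rfl fun W _ => ?_
  rw [rs_apply, rs_apply]
  split_ifs <;> simp

/-- the scalar `card (hy A l) / card F ^ j` -/
def uu (𝕜 : Type*) [Field 𝕜] (A : Submodule F V) (l : Dual F V) (j : ℕ) : 𝕜 :=
  (Nat.card (hy A l) : 𝕜) / (Nat.card F : 𝕜) ^ j

theorem uu_ne (hq : (Nat.card F : 𝕜) ≠ 0) (j : ℕ) : uu 𝕜 A l j ≠ 0 :=
  div_ne_zero (card_hy_ne hq) (pow_ne_zero _ hq)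

theorem up_split' {ψ : AddChar F 𝕜} (hq : (Nat.card F : 𝕜) ≠ 0) (hD : HD A l v0) {j : ℕ}
    {f : Submodule F V → 𝕜}
    (hf : f ∈ Eg ψ A l 0) (hfM : f ∈ Mo A (j + 1)) {Z : Submodule F V}
    (hZ : Z ≤ LinearMap.ker l) :
    up f Z = up (rs l f) Z + uu 𝕜 A l j * up (rho A l v0 f) Z := by
  have h1 := up_split hD hf hfM hZ
  have hqj : ((Nat.card F : 𝕜) ^ j) ≠ 0 := pow_ne_zero _ hq
  rw [uu]
  field_simp
  linear_combination h1

theorem pr_split' {ψ : AddChar F 𝕜} (hq : (Nat.card F : 𝕜) ≠ 0) (hD : HD A l v0) {j : ℕ}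
    {f g : Submodule F V → 𝕜}
    (hf : f ∈ Eg ψ A l 0) (hfM : f ∈ Mo A (j + 1)) (hg : g ∈ Eg ψ A l 0) :
    pr f g = pr (rs l f) (rs l g) + uu 𝕜 A l j * pr (rho A l v0 f) (rho A l v0 g) := by
  have h1 := pr_split hD hf hfM hg
  have hqj : ((Nat.card F : 𝕜) ^ j) ≠ 0 := pow_ne_zero _ hq
  rw [uu]
  field_simp
  linear_combination h1

theorem rho_Sp0 (hD : HD A l v0) {j : ℕ} {f : Submodule F V → 𝕜}
    (hS : f ∈ Sp A (j + 1)) : rho A l v0 f ∈ Sp (hy A l) j := by
  refine ⟨rho_Mo' hD hS.1, fun Z hZ => ?_⟩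
  by_cases hZh : Z ≤ hy A l
  · have hZl : Z ≤ LinearMap.ker l := hZh.trans inf_le_right
    have h1 := up_rho hD (fun W hW => (hS.1 W hW).1)
      ((le_sup_right : span F {v0} ≤ Z ⊔ span F {v0}) (mem_span_singleton_self v0))
    rw [sup_inf_ker hD.one hZl] at h1
    rw [← h1]
    apply hS.2
    rw [finrank_sup_span hD.one hZl]
    omega
  · exact up_zero_of_not_le (B := hy A l) (fun W hW => (rho_Mo' hD hS.1 W hW).1) hZh

theorem rs_Sp {ψ : AddChar F 𝕜} (hq : (Nat.card F : 𝕜) ≠ 0) (hD : HD A l v0) {j : ℕ}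
    {f : Submodule F V → 𝕜} (hf : f ∈ Eg ψ A l 0) (hS : f ∈ Sp A (j + 1)) :
    rs l f ∈ Kk (hy A l) (j + 1) ∧
      rho A l v0 f = -(uu 𝕜 A l j)⁻¹ • dd (hy A l) j (rs l f) := by
  have hrho := rho_Sp0 hD hS
  have hkey : ∀ Z : Submodule F V, Z ≤ hy A l → finrank F Z < j + 1 →
      up (rs l f) Z + uu 𝕜 A l j * up (rho A l v0 f) Z = 0 := by
    intro Z hZ hZj
    rw [← up_split' hq hD hf hS.1 (hZ.trans inf_le_right)]
    exact hS.2 Z hZj
  refine ⟨⟨rs_Mo hS.1, fun Z hZ => ?_⟩, ?_⟩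
  · by_cases hZh : Z ≤ hy A l
    · have := hkey Z hZh (by omega)
      rwa [hrho.2 Z (by omega), mul_zero, add_zero] at this
    · exact up_zero_of_not_le (B := hy A l) (fun W hW => (rs_Mo hS.1 W hW).1) hZh
  · ext Y
    rw [Pi.smul_apply, smul_eq_mul, dd_apply]
    split_ifs with h
    · have h1 := hkey Y h.1 (by omega)
      rw [up_eq_self hrho.1 h.2] at h1
      have hu := uu_ne (A := A) (l := l) hq j
      have h2 : uu 𝕜 A l j * (rho A l v0 f Y + (uu 𝕜 A l j)⁻¹ * up (rs l f) Y) = 0 := by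
        rw [mul_add, mul_inv_cancel_left₀ hu, add_comm]; exact h1
      have h3 := (mul_eq_zero.1 h2).resolve_left hu
      linear_combination h3
    · rw [mul_zero]
      by_contra h1
      exact h (rho_Mo' hD hS.1 Y h1)

/-- extension of a function on the hyperplane to a translation invariant function -/
def ext0 (A : Submodule F V) (l : Dual F V) (j : ℕ) (u : 𝕜) (a : Submodule F V → 𝕜) :
    Submodule F V → 𝕜 := fun W =>
  if W ≤ LinearMap.ker l then a W
  else if W ≤ A ∧ finrank F W = j + 1 then -u⁻¹ * up a (W ⊓ LinearMap.ker l) else 0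

theorem ext0_spec {ψ : AddChar F 𝕜} (hq : (Nat.card F : 𝕜) ≠ 0) (hD : HD A l v0) {j : ℕ}
    {a : Submodule F V → 𝕜} (ha : a ∈ Kk (hy A l) (j + 1)) :
    ext0 A l j (uu 𝕜 A l j) a ∈ Sp A (j + 1) ∧ ext0 A l j (uu 𝕜 A l j) a ∈ Eg ψ A l 0 ∧
      rs l (ext0 A l j (uu 𝕜 A l j) a) = a := by
  set f := ext0 A l j (uu 𝕜 A l j) a with hf
  have hrs : rs l f = a := by
    ext W
    rw [rs_apply]
    split_ifs with h
    · rw [hf, ext0, if_pos h]
    · by_contra h1
      exact h ((ha.1 W (Ne.symm h1)).1.trans inf_le_right)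
  have hEg : f ∈ Eg ψ A l 0 := by
    intro x
    ext W
    rw [act_apply, Pi.smul_apply, LinearMap.zero_apply, AddChar.map_zero_eq_one, one_smul, hf,
      ext0, ext0]
    simp only [le_ker_mp_tx, mp_tx_inf, mp_tx_le, finrank_mp]
    split_ifs with h
    · rw [mp_tx_of_le h]
    · rfl
    · rfl
  have hMo : f ∈ Mo A (j + 1) := by
    intro W hW
    rw [hf, ext0] at hW
    split_ifs at hW with h h1
    · exact ⟨(ha.1 W hW).1.trans inf_le_left, (ha.1 W hW).2⟩
    · exact h1
    · exact absurd rfl hW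
  have hrho : rho A l v0 f = -(uu 𝕜 A l j)⁻¹ • dd (hy A l) j a := by
    ext Y
    rw [rho_apply, Pi.smul_apply, smul_eq_mul, dd_apply]
    by_cases h : Y ≤ hy A l
    · have hYl : Y ≤ LinearMap.ker l := h.trans inf_le_right
      rw [if_pos h, hf, ext0, if_neg, finrank_sup_span hD.one hYl, sup_inf_ker hD.one hYl]
      · by_cases h1 : finrank F Y = j
        · have h5 : Y ⊔ span F {v0} ≤ A := by
            refine sup_le (h.trans inf_le_left) ?_
            simpa [Submodule.span_singleton_le_iff_mem] using hD.mem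
          rw [if_pos ⟨h5, by omega⟩, if_pos ⟨h, h1⟩]
        · rw [if_neg (fun h2 => h1 (by omega)), if_neg (fun h2 => h1 h2.2), mul_zero]
      · intro h2
        have h3 : v0 ∈ LinearMap.ker l :=
          h2 ((le_sup_right : span F {v0} ≤ _) (mem_span_singleton_self v0))
        have h4 : l v0 = 0 := h3
        rw [hD.one] at h4
        exact one_ne_zero h4
    · rw [if_neg h, if_neg (fun h2 => h h2.1), mul_zero]
  have hddSp : dd (hy A l) j a ∈ Sp (hy A l) j := by
    refine ⟨dd_Mo _ _ _, fun Z hZ => ?_⟩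
    rw [up_dd ha.1 (i := j - finrank F Z) (by omega) rfl, ha.2 Z (by omega), mul_zero]
  have hu := uu_ne (A := A) (l := l) hq j
  refine ⟨⟨hMo, fun Z hZ => ?_⟩, hEg, hrs⟩
  by_cases hZA : Z ≤ A
  · by_cases hZl : Z ≤ LinearMap.ker l
    · have hZh : Z ≤ hy A l := le_inf hZA hZl
      rw [up_split' hq hD hEg hMo hZl, hrs, hrho, map_smul, Pi.smul_apply, smul_eq_mul]
      by_cases h1 : finrank F Z = j
      · rw [up_eq_self hddSp.1 h1, dd_apply, if_pos ⟨hZh, h1⟩]
        field_simp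
        simp
      · rw [ha.2 Z (by omega), hddSp.2 Z (by omega)]; ring
    · obtain ⟨x, hx⟩ := hD.exists_x hZA hZl
      have h1 : up f Z = up f ((Z ⊓ LinearMap.ker l) ⊔ span F {v0}) := by
        have := congrFun (up_Eg hEg x) ((Z ⊓ LinearMap.ker l) ⊔ span F {v0})
        rw [act_apply, mp_tx_form hD hx, Pi.smul_apply, LinearMap.zero_apply,
          AddChar.map_zero_eq_one, one_smul] at this
        exact this
      rw [h1, up_rho hD (fun W hW => (hMo W hW).1)
        ((le_sup_right : span F {v0} ≤ _) (mem_span_singleton_self v0)),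
        sup_inf_ker hD.one inf_le_right, hrho, map_smul, Pi.smul_apply,
        hddSp.2 _ (by have := finrank_inf_ker hZl; omega), smul_zero]
  · exact up_zero_of_not_le (fun W hW => (hMo W hW).1) hZA

end fin

end

end BrauerPP
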