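import Pool.Agent.Lib.MP_4b46f5_al.Tfix

/-!
The translation-fixed part: radical, the two parities.
-/

open Module Submodule
open scoped Classical

set_option linter.unusedSectionVars false
set_option linter.unusedSimpArgs false

namespace BrauerPP

noncomputable section

variable {F V 𝕜 : Type*} [Field F] [AddCommGroup V] [Module F V] [Field 𝕜]
variable {A : Submodule F V} {l : Dual F V} {v0 : V}
variable [Fintype (Submodule F V)] [Finite V] [Finite F]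

theorem finrank_map_add_inf (f : (Submodule F V → 𝕜) →ₗ[𝕜] (Submodule F V → 𝕜))
    (U : Submodule 𝕜 (Submodule F V → 𝕜)) :
    finrank 𝕜 (U.map f) + finrank 𝕜 (U ⊓ LinearMap.ker f : Submodule 𝕜 _) = finrank 𝕜 U := by
  have h := LinearMap.finrank_range_add_finrank_ker (f.domRestrict U)
  rw [LinearMap.range_domRestrict] at h
  rw [← h]
  congr 1
  have h2 : (LinearMap.ker (f.domRestrict U)).map U.subtype = U ⊓ LinearMap.ker f := by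
    ext x
    simp only [Submodule.mem_map, LinearMap.mem_ker, Submodule.mem_inf, Submodule.subtype_apply,
      LinearMap.domRestrict_apply]
    constructor
    · rintro ⟨y, hy, rfl⟩; exact ⟨y.2, hy⟩
    · rintro ⟨h3, h4⟩; exact ⟨⟨x, h3⟩, h4, rfl⟩
  rw [← h2, Submodule.finrank_map_subtype_eq]

theorem dd_Sp {B : Submodule F V} {j : ℕ} {a : Submodule F V → 𝕜} (ha : a ∈ Kk B (j + 1)) :
    dd B j a ∈ Sp B j := by
  refine ⟨dd_Mo _ _ _, fun Z hZ => ?_⟩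
  rw [up_dd ha.1 (i := j - finrank F Z) (by omega) rfl, ha.2 Z (by omega), mul_zero]

theorem Sp_iff_dd {B : Submodule F V} {j : ℕ} {a : Submodule F V → 𝕜} (ha : a ∈ Kk B (j + 1)) :
    a ∈ Sp B (j + 1) ↔ dd B j a = 0 := by
  constructor
  · intro h
    ext Y
    rw [dd_apply]
    split_ifs with h1
    · exact h.2 Y (by omega)
    · rfl
  · intro h
    refine ⟨ha.1, fun Z hZ => ?_⟩
    by_cases h1 : finrank F Z = j
    · by_cases h2 : Z ≤ B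
      · have := congrFun h Z
        rwa [dd_apply, if_pos ⟨h2, h1⟩] at this
      · exact up_zero_of_not_le (fun W hW => (ha.1 W hW).1) h2
    · exact ha.2 Z (by omega)

theorem dn_Kk {B : Submodule F V} {j : ℕ} {b : Submodule F V → 𝕜} (hb : b ∈ Sp B j) :
    dn B (j + 1) b ∈ Kk B (j + 1) := by
  refine ⟨dn_Mo _ _ _, fun Z hZ => ?_⟩
  by_cases h2 : Z ≤ B
  · rw [up_dn_Sp hb h2 (by omega) rfl, hb.2 Z (by omega), mul_zero]
  · exact up_zero_of_not_le (fun W hW => (dn_Mo _ _ _ W hW).1) h2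

/-- the eigenvalue of down after up -/
def cc (𝕜 : Type*) [Field 𝕜] (B : Submodule F V) (j : ℕ) : 𝕜 :=
  gz (Nat.card F : 𝕜) (finrank F B - j) 1 - gz (Nat.card F : 𝕜) j 1

theorem dd_dn {B : Submodule F V} {j : ℕ} {b : Submodule F V → 𝕜} (hb : b ∈ Sp B j) :
    dd B j (dn B (j + 1) b) = cc 𝕜 B j • b := by
  ext Y
  rw [dd_apply, Pi.smul_apply, smul_eq_mul]
  split_ifs with h
  · rw [up_dn_Sp hb h.1 h.2.le rfl, up_eq_self hb.1 h.2, h.2, cc]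
  · rw [Mo_eq_zero hb.1 h, mul_zero]

/-- the radical of the modified form -/
def RB (B : Submodule F V) (j : ℕ) (u : 𝕜) : Submodule 𝕜 (Submodule F V → 𝕜) where
  carrier := {a | a ∈ Kk B (j + 1) ∧ ∀ a' ∈ Kk B (j + 1),
    pr a a' + u⁻¹ * pr (dd B j a) (dd B j a') = 0}
  add_mem' := by
    rintro f g ⟨hf, hf'⟩ ⟨hg, hg'⟩
    refine ⟨add_mem hf hg, fun Z hZ => ?_⟩
    rw [map_add, pr_add_left, pr_add_left]
    linear_combination hf' Z hZ + hg' Z hZ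
  zero_mem' := ⟨zero_mem _, fun Z _ => by simp [pr_zero_left]⟩
  smul_mem' := by
    rintro c f ⟨hf, hf'⟩
    refine ⟨Submodule.smul_mem _ _ hf, fun Z hZ => ?_⟩
    rw [map_smul, pr_smul_left, pr_smul_left]
    linear_combination c * hf' Z hZ

theorem mem_RB {B : Submodule F V} {j : ℕ} {u : 𝕜} {a : Submodule F V → 𝕜} :
    a ∈ RB B j u ↔ a ∈ Kk B (j + 1) ∧ ∀ a' ∈ Kk B (j + 1),
    pr a a' + u⁻¹ * pr (dd B j a) (dd B j a') = 0 := Iff.rfl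

theorem Rad_rs {ψ : AddChar F 𝕜} (hψ : ψ ≠ 1) (hq : (Nat.card F : 𝕜) ≠ 0) (hD : HD A l v0)
    {j : ℕ} {f : Submodule F V → 𝕜} (hf : f ∈ Sp A (j + 1)) (hfE : f ∈ Eg ψ A l 0) :
    f ∈ Rad (Sp A (j + 1)) ↔ rs l f ∈ RB (hy A l) j (uu 𝕜 A l j) := by
  have hu := uu_ne (A := A) (l := l) hq j
  have key : ∀ g ∈ Sp A (j + 1), g ∈ Eg ψ A l 0 →
      pr f g = pr (rs l f) (rs l g) +
        (uu 𝕜 A l j)⁻¹ * pr (dd (hy A l) j (rs l f)) (dd (hy A l) j (rs l g)) := by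
    intro g hg hgE
    rw [pr_split' hq hD hfE hf.1 hgE, (rs_Sp hq hD hfE hf).2, (rs_Sp hq hD hgE hg).2,
      pr_smul_left, pr_smul_right]
    field_simp
  rw [mem_Rad, mem_RB, Rad_iff_Eg hψ hq (Sp_stable (j + 1)) hfE]
  constructor
  · rintro ⟨_, h⟩
    refine ⟨(rs_Sp hq hD hfE hf).1, fun a' ha' => ?_⟩
    obtain ⟨h1, h2, h3⟩ := ext0_spec (ψ := ψ) hq hD ha'
    have h4 := h _ h1 (by simpa using h2)
    rw [key _ h1 h2, h3] at h4
    exact h4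
  · rintro ⟨_, h⟩
    refine ⟨hf, fun g hg hgE => ?_⟩
    have hgE' : g ∈ Eg ψ A l 0 := by simpa using hgE
    rw [key g hg hgE']
    exact h _ (rs_Sp hq hD hgE' hg).1

theorem rs_inj {ψ : AddChar F 𝕜} (hq : (Nat.card F : 𝕜) ≠ 0) (hD : HD A l v0)
    {j : ℕ} {f : Submodule F V → 𝕜} (hf : f ∈ Sp A (j + 1)) (hfE : f ∈ Eg ψ A l 0)
    (h0 : rs l f = 0) : f = 0 := by
  ext W
  by_contra hW
  have hWA := (hf.1 W hW).1
  by_cases h : W ≤ LinearMap.ker l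
  · have := congrFun h0 W
    rw [rs_apply, if_pos h] at this
    exact hW this
  · obtain ⟨x, hx⟩ := hD.exists_x hWA h
    apply hW
    rw [Eg_form hD hfE hWA hx, (rs_Sp hq hD hfE hf).2, h0]
    simp

theorem map_rs_Sp {ψ : AddChar F 𝕜} (hq : (Nat.card F : 𝕜) ≠ 0) (hD : HD A l v0) (j : ℕ) :
    (Sp A (j + 1) ⊓ Eg ψ A l 0).map (rs l) = Kk (hy A l) (j + 1) := by
  ext g
  rw [Submodule.mem_map]
  constructor
  · rintro ⟨f, ⟨hf, hf'⟩, rfl⟩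
    exact (rs_Sp hq hD hf' hf).1
  · intro hg
    obtain ⟨h1, h2, h3⟩ := ext0_spec (ψ := ψ) hq hD hg
    exact ⟨_, ⟨h1, h2⟩, h3⟩

theorem map_rs_Rad {ψ : AddChar F 𝕜} (hψ : ψ ≠ 1) (hq : (Nat.card F : 𝕜) ≠ 0)
    (hD : HD A l v0) (j : ℕ) :
    (Rad (Sp A (j + 1)) ⊓ Eg ψ A l 0).map (rs l) = RB (hy A l) j (uu 𝕜 A l j) := by
  ext g
  rw [Submodule.mem_map]
  constructor
  · rintro ⟨f, ⟨hf, hf'⟩, rfl⟩
    exact (Rad_rs hψ hq hD hf.1 hf').1 hf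
  · intro hg
    obtain ⟨h1, h2, h3⟩ := ext0_spec (ψ := ψ) hq hD hg.1
    exact ⟨_, ⟨(Rad_rs hψ hq hD h1 h2).2 (by rw [h3]; exact hg), h2⟩, h3⟩

theorem finrank_map_rs {ψ : AddChar F 𝕜} (hq : (Nat.card F : 𝕜) ≠ 0) (hD : HD A l v0) {j : ℕ}
    {U : Submodule 𝕜 (Submodule F V → 𝕜)} (hU : U ≤ Sp A (j + 1) ⊓ Eg ψ A l 0) :
    finrank 𝕜 (U.map (rs l)) = finrank 𝕜 U := by
  have hinj : Function.Injective ((rs l).domRestrict U) := by
    rw [injective_iff_map_eq_zero]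
    intro f hf
    exact Subtype.ext (rs_inj hq hD (hU f.2).1 (hU f.2).2 hf)
  rw [← LinearMap.range_domRestrict, LinearMap.finrank_range_of_inj hinj]

theorem finrank_Sp_Eg0 {ψ : AddChar F 𝕜} (hq : (Nat.card F : 𝕜) ≠ 0) (hD : HD A l v0) (j : ℕ) :
    finrank 𝕜 (Sp A (j + 1) ⊓ Eg ψ A l 0 : Submodule 𝕜 _) =
      finrank 𝕜 (Kk (hy A l) (j + 1) : Submodule 𝕜 (Submodule F V → 𝕜)) := by
  rw [← map_rs_Sp (ψ := ψ) hq hD j, finrank_map_rs hq hD le_rfl]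

theorem finrank_Rad_Eg0 {ψ : AddChar F 𝕜} (hψ : ψ ≠ 1) (hq : (Nat.card F : 𝕜) ≠ 0)
    (hD : HD A l v0) (j : ℕ) :
    finrank 𝕜 (Rad (Sp A (j + 1)) ⊓ Eg ψ A l 0 : Submodule 𝕜 _) =
      finrank 𝕜 (RB (hy A l) j (uu 𝕜 A l j)) := by
  rw [← map_rs_Rad (ψ := ψ) hψ hq hD j, finrank_map_rs (ψ := ψ) hq hD]
  exact inf_le_inf_right _ (Rad_le _)

/-! ### the unimodular case -/

/-- projection to `Sp` -/
def pp (B : Submodule F V) (j : ℕ) (c : 𝕜) : (Submodule F V → 𝕜) →ₗ[𝕜] (Submodule F V → 𝕜) :=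
  LinearMap.id - c • (dn B (j + 1)).comp (dd B j)

theorem pp_apply (B : Submodule F V) (j : ℕ) (c : 𝕜) (a : Submodule F V → 𝕜) :
    pp B j c a = a - c • dn B (j + 1) (dd B j a) := rfl

theorem pp_Sp {B : Submodule F V} {j : ℕ} (hc : cc 𝕜 B j * cc 𝕜 B j = 1)
    {a : Submodule F V → 𝕜} (ha : a ∈ Kk B (j + 1)) : pp B j (cc 𝕜 B j) a ∈ Sp B (j + 1) := by
  have h1 : pp B j (cc 𝕜 B j) a ∈ Kk B (j + 1) :=
    Submodule.sub_mem _ ha (Submodule.smul_mem _ _ (dn_Kk (dd_Sp ha)))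
  rw [Sp_iff_dd h1, pp_apply, map_sub, map_smul, dd_dn (dd_Sp ha), smul_smul, hc, one_smul,
    sub_self]

theorem pp_of_Sp {B : Submodule F V} {j : ℕ} (c : 𝕜) {a : Submodule F V → 𝕜}
    (ha : a ∈ Sp B (j + 1)) : pp B j c a = a := by
  rw [pp_apply, (Sp_iff_dd (Sp_le_Kk _ _ ha)).1 ha, map_zero, smul_zero, sub_zero]

theorem form_pp {B : Submodule F V} {j : ℕ} (hc : cc 𝕜 B j * cc 𝕜 B j = 1) {u : 𝕜}
    (hu : u = - cc 𝕜 B j) {a a' : Submodule F V → 𝕜} (ha : a ∈ Kk B (j + 1))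
    (ha' : a' ∈ Kk B (j + 1)) :
    pr a a' + u⁻¹ * pr (dd B j a) (dd B j a') =
      pr (pp B j (cc 𝕜 B j) a) (pp B j (cc 𝕜 B j) a') := by
  have hcinv : (cc 𝕜 B j)⁻¹ = cc 𝕜 B j := inv_eq_of_mul_eq_one_left hc
  have h1 : pr (pp B j (cc 𝕜 B j) a) (dn B (j + 1) (dd B j a')) = 0 := by
    rw [pr_comm, pr_dn (pp_Sp hc ha).1 (dd_Mo _ _ _),
      (Sp_iff_dd (Sp_le_Kk _ _ (pp_Sp hc ha))).1 (pp_Sp hc ha), pr_zero_right]
  have h2 : pr (pp B j (cc 𝕜 B j) a) (pp B j (cc 𝕜 B j) a') = pr (pp B j (cc 𝕜 B j) a) a' := by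
    rw [pp_apply B j _ a', pr_sub_right, pr_smul_right, h1, mul_zero, sub_zero]
  rw [h2, pp_apply, pr_sub_left, pr_smul_left, pr_dn ha'.1 (dd_Mo _ _ _), hu, neg_inv.symm, hcinv]
  ring

theorem RB_iff_pp {B : Submodule F V} {j : ℕ} (hc : cc 𝕜 B j * cc 𝕜 B j = 1) {u : 𝕜}
    (hu : u = - cc 𝕜 B j) {a : Submodule F V → 𝕜} (ha : a ∈ Kk B (j + 1)) :
    a ∈ RB B j u ↔ pp B j (cc 𝕜 B j) a ∈ Rad (Sp B (j + 1)) := by
  rw [mem_RB, mem_Rad]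
  constructor
  · rintro ⟨_, h⟩
    refine ⟨pp_Sp hc ha, fun g hg => ?_⟩
    have := h g (Sp_le_Kk _ _ hg)
    rwa [form_pp hc hu ha (Sp_le_Kk _ _ hg), pp_of_Sp _ hg] at this
  · rintro ⟨_, h⟩
    refine ⟨ha, fun a' ha' => ?_⟩
    rw [form_pp hc hu ha ha']
    exact h _ (pp_Sp hc ha')

theorem finrank_pp {B : Submodule F V} {j : ℕ} (hc : cc 𝕜 B j * cc 𝕜 B j = 1) {u : 𝕜}
    (hu : u = - cc 𝕜 B j) :
    finrank 𝕜 (Kk B (j + 1) : Submodule 𝕜 (Submodule F V → 𝕜)) +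
      finrank 𝕜 (Rad (Sp B (j + 1)) : Submodule 𝕜 (Submodule F V → 𝕜)) =
    finrank 𝕜 (RB B j u) +
      finrank 𝕜 (Sp B (j + 1) : Submodule 𝕜 (Submodule F V → 𝕜)) := by
  have h1 := finrank_map_add_inf (pp B j (cc 𝕜 B j)) (Kk B (j + 1))
  have h2 := finrank_map_add_inf (pp B j (cc 𝕜 B j)) (RB B j u)
  have h3 : (Kk B (j + 1)).map (pp B j (cc 𝕜 B j)) = Sp B (j + 1) := by
    apply le_antisymm
    · rintro x ⟨a, ha, rfl⟩
      exact pp_Sp hc ha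
    · intro x hx
      exact ⟨x, Sp_le_Kk _ _ hx, pp_of_Sp _ hx⟩
  have h4 : (RB B j u).map (pp B j (cc 𝕜 B j)) = Rad (Sp B (j + 1)) := by
    apply le_antisymm
    · rintro x ⟨a, ha, rfl⟩
      exact (RB_iff_pp hc hu ha.1).1 ha
    · intro x hx
      have hxK := Sp_le_Kk _ _ hx.1
      refine ⟨x, (RB_iff_pp hc hu hxK).2 ?_, pp_of_Sp _ hx.1⟩
      rw [pp_of_Sp _ hx.1]; exact hx
  have h5 : Kk B (j + 1) ⊓ LinearMap.ker (pp B j (cc 𝕜 B j)) =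
      RB B j u ⊓ LinearMap.ker (pp B j (cc 𝕜 B j)) := by
    apply le_antisymm
    · rintro x ⟨hx, hx'⟩
      refine ⟨(RB_iff_pp hc hu hx).2 ?_, hx'⟩
      have : pp B j (cc 𝕜 B j) x = 0 := hx'
      rw [this]; exact Submodule.zero_mem _
    · exact inf_le_inf_right _ fun x hx => hx.1
  rw [h3] at h1
  rw [h4] at h2
  rw [h5] at h1
  omega

/-! ### the nilpotent case -/

theorem RB_eq_Rad {B : Submodule F V} {j : ℕ} (hc : cc 𝕜 B j = 0) (u : 𝕜) :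
    RB B j u = Rad (Kk B (j + 1)) := by
  have hddN : ∀ a ∈ (Kk B (j + 1) : Submodule 𝕜 (Submodule F V → 𝕜)),
      dd B j (dn B (j + 1) (dd B j a)) = 0 := by
    intro a ha
    rw [dd_dn (dd_Sp ha), hc, zero_smul]
  have hform : ∀ a a' : Submodule F V → 𝕜, a' ∈ Kk B (j + 1) →
      pr (dd B j a) (dd B j a') = pr (dn B (j + 1) (dd B j a)) a' := by
    intro a a' ha'
    rw [pr_dn ha'.1 (dd_Mo _ _ _)]
  ext a
  rw [mem_RB, mem_Rad]
  constructor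
  · rintro ⟨ha, h⟩
    refine ⟨ha, fun a' ha' => ?_⟩
    have hN := dn_Kk (dd_Sp ha')
    have h1 := h _ hN
    rw [hddN a' ha', pr_zero_right, mul_zero, add_zero, pr_comm, pr_dn ha.1 (dd_Mo _ _ _),
      pr_comm] at h1
    have h2 := h a' ha'
    rwa [h1, mul_zero, add_zero] at h2
  · rintro ⟨ha, h⟩
    refine ⟨ha, fun a' ha' => ?_⟩
    have hN := dn_Kk (dd_Sp ha')
    have h1 := h _ hN
    rw [pr_comm, pr_dn ha.1 (dd_Mo _ _ _), pr_comm] at h1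
    rw [h a' ha', h1, mul_zero, add_zero]

end

end BrauerPP
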