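import Pool.Agent.Lib.MP_4b46f5_al.Count

/-!
The up and down operators between functions on subspaces of different dimensions.
-/

open Module Submodule
open scoped Classical

set_option linter.unusedSectionVars false
set_option linter.unusedSimpArgs false

namespace BrauerPP

noncomputable section

variable {F V 𝕜 : Type*} [Field F] [AddCommGroup V] [Module F V] [Field 𝕜]
variable [Fintype (Submodule F V)]

/-- functions on `k`-dimensional subspaces of `B` whose sums over subspaces of codimension at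
least two vanish -/
def Kk (B : Submodule F V) (k : ℕ) : Submodule 𝕜 (Submodule F V → 𝕜) where
  carrier := {f | f ∈ Mo B k ∧ ∀ Z : Submodule F V, finrank F Z + 1 < k → up f Z = 0}
  add_mem' := by
    rintro f g ⟨hf, hf'⟩ ⟨hg, hg'⟩
    exact ⟨add_mem hf hg, fun Z hZ => by simp [hf' Z hZ, hg' Z hZ]⟩
  zero_mem' := ⟨zero_mem _, fun Z _ => by simp⟩
  smul_mem' := by
    rintro c f ⟨hf, hf'⟩
    exact ⟨Submodule.smul_mem _ _ hf, fun Z hZ => by simp [hf' Z hZ]⟩

theorem mem_Kk {B : Submodule F V} {k : ℕ} {f : Submodule F V → 𝕜} :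
    f ∈ Kk B k ↔ f ∈ Mo B k ∧ ∀ Z : Submodule F V, finrank F Z + 1 < k → up f Z = 0 := Iff.rfl

theorem Sp_le_Kk (B : Submodule F V) (k : ℕ) :
    (Sp B k : Submodule 𝕜 (Submodule F V → 𝕜)) ≤ Kk B k :=
  fun _ hf => ⟨hf.1, fun Z hZ => hf.2 Z (by omega)⟩

theorem TI_Kk (A : Submodule F V) (k : ℕ) : TI A (Kk A k : Submodule 𝕜 (Submodule F V → 𝕜)) := by
  intro l h hl hA f hf
  refine ⟨act_Mo hl hA hf.1, fun Z hZ => ?_⟩
  rw [up_act, act_apply]
  exact hf.2 _ (by rwa [finrank_mp])

/-- down operator -/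
def dd (B : Submodule F V) (j : ℕ) : (Submodule F V → 𝕜) →ₗ[𝕜] (Submodule F V → 𝕜) where
  toFun a Y := if Y ≤ B ∧ finrank F Y = j then up a Y else 0
  map_add' f g := by ext Y; simp only [map_add, Pi.add_apply]; split_ifs <;> simp
  map_smul' c f := by
    ext Y; simp only [map_smul, Pi.smul_apply, RingHom.id_apply]; split_ifs <;> simp

theorem dd_apply (B : Submodule F V) (j : ℕ) (a : Submodule F V → 𝕜) (Y : Submodule F V) :
    dd B j a Y = if Y ≤ B ∧ finrank F Y = j then up a Y else 0 := rfl

theorem dd_Mo (B : Submodule F V) (j : ℕ) (a : Submodule F V → 𝕜) : dd B j a ∈ Mo B j := by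
  intro Y hY
  rw [dd_apply] at hY
  split_ifs at hY with h
  · exact h
  · exact absurd rfl hY

/-- up operator -/
def dn (B : Submodule F V) (k : ℕ) : (Submodule F V → 𝕜) →ₗ[𝕜] (Submodule F V → 𝕜) where
  toFun b W := if W ≤ B ∧ finrank F W = k then ∑ Y, (if Y ≤ W then b Y else 0) else 0
  map_add' f g := by
    ext W; simp only [Pi.add_apply]; split_ifs
    · rw [← Finset.sum_add_distrib]; exact Finset.sum_congr rfl fun Y _ => by split_ifs <;> simp
    · simp
  map_smul' c f := by
    ext W; simp only [Pi.smul_apply, RingHom.id_apply, smul_eq_mul]; split_ifs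
    · rw [Finset.mul_sum]; exact Finset.sum_congr rfl fun Y _ => by split_ifs <;> simp
    · simp

theorem dn_apply (B : Submodule F V) (k : ℕ) (b : Submodule F V → 𝕜) (W : Submodule F V) :
    dn B k b W = if W ≤ B ∧ finrank F W = k then ∑ Y, (if Y ≤ W then b Y else 0) else 0 := rfl

theorem dn_Mo (B : Submodule F V) (k : ℕ) (b : Submodule F V → 𝕜) : dn B k b ∈ Mo B k := by
  intro Y hY
  rw [dn_apply] at hY
  split_ifs at hY with h
  · exact h
  · exact absurd rfl hY

theorem pr_dn {B : Submodule F V} {j k : ℕ} {a b : Submodule F V → 𝕜} (ha : a ∈ Mo B k)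
    (hb : b ∈ Mo B j) : pr (dn B k b) a = pr b (dd B j a) := by
  have h1 : pr (dn B k b) a = ∑ W, ∑ Y, if Y ≤ W then b Y * a W else 0 := by
    rw [pr]
    refine Finset.sum_congr rfl fun W _ => ?_
    by_cases h : a W = 0
    · simp [h]
    · rw [dn_apply, if_pos (ha W h), Finset.sum_mul]
      exact Finset.sum_congr rfl fun Y _ => by split_ifs <;> simp
  have h2 : pr b (dd B j a) = ∑ Y, ∑ W, if Y ≤ W then b Y * a W else 0 := by
    rw [pr]
    refine Finset.sum_congr rfl fun Y _ => ?_
    by_cases h : b Y = 0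
    · simp [h]
    · rw [dd_apply, if_pos (hb Y h), up_apply, Finset.mul_sum]
      exact Finset.sum_congr rfl fun W _ => by split_ifs <;> simp
  rw [h1, h2, Finset.sum_comm]

theorem dd_act {B : Submodule F V} {l : Dual F V} {h : V} (hl : l h = 0) (hB : h ∈ B) (j : ℕ)
    (a : Submodule F V → 𝕜) : dd B j (act (tv l h hl) a) = act (tv l h hl) (dd B j a) := by
  ext Y
  rw [act_apply, dd_apply, dd_apply, mp_tv_le hl hB, finrank_mp, up_act, act_apply]

theorem dn_act {B : Submodule F V} {l : Dual F V} {h : V} (hl : l h = 0) (hB : h ∈ B) (k : ℕ)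
    (b : Submodule F V → 𝕜) : dn B k (act (tv l h hl) b) = act (tv l h hl) (dn B k b) := by
  ext W
  rw [act_apply, dn_apply, dn_apply, mp_tv_le hl hB, finrank_mp]
  congr 1
  refine Fintype.sum_equiv (mpE (tv l h hl)) _ _ fun Y => ?_
  simp only [mpE_apply, mp_le_mp, act_apply]

theorem up_eq_self {B : Submodule F V} {j : ℕ} [Module.Finite F V] {b : Submodule F V → 𝕜}
    (hb : b ∈ Mo B j) {Z : Submodule F V} (hZ : finrank F Z = j) : up b Z = b Z := by
  rw [up_apply, Finset.sum_eq_single Z]
  · simp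
  · intro W _ hW
    split_ifs with h
    · by_contra h1
      exact hW (Submodule.eq_of_le_of_finrank_eq h (by rw [hZ, (hb W h1).2])).symm
    · rfl
  · intro h; exact absurd (Finset.mem_univ _) h

section cnt
variable [Finite V] [Finite F]

theorem up_dd {B : Submodule F V} {j k : ℕ} {a : Submodule F V → 𝕜} (ha : a ∈ Mo B k)
    {Z : Submodule F V} {i : ℕ} (hi : finrank F Z + i = j) {q : 𝕜} (hq : (Nat.card F : 𝕜) = q) :
    up (dd B j a) Z = gz q (k - finrank F Z) i * up a Z := by
  have h1 : up (dd B j a) Z = ∑ W, a W *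
      ∑ Y : Submodule F V, if Z ≤ Y ∧ Y ≤ W ∧ finrank F Y = j then (1 : 𝕜) else 0 := by
    simp_rw [Finset.mul_sum]
    rw [Finset.sum_comm, up_apply]
    refine Finset.sum_congr rfl fun Y _ => ?_
    by_cases h1 : Z ≤ Y
    · rw [if_pos h1, dd_apply]
      by_cases h2 : Y ≤ B ∧ finrank F Y = j
      · rw [if_pos h2, up_apply]
        refine Finset.sum_congr rfl fun W _ => ?_
        by_cases h3 : Y ≤ W
        · rw [if_pos h3, if_pos ⟨h1, h3, h2.2⟩, mul_one]
        · rw [if_neg h3, if_neg (fun h => h3 h.2.1), mul_zero]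
      · rw [if_neg h2]
        symm
        refine Finset.sum_eq_zero fun W _ => ?_
        by_cases h3 : a W = 0
        · rw [h3, zero_mul]
        · rw [if_neg, mul_zero]
          rintro ⟨_, h4, h5⟩
          exact h2 ⟨h4.trans (ha W h3).1, h5⟩
    · rw [if_neg h1]
      symm
      refine Finset.sum_eq_zero fun W _ => ?_
      rw [if_neg (fun h => h1 h.1), mul_zero]
  rw [h1, up_apply, Finset.mul_sum]
  refine Finset.sum_congr rfl fun W _ => ?_
  by_cases h2 : a W = 0
  · simp [h2]
  · by_cases h3 : Z ≤ W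
    · rw [if_pos h3, sum_interval h3 hi q hq, (ha W h2).2, mul_comm]
    · rw [if_neg h3, mul_zero, Finset.sum_eq_zero, mul_zero]
      intro Y _
      rw [if_neg]
      rintro ⟨h4, h5, _⟩
      exact h3 (h4.trans h5)

theorem up_dn {B : Submodule F V} {j k : ℕ} {b : Submodule F V → 𝕜} (hb : b ∈ Mo B j)
    {Z : Submodule F V} (hZ : Z ≤ B) {q : 𝕜} (hq : (Nat.card F : 𝕜) = q) :
    up (dn B k b) Z = ∑ Y, b Y * (if finrank F (Z ⊔ Y : Submodule F V) ≤ k then
      gz q (finrank F B - finrank F (Z ⊔ Y : Submodule F V))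
        (k - finrank F (Z ⊔ Y : Submodule F V)) else 0) := by
  have h1 : up (dn B k b) Z = ∑ Y, b Y *
      ∑ W : Submodule F V, if Z ⊔ Y ≤ W ∧ W ≤ B ∧ finrank F W = k then (1 : 𝕜) else 0 := by
    simp_rw [Finset.mul_sum]
    rw [Finset.sum_comm, up_apply]
    refine Finset.sum_congr rfl fun W _ => ?_
    by_cases h1 : Z ≤ W
    · rw [if_pos h1, dn_apply]
      by_cases h2 : W ≤ B ∧ finrank F W = k
      · rw [if_pos h2]
        refine Finset.sum_congr rfl fun Y _ => ?_
        by_cases h3 : Y ≤ W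
        · rw [if_pos h3, if_pos ⟨sup_le h1 h3, h2.1, h2.2⟩, mul_one]
        · rw [if_neg h3, if_neg (fun h => h3 (le_sup_right.trans h.1)), mul_zero]
      · rw [if_neg h2]
        symm
        refine Finset.sum_eq_zero fun Y _ => ?_
        rw [if_neg, mul_zero]
        rintro ⟨_, h4, h5⟩
        exact h2 ⟨h4, h5⟩
    · rw [if_neg h1]
      symm
      refine Finset.sum_eq_zero fun Y _ => ?_
      rw [if_neg (fun h => h1 (le_sup_left.trans h.1)), mul_zero]
  rw [h1]
  refine Finset.sum_congr rfl fun Y _ => ?_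
  by_cases h2 : b Y = 0
  · simp [h2]
  · congr 1
    have hY := hb Y h2
    split_ifs with h3
    · exact sum_interval (sup_le hZ hY.1) (by omega) q hq
    · refine Finset.sum_eq_zero fun W _ => ?_
      rw [if_neg]
      rintro ⟨h4, _, h6⟩
      exact h3 (h6 ▸ Submodule.finrank_mono h4)

theorem up_dn_Sp {B : Submodule F V} {j : ℕ} {b : Submodule F V → 𝕜} (hb : b ∈ Sp B j)
    {Z : Submodule F V} (hZ : Z ≤ B) (hz : finrank F Z ≤ j) {q : 𝕜} (hq : (Nat.card F : 𝕜) = q) :
    up (dn B (j + 1) b) Z =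
      (gz q (finrank F B - j) 1 - gz q (finrank F Z) 1) * up b Z := by
  rw [up_dn hb.1 hZ hq]
  -- split the coefficients
  have hsplit : ∀ Y, b Y * (if finrank F (Z ⊔ Y : Submodule F V) ≤ j + 1 then
      gz q (finrank F B - finrank F (Z ⊔ Y : Submodule F V))
        (j + 1 - finrank F (Z ⊔ Y : Submodule F V)) else 0) =
      gz q (finrank F B - j) 1 * (if Z ≤ Y then b Y else 0) +
        b Y * (if finrank F (Z ⊔ Y : Submodule F V) = j + 1 then 1 else 0) := by
    intro Y
    by_cases h2 : b Y = 0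
    · simp [h2]
    · have hY := hb.1 Y h2
      by_cases h3 : Z ≤ Y
      · rw [sup_eq_right.2 h3, hY.2, if_pos (by omega), if_pos h3, if_neg (by omega)]
        have : j + 1 - j = 1 := by omega
        rw [this]; ring
      · have h4 : Y < Z ⊔ Y := by
          refine lt_of_le_of_ne le_sup_right fun h => h3 ?_
          rw [h]; exact le_sup_left
        have h5 := Submodule.finrank_lt_finrank_of_lt h4
        rw [hY.2] at h5
        by_cases h6 : finrank F (Z ⊔ Y : Submodule F V) = j + 1
        · rw [if_pos (by omega), if_neg h3, if_pos h6, h6]; simp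
        · rw [if_neg (by omega), if_neg h3, if_neg h6]; simp
  simp_rw [hsplit]
  rw [Finset.sum_add_distrib, ← Finset.mul_sum, ← up_apply, sub_mul]
  rw [add_comm, sub_eq_neg_add]
  congr 1
  -- the adjacency sum
  rcases Nat.eq_zero_or_pos (finrank F Z) with h0 | h0
  · have hZ0 : Z = ⊥ := Submodule.finrank_eq_zero.1 h0
    rw [h0, gz_zero_succ, zero_mul, neg_zero]
    refine Finset.sum_eq_zero fun Y _ => ?_
    by_cases h2 : b Y = 0
    · simp [h2]
    · rw [hZ0, bot_sup_eq, (hb.1 Y h2).2, if_neg (by omega), mul_zero]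
  · have hkey : (∑ Z'' : Submodule F V, if Z'' ≤ Z ∧ finrank F Z'' + 1 = finrank F Z then
        up b Z'' else 0) = gz q (finrank F Z) 1 * up b Z +
        ∑ Y, b Y * (if finrank F (Z ⊔ Y : Submodule F V) = j + 1 then 1 else 0) := by
      have h1 : (∑ Z'' : Submodule F V, if Z'' ≤ Z ∧ finrank F Z'' + 1 = finrank F Z then
        up b Z'' else 0) = ∑ Y, b Y * ∑ Z'' : Submodule F V,
          if ⊥ ≤ Z'' ∧ Z'' ≤ Z ⊓ Y ∧ finrank F Z'' = finrank F Z - 1 then (1 : 𝕜) else 0 := by
        simp_rw [Finset.mul_sum]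
        rw [Finset.sum_comm]
        refine Finset.sum_congr rfl fun Z'' _ => ?_
        by_cases h1 : Z'' ≤ Z ∧ finrank F Z'' + 1 = finrank F Z
        · rw [if_pos h1, up_apply]
          refine Finset.sum_congr rfl fun Y _ => ?_
          by_cases h2 : Z'' ≤ Y
          · rw [if_pos h2, if_pos ⟨bot_le, le_inf h1.1 h2, by omega⟩, mul_one]
          · rw [if_neg h2, if_neg (fun h => h2 (h.2.1.trans inf_le_right)), mul_zero]
        · rw [if_neg h1]
          symm
          refine Finset.sum_eq_zero fun Y _ => ?_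
          rw [if_neg, mul_zero]
          rintro ⟨_, h2, h3⟩
          exact h1 ⟨h2.trans inf_le_left, by omega⟩
      rw [h1]
      have h2 : ∀ Y, (b Y * ∑ Z'' : Submodule F V,
          if ⊥ ≤ Z'' ∧ Z'' ≤ Z ⊓ Y ∧ finrank F Z'' = finrank F Z - 1 then (1 : 𝕜) else 0) =
          gz q (finrank F Z) 1 * (if Z ≤ Y then b Y else 0) +
            b Y * (if finrank F (Z ⊔ Y : Submodule F V) = j + 1 then 1 else 0) := by
        intro Y
        by_cases h2 : b Y = 0
        · simp [h2]
        · have hY := hb.1 Y h2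
          have hdim := Submodule.finrank_sup_add_finrank_inf_eq Z Y
          rw [hY.2] at hdim
          rw [sum_interval (Z := ⊥) (B := Z ⊓ Y) (i := finrank F Z - 1) bot_le
            (by rw [finrank_bot]; omega) q hq, finrank_bot, Nat.sub_zero]
          by_cases h3 : Z ≤ Y
          · rw [if_pos h3, inf_eq_left.2 h3, sup_eq_right.2 h3, hY.2, if_neg (by omega)]
            obtain ⟨m, hm⟩ : ∃ m, finrank F Z = m + 1 := ⟨finrank F Z - 1, by omega⟩
            rw [hm, Nat.add_sub_cancel, gz_pred, gz_one]; ring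
          · have h4 : Z ⊓ Y < Z := by
              refine lt_of_le_of_ne inf_le_left fun h => h3 ?_
              rw [← h]; exact inf_le_right
            have h5 := Submodule.finrank_lt_finrank_of_lt h4
            rw [if_neg h3]
            by_cases h6 : finrank F (Z ⊔ Y : Submodule F V) = j + 1
            · have h7 : finrank F (Z ⊓ Y : Submodule F V) = finrank F Z - 1 := by omega
              rw [if_pos h6, h7, gz_self]; ring
            · rw [if_neg h6, gz_of_lt]
              · ring
              · omega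
      simp_rw [h2]
      rw [Finset.sum_add_distrib, ← Finset.mul_sum, ← up_apply]
    have hzero : (∑ Z'' : Submodule F V, if Z'' ≤ Z ∧ finrank F Z'' + 1 = finrank F Z then
        up b Z'' else 0) = 0 := by
      refine Finset.sum_eq_zero fun Z'' _ => ?_
      split_ifs with h
      · exact hb.2 _ (by omega)
      · rfl
    rw [hzero] at hkey
    linear_combination -hkey

end cnt

end

end BrauerPP
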